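import Mathlib

/-!
# P325b.RankPerm (1 h): sorting inside clouds

`V` is a finite set with a partition into clouds `cl`, an injective numbering `ν` and priorities `π`.
`nat v` is the number of elements of the cloud of `v` with smaller number, `rk v` the number of those
that come before `v` in the order by priority, ties broken by `ν`. On every cloud both are bijections onto
`{0, ..., size - 1}` (they are injective because the orders are linear and each value is less than the
size; `rk v < size` since `v` itself is not counted). So there is exactly one permutation `rperm` that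
keeps the clouds with `nat (rperm v) = rk v`.
`rperm_comp`: for injective `π` ties do not occur, so `rk (π ∘ g) v = rk π (g v)` if `g` keeps the clouds
(the bijection `u ↦ g u`), and uniqueness (`rperm_iff`) gives the claim.
-/

open Finset

namespace Pool.Agent.P325b

variable {V C X : Type} [Fintype V] [DecidableEq V] [DecidableEq C] [LinearOrder X]

/-- The number of elements of the cloud of `v` with a smaller number. -/
def nat (cl : V → C) (ν : V → ℕ) (v : V) : ℕ :=
  (univ.filter (fun u => cl u = cl v ∧ ν u < ν v)).card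

/-- The number of elements of the cloud of `v` that come before `v`. -/
def rk (cl : V → C) (ν : V → ℕ) (π : V → X) (v : V) : ℕ :=
  (univ.filter (fun u => cl u = cl v ∧ (π u < π v ∨ (π u = π v ∧ ν u < ν v)))).card

theorem cnt_lt {K : Type*} [LinearOrder K] (cl : V → C) (key : V → K) {u v : V}
    (hc : cl u = cl v) (hk : key u < key v) :
    (univ.filter (fun x => cl x = cl u ∧ key x < key u)).card <
      (univ.filter (fun x => cl x = cl v ∧ key x < key v)).card := by
  refine Finset.card_lt_card ?_
  rw [Finset.ssubset_iff_of_subset]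
  · refine ⟨u, ?_, ?_⟩
    · rw [Finset.mem_filter]
      exact ⟨Finset.mem_univ _, hc, hk⟩
    · rw [Finset.mem_filter]
      rintro ⟨-, -, h⟩
      exact lt_irrefl _ h
  · intro x hx
    rw [Finset.mem_filter] at hx ⊢
    exact ⟨hx.1, hx.2.1.trans hc, hx.2.2.trans hk⟩

theorem cnt_inj {K : Type*} [LinearOrder K] (cl : V → C) (key : V → K)
    (hkey : Function.Injective key) {u v : V} (hc : cl u = cl v)
    (h : (univ.filter (fun x => cl x = cl u ∧ key x < key u)).card =
      (univ.filter (fun x => cl x = cl v ∧ key x < key v)).card) : u = v := by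
  rcases lt_trichotomy (key u) (key v) with h1 | h1 | h1
  · exact absurd h (cnt_lt cl key hc h1).ne
  · exact hkey h1
  · exact absurd h (cnt_lt cl key hc.symm h1).ne'

theorem cnt_lt_size {K : Type*} [LinearOrder K] (cl : V → C) (key : V → K) (v : V) :
    (univ.filter (fun x => cl x = cl v ∧ key x < key v)).card <
      (univ.filter (fun x => cl x = cl v)).card := by
  refine Finset.card_lt_card ?_
  rw [Finset.ssubset_iff_of_subset]
  · refine ⟨v, ?_, ?_⟩
    · rw [Finset.mem_filter]
      exact ⟨Finset.mem_univ _, rfl⟩
    · rw [Finset.mem_filter]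
      rintro ⟨-, -, h⟩
      exact lt_irrefl _ h
  · intro x hx
    rw [Finset.mem_filter] at hx ⊢
    exact ⟨hx.1, hx.2.1⟩

theorem exists_cnt {K : Type*} [LinearOrder K] (cl : V → C) (key : V → K)
    (hkey : Function.Injective key) (v : V) (n : ℕ)
    (hn : n < (univ.filter (fun x => cl x = cl v)).card) :
    ∃ v', cl v' = cl v ∧ (univ.filter (fun x => cl x = cl v' ∧ key x < key v')).card = n := by
  have himg : (univ.filter (fun x => cl x = cl v)).image
      (fun v' => (univ.filter (fun x => cl x = cl v' ∧ key x < key v')).card) =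
      Finset.range (univ.filter (fun x => cl x = cl v)).card := by
    refine Finset.eq_of_subset_of_card_le ?_ ?_
    · intro m hm
      rw [Finset.mem_image] at hm
      obtain ⟨v', hv', rfl⟩ := hm
      rw [Finset.mem_filter] at hv'
      rw [Finset.mem_range]
      have := cnt_lt_size cl key v'
      rw [hv'.2] at this ⊢
      exact this
    · rw [Finset.card_range, Finset.card_image_of_injOn]
      intro a ha b hb hab
      rw [Finset.mem_coe, Finset.mem_filter] at ha hb
      exact cnt_inj cl key hkey (ha.2.trans hb.2.symm) hab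
  have hmem : n ∈ Finset.range (univ.filter (fun x => cl x = cl v)).card := Finset.mem_range.2 hn
  rw [← himg, Finset.mem_image] at hmem
  obtain ⟨v', hv', h⟩ := hmem
  rw [Finset.mem_filter] at hv'
  exact ⟨v', hv'.2, h⟩

/-- The sorting key. -/
def skey (ν : V → ℕ) (π : V → X) (v : V) : X ×ₗ ℕ := toLex (π v, ν v)

theorem skey_inj (ν : V → ℕ) (hν : Function.Injective ν) (π : V → X) :
    Function.Injective (skey ν π) := by
  intro u v h
  have h' : (π u, ν u) = (π v, ν v) := toLex.injective h
  exact hν (Prod.ext_iff.1 h').2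

theorem rk_eq (cl : V → C) (ν : V → ℕ) (π : V → X) (v : V) :
    rk cl ν π v = (univ.filter (fun x => cl x = cl v ∧ skey ν π x < skey ν π v)).card := by
  unfold rk
  congr 1
  ext x
  rw [Finset.mem_filter, Finset.mem_filter]
  unfold skey
  rw [Prod.Lex.toLex_lt_toLex]

theorem nat_inj (cl : V → C) (ν : V → ℕ) (hν : Function.Injective ν) {u v : V}
    (hc : cl u = cl v) (h : nat cl ν u = nat cl ν v) : u = v :=
  cnt_inj cl ν hν hc h

theorem rk_inj (cl : V → C) (ν : V → ℕ) (hν : Function.Injective ν) (π : V → X) {u v : V}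
    (hc : cl u = cl v) (h : rk cl ν π u = rk cl ν π v) : u = v := by
  rw [rk_eq, rk_eq] at h
  exact cnt_inj cl (skey ν π) (skey_inj ν hν π) hc h

theorem exists_rperm (cl : V → C) (ν : V → ℕ) (hν : Function.Injective ν) (π : V → X) :
    ∃ g : Equiv.Perm V, (∀ v, cl (g v) = cl v) ∧ ∀ v, nat cl ν (g v) = rk cl ν π v := by
  have hex : ∀ v, ∃ v', cl v' = cl v ∧ nat cl ν v' = rk cl ν π v := by
    intro v
    refine exists_cnt cl ν hν v (rk cl ν π v) ?_
    rw [rk_eq]
    exact cnt_lt_size cl (skey ν π) v
  choose g hg1 hg2 using hex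
  have hinj : Function.Injective g := by
    intro u v huv
    refine rk_inj cl ν hν π ?_ ?_
    · rw [← hg1 u, ← hg1 v, huv]
    · rw [← hg2 u, ← hg2 v, huv]
  exact ⟨Equiv.ofBijective g (Finite.injective_iff_bijective.1 hinj), hg1, hg2⟩

/-- The permutation that sorts every cloud by priority. -/
noncomputable def rperm (cl : V → C) (ν : V → ℕ) (hν : Function.Injective ν) (π : V → X) :
    Equiv.Perm V := (exists_rperm cl ν hν π).choose

theorem rperm_cl (cl : V → C) (ν : V → ℕ) (hν : Function.Injective ν) (π : V → X) (v : V) :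
    cl (rperm cl ν hν π v) = cl v := (exists_rperm cl ν hν π).choose_spec.1 v

theorem rperm_nat (cl : V → C) (ν : V → ℕ) (hν : Function.Injective ν) (π : V → X) (v : V) :
    nat cl ν (rperm cl ν hν π v) = rk cl ν π v := (exists_rperm cl ν hν π).choose_spec.2 v

theorem rperm_iff (cl : V → C) (ν : V → ℕ) (hν : Function.Injective ν) (π : V → X) (v v' : V) :
    rperm cl ν hν π v = v' ↔ cl v' = cl v ∧ nat cl ν v' = rk cl ν π v := by
  constructor
  · rintro rfl
    exact ⟨rperm_cl cl ν hν π v, rperm_nat cl ν hν π v⟩
  · rintro ⟨h1, h2⟩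
    refine nat_inj cl ν hν ?_ ?_
    · exact (rperm_cl cl ν hν π v).trans h1.symm
    · exact (rperm_nat cl ν hν π v).trans h2.symm

theorem rperm_comp (cl : V → C) (ν : V → ℕ) (hν : Function.Injective ν) (π : V → X)
    (hπ : Function.Injective π) (g : Equiv.Perm V) (hg : ∀ v, cl (g v) = cl v) (v : V) :
    rperm cl ν hν (fun u => π (g u)) v = rperm cl ν hν π (g v) := by
  rw [rperm_iff]
  refine ⟨(rperm_cl cl ν hν π (g v)).trans (hg v), ?_⟩
  rw [rperm_nat]
  unfold rk
  symm
  refine Finset.card_bij (fun u _ => g u) ?_ ?_ ?_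
  · intro u hu
    rw [Finset.mem_filter] at hu ⊢
    refine ⟨Finset.mem_univ _, ?_, Or.inl ?_⟩
    · rw [hg, hg]
      exact hu.2.1
    · rcases hu.2.2 with h | ⟨h, h'⟩
      · exact h
      · have : u = v := g.injective (hπ h)
        rw [this] at h'
        exact absurd h' (lt_irrefl _)
  · intro a _ b _ hab
    exact g.injective hab
  · intro x hx
    rw [Finset.mem_filter] at hx
    refine ⟨g.symm x, ?_, Equiv.apply_symm_apply g x⟩
    rw [Finset.mem_filter]
    refine ⟨Finset.mem_univ _, ?_, Or.inl ?_⟩
    · have h1 := hg (g.symm x)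
      rw [Equiv.apply_symm_apply] at h1
      rw [← h1, hx.2.1, hg]
    · show π (g (g.symm x)) < π (g v)
      rw [Equiv.apply_symm_apply]
      rcases hx.2.2 with h | ⟨h, h'⟩
      · exact h
      · have : x = g v := hπ h
        rw [this] at h'
        exact absurd h' (lt_irrefl _)

end Pool.Agent.P325b
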