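import Mathlib
import Pool.Agent.Lib.P325b.RankPerm
import Pool.Agent.Lib.CovT.Defs

/-!
# P325b.RankCount (1.2 h): random priorities give a random routing

`inj_count`: for a routing `s` the map `ρ ↦ (fun k v => ρ k (s.g k v))` is a bijection of the tuples of
injective priorities onto themselves, and `(rout (ρ ∘ s)).g k = (rout ρ).g k * s.g k` (`rperm_comp`). So the
number of injective `ρ` with `rout ρ = r` is the same for all `r` (for `r`, `r'` take `s.g k = r.g k⁻¹ * r'.g k`);
sum over `r ∈ Bad` and over all `r`.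
`noninj_count`: union over `k` and pairs `u ≠ v`; for such a pair the number of `ρ` with `ρ k u = ρ k v` is
`card (K → V → X) / card X` (the map `ρ ↦ (ρ with ρ k v replaced by x)`, or
`Fintype.card_congr`/double counting).
`rout_frac`: add the two (`Bad` is counted with injective `ρ` only, the others are in the second set);
`card Rout > 0`.
-/

open Finset

namespace Pool.Agent.P325b

open Pool.Agent.CovT

variable {V C X K : Type} [Fintype V] [DecidableEq V] [DecidableEq C] [LinearOrder X]

/-- The routing given by priorities. -/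
noncomputable def rout (cl : V → C) (ν : V → ℕ) (hν : Function.Injective ν) (ρ : K → V → X) :
    Rout K V C cl := ⟨fun k => rperm cl ν hν (ρ k), fun k v => rperm_cl cl ν hν (ρ k) v⟩

theorem rout_comp (cl : V → C) (ν : V → ℕ) (hν : Function.Injective ν)
    (ρ : K → V → X) (hρ : ∀ k, Function.Injective (ρ k)) (s : Rout K V C cl) (k : K) :
    (rout cl ν hν (fun k v => ρ k (s.g k v))).g k = (rout cl ν hν ρ).g k * s.g k := by
  ext v
  rw [Equiv.Perm.mul_apply]
  exact rperm_comp cl ν hν (ρ k) (hρ k) (s.g k) (s.keep k) v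

/-- The number of injective priorities with routing `r` does not depend on `r` (inequality). -/
theorem fib_le [Fintype X] [Fintype K] (cl : V → C) (ν : V → ℕ) (hν : Function.Injective ν)
    (r r' : Rout K V C cl) :
    Nat.card {ρ : K → V → X // (∀ k, Function.Injective (ρ k)) ∧ rout cl ν hν ρ = r} ≤
      Nat.card {ρ : K → V → X // (∀ k, Function.Injective (ρ k)) ∧ rout cl ν hν ρ = r'} := by
  classical
  have hkeep : ∀ k v, cl (((r.g k)⁻¹ * r'.g k) v) = cl v := by
    intro k v
    rw [Equiv.Perm.mul_apply]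
    have h1 := r.keep k ((r.g k)⁻¹ (r'.g k v))
    have h2 : r.g k ((r.g k)⁻¹ (r'.g k v)) = r'.g k v := (r.g k).apply_symm_apply _
    rw [h2] at h1
    rw [← h1, r'.keep]
  let s : Rout K V C cl := ⟨fun k => (r.g k)⁻¹ * r'.g k, hkeep⟩
  refine Nat.card_le_card_of_injective
    (fun ρ : {ρ : K → V → X // (∀ k, Function.Injective (ρ k)) ∧ rout cl ν hν ρ = r} =>
      (⟨fun k v => ρ.1 k (s.g k v), fun k => (ρ.2.1 k).comp (s.g k).injective, ?_⟩ :
        {ρ : K → V → X // (∀ k, Function.Injective (ρ k)) ∧ rout cl ν hν ρ = r'})) ?_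
  · apply Rout.ext'
    funext k
    rw [rout_comp cl ν hν ρ.1 ρ.2.1 s k, ρ.2.2]
    exact mul_inv_cancel_left _ _
  · intro ρ ρ' h
    apply Subtype.ext
    funext k v
    have h1 := congrFun (congrFun (congrArg Subtype.val h) k) ((s.g k).symm v)
    simpa using h1

theorem fib_eq [Fintype X] [Fintype K] (cl : V → C) (ν : V → ℕ) (hν : Function.Injective ν)
    (r r' : Rout K V C cl) :
    Nat.card {ρ : K → V → X // (∀ k, Function.Injective (ρ k)) ∧ rout cl ν hν ρ = r} =
      Nat.card {ρ : K → V → X // (∀ k, Function.Injective (ρ k)) ∧ rout cl ν hν ρ = r'} :=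
  le_antisymm (fib_le cl ν hν r r') (fib_le cl ν hν r' r)

/-- Sum over the fibres. -/
theorem fib_sum [Fintype X] [Fintype K] (cl : V → C) (ν : V → ℕ) (hν : Function.Injective ν)
    (B : Finset (Rout K V C cl)) (r : Rout K V C cl) :
    Nat.card {ρ : K → V → X // (∀ k, Function.Injective (ρ k)) ∧ rout cl ν hν ρ ∈ B} =
      B.card *
        Nat.card {ρ : K → V → X // (∀ k, Function.Injective (ρ k)) ∧ rout cl ν hν ρ = r} := by
  classical
  have h1 : ∀ p : (K → V → X) → Prop, Nat.card {ρ : K → V → X // p ρ} =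
      (univ.filter p).card := by
    intro p
    rw [Nat.card_eq_fintype_card, Fintype.card_subtype]
  have h2 : ∀ r' ∈ B, ((univ.filter (fun ρ : K → V → X => (∀ k, Function.Injective (ρ k)) ∧
      rout cl ν hν ρ ∈ B)).filter (fun ρ => rout cl ν hν ρ = r')).card =
      Nat.card {ρ : K → V → X // (∀ k, Function.Injective (ρ k)) ∧ rout cl ν hν ρ = r} := by
    intro r' hr'
    rw [fib_eq cl ν hν r r', h1]
    congr 1
    ext ρ
    simp only [mem_filter, mem_univ, true_and]
    constructor
    · rintro ⟨⟨a, _⟩, c⟩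
      exact ⟨a, c⟩
    · rintro ⟨a, c⟩
      exact ⟨⟨a, c ▸ hr'⟩, c⟩
  rw [h1, card_eq_sum_card_fiberwise (f := fun ρ => rout cl ν hν ρ) (t := B)]
  · refine (sum_congr rfl (fun r' hr' => ?_)).trans (sum_const_nat (m := Nat.card
      {ρ : K → V → X // (∀ k, Function.Injective (ρ k)) ∧ rout cl ν hν ρ = r}) (fun _ _ => rfl))
    convert h2 r' hr'
  · intro ρ hρ
    simp only [coe_filter, mem_univ, true_and] at hρ
    exact hρ.2

theorem inj_count [Fintype X] [Fintype K] (cl : V → C) (ν : V → ℕ)
    (hν : Function.Injective ν) (Bad : Finset (Rout K V C cl)) :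
    Nat.card {ρ : K → V → X // (∀ k, Function.Injective (ρ k)) ∧ rout cl ν hν ρ ∈ Bad} *
      Fintype.card (Rout K V C cl) =
        Bad.card * Nat.card {ρ : K → V → X // ∀ k, Function.Injective (ρ k)} := by
  have h1 := fib_sum (X := X) cl ν hν Bad default
  have h2 := fib_sum (X := X) cl ν hν (univ : Finset (Rout K V C cl)) default
  have h3 : Nat.card {ρ : K → V → X // (∀ k, Function.Injective (ρ k)) ∧
      rout cl ν hν ρ ∈ (univ : Finset (Rout K V C cl))} =
      Nat.card {ρ : K → V → X // ∀ k, Function.Injective (ρ k)} := by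
    apply Nat.card_congr
    exact Equiv.subtypeEquivRight (fun ρ => by simp)
  rw [← h3, h1, h2, card_univ]
  ring

/-- Two given values agree with probability `1 / card X`. -/
theorem pair_count [Fintype X] [Fintype K] [DecidableEq K] (k : K) (u v : V) (huv : u ≠ v) :
    (univ.filter (fun ρ : K → V → X => ρ k u = ρ k v)).card * Fintype.card X ≤
      Fintype.card (K → V → X) := by
  classical
  rw [← card_univ (α := X), ← card_product, ← card_univ (α := K → V → X)]
  refine card_le_card_of_injOn
    (fun p => Function.update p.1 k (Function.update (p.1 k) v p.2)) (fun _ _ => mem_univ _) ?_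
  rintro ⟨ρ, x⟩ hρ ⟨ρ', x'⟩ hρ' h
  replace hρ : ρ k u = ρ k v := (mem_filter.mp (mem_product.mp (mem_coe.mp hρ)).1).2
  replace hρ' : ρ' k u = ρ' k v := (mem_filter.mp (mem_product.mp (mem_coe.mp hρ')).1).2
  simp only at h
  have h0 : Function.update (ρ k) v x = Function.update (ρ' k) v x' := by
    have := congrFun h k
    simpa using this
  have hx : x = x' := by
    have := congrFun h0 v
    simpa using this
  have hne : ∀ w, w ≠ v → ρ k w = ρ' k w := by
    intro w hw
    have := congrFun h0 w
    simpa [Function.update_of_ne hw] using this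
  refine Prod.ext ?_ hx
  funext l w
  by_cases hl : l = k
  · subst hl
    by_cases hw : w = v
    · subst hw
      show ρ l w = ρ' l w
      rw [← hρ, ← hρ', hne u huv]
    · exact hne w hw
  · have := congrFun h l
    simp only [Function.update_of_ne hl] at this
    exact congrFun this w

theorem noninj_count [Fintype X] [Fintype K] :
    Nat.card {ρ : K → V → X // ¬ ∀ k, Function.Injective (ρ k)} * Fintype.card X ≤
      Fintype.card K * Fintype.card V ^ 2 * Nat.card (K → V → X) := by
  classical
  have hsub : (univ.filter (fun ρ : K → V → X => ¬ ∀ k, Function.Injective (ρ k))) ⊆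
      ((univ : Finset (K × V × V)).filter (fun t => t.2.1 ≠ t.2.2)).biUnion
        (fun t => univ.filter (fun ρ : K → V → X => ρ t.1 t.2.1 = ρ t.1 t.2.2)) := by
    intro ρ hρ
    simp only [mem_filter, mem_univ, true_and, not_forall] at hρ
    obtain ⟨k, hk⟩ := hρ
    simp only [Function.Injective, not_forall] at hk
    obtain ⟨u, v, h1, h2⟩ := hk
    rw [mem_biUnion]
    exact ⟨(k, u, v), by simpa using h2, by simpa using h1⟩
  rw [Nat.card_eq_fintype_card, Fintype.card_subtype, Nat.card_eq_fintype_card]
  calc (univ.filter (fun ρ : K → V → X => ¬ ∀ k, Function.Injective (ρ k))).card * Fintype.card X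
      ≤ (∑ t ∈ (univ : Finset (K × V × V)).filter (fun t => t.2.1 ≠ t.2.2),
          (univ.filter (fun ρ : K → V → X => ρ t.1 t.2.1 = ρ t.1 t.2.2)).card) *
            Fintype.card X :=
        Nat.mul_le_mul_right _ ((card_le_card hsub).trans card_biUnion_le)
    _ = ∑ t ∈ (univ : Finset (K × V × V)).filter (fun t => t.2.1 ≠ t.2.2),
          (univ.filter (fun ρ : K → V → X => ρ t.1 t.2.1 = ρ t.1 t.2.2)).card *
            Fintype.card X := sum_mul _ _ _
    _ ≤ ∑ t ∈ (univ : Finset (K × V × V)).filter (fun t => t.2.1 ≠ t.2.2),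
          Fintype.card (K → V → X) := by
        refine sum_le_sum fun t ht => ?_
        simp only [mem_filter, mem_univ, true_and] at ht
        exact pair_count t.1 t.2.1 t.2.2 ht
    _ = ((univ : Finset (K × V × V)).filter (fun t => t.2.1 ≠ t.2.2)).card *
          Fintype.card (K → V → X) := by rw [sum_const, smul_eq_mul]
    _ ≤ Fintype.card K * Fintype.card V ^ 2 * Fintype.card (K → V → X) := by
        refine Nat.mul_le_mul_right _ ((card_filter_le _ _).trans_eq ?_)
        rw [card_univ, Fintype.card_prod, Fintype.card_prod, sq]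

theorem rout_frac [Fintype X] [Nonempty X] [Fintype K] (cl : V → C) (ν : V → ℕ)
    (hν : Function.Injective ν) (Bad : Finset (Rout K V C cl)) (θ : ℝ)
    (hθ : (Bad.card : ℝ) ≤ θ * Fintype.card (Rout K V C cl)) :
    (Nat.card {ρ : K → V → X // rout cl ν hν ρ ∈ Bad} : ℝ) ≤
      (θ + Fintype.card K * Fintype.card V ^ 2 / Fintype.card X) * Nat.card (K → V → X) := by
  classical
  have hR : (0 : ℝ) < Fintype.card (Rout K V C cl) := by
    exact_mod_cast Fintype.card_pos
  have hX : (0 : ℝ) < Fintype.card X := by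
    exact_mod_cast Fintype.card_pos
  have hθ0 : 0 ≤ θ := by
    by_contra hneg
    push Not at hneg
    have := mul_neg_of_neg_of_pos hneg hR
    have h0 : (0 : ℝ) ≤ (Bad.card : ℝ) := Nat.cast_nonneg _
    linarith
  have h1 : ∀ p : (K → V → X) → Prop, Nat.card {ρ : K → V → X // p ρ} =
      (univ.filter p).card := by
    intro p
    rw [Nat.card_eq_fintype_card, Fintype.card_subtype]
  have hsplit : Nat.card {ρ : K → V → X // rout cl ν hν ρ ∈ Bad} ≤
      Nat.card {ρ : K → V → X // (∀ k, Function.Injective (ρ k)) ∧ rout cl ν hν ρ ∈ Bad} +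
        Nat.card {ρ : K → V → X // ¬ ∀ k, Function.Injective (ρ k)} := by
    rw [h1, h1, h1]
    refine le_trans (card_le_card ?_) (card_union_le _ _)
    intro ρ hρ
    simp only [mem_filter, mem_univ, true_and, mem_union] at hρ ⊢
    by_cases h : ∀ k, Function.Injective (ρ k)
    · exact Or.inl ⟨h, hρ⟩
    · exact Or.inr h
  have hinj : (Nat.card {ρ : K → V → X // (∀ k, Function.Injective (ρ k)) ∧
      rout cl ν hν ρ ∈ Bad} : ℝ) ≤ θ * Nat.card (K → V → X) := by
    have h2 : (Nat.card {ρ : K → V → X // (∀ k, Function.Injective (ρ k)) ∧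
        rout cl ν hν ρ ∈ Bad} : ℝ) * Fintype.card (Rout K V C cl) =
        Bad.card * Nat.card {ρ : K → V → X // ∀ k, Function.Injective (ρ k)} := by
      exact_mod_cast inj_count (X := X) cl ν hν Bad
    have h3 : (Nat.card {ρ : K → V → X // ∀ k, Function.Injective (ρ k)} : ℝ) ≤
        Nat.card (K → V → X) := by
      exact_mod_cast Nat.card_le_card_of_injective _ Subtype.val_injective
    have h4 : (0 : ℝ) ≤ Nat.card {ρ : K → V → X // ∀ k, Function.Injective (ρ k)} :=
      Nat.cast_nonneg _
    refine le_of_mul_le_mul_right ?_ hR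
    rw [h2]
    calc (Bad.card : ℝ) * Nat.card {ρ : K → V → X // ∀ k, Function.Injective (ρ k)}
        ≤ (θ * Fintype.card (Rout K V C cl)) *
            Nat.card {ρ : K → V → X // ∀ k, Function.Injective (ρ k)} :=
          mul_le_mul_of_nonneg_right hθ h4
      _ ≤ (θ * Fintype.card (Rout K V C cl)) * Nat.card (K → V → X) :=
          mul_le_mul_of_nonneg_left h3 (mul_nonneg hθ0 hR.le)
      _ = θ * Nat.card (K → V → X) * Fintype.card (Rout K V C cl) := by ring
  have hnon : (Nat.card {ρ : K → V → X // ¬ ∀ k, Function.Injective (ρ k)} : ℝ) ≤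
      Fintype.card K * Fintype.card V ^ 2 / Fintype.card X * Nat.card (K → V → X) := by
    have h2 : (Nat.card {ρ : K → V → X // ¬ ∀ k, Function.Injective (ρ k)} : ℝ) *
        Fintype.card X ≤ Fintype.card K * Fintype.card V ^ 2 * Nat.card (K → V → X) := by
      exact_mod_cast noninj_count (K := K) (V := V) (X := X)
    rw [div_mul_eq_mul_div, le_div_iff₀ hX]
    exact h2
  have hs : (Nat.card {ρ : K → V → X // rout cl ν hν ρ ∈ Bad} : ℝ) ≤
      Nat.card {ρ : K → V → X // (∀ k, Function.Injective (ρ k)) ∧ rout cl ν hν ρ ∈ Bad} +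
        Nat.card {ρ : K → V → X // ¬ ∀ k, Function.Injective (ρ k)} := by
    exact_mod_cast hsplit
  linarith

end Pool.Agent.P325b
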