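import Mathlib
import Pool.Agent.Lib.P325b.RankCount
import Pool.Agent.Lib.P325n.Defs

/-!
# The numbered cover game

Auxiliary definitions: the constants of the reduction (`Tmpl`), the numbered half-edges, the instance
`cov M I r` given by a routing `r`, and `covBits M B0 (I, bits)`, where the routing is read off a string
of random bits.
-/

open Finset

namespace Pool.Agent.P325b

open Pool.Agent.CovT Pool.Agent.P325n Pool.Agent.P325f1f.Dich

/-- The constants of the reduction from games over `Fin q` to games over `Fin q'`. -/
structure Tmpl (q q' : ℕ) where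
  /-- number of left types -/
  nP : ℕ
  /-- number of right types -/
  nQ : ℕ
  /-- number of edge types (with multiplicity) -/
  nK : ℕ
  /-- number of copies of an edge -/
  C : ℕ
  /-- number of points of the long code -/
  X : ℕ
  hK : 0 < nK
  hC : 0 < C
  /-- left end of an edge type -/
  s : Fin nK → Fin nP
  /-- right end of an edge type -/
  d : Fin nK → Fin nQ
  /-- constraint of an edge type -/
  σ : Fin nK → Equiv.Perm (Fin q')
  /-- the point of the long code of a copy -/
  pt : Fin C → Fin X
  /-- carry a copy over an edge with a given constraint -/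
  car : Fin nK → Equiv.Perm (Fin q) → Equiv.Perm (Fin C)

variable {q q' : ℕ}

/-- A half-edge: a side and a numbered slot. -/
abbrev Half (M : Tmpl q q') (I : Inst q) : Type := Bool × Fin (I.m * M.C)

/-- The cloud of a half-edge. -/
def clN (M : Tmpl q q') (I : Inst q) (v : Half M I) : (Fin I.a ⊕ Fin I.b) × Fin M.X :=
  (if v.1 then Sum.inr (I.game.dst (finProdFinEquiv.symm v.2).1)
    else Sum.inl (I.game.src (finProdFinEquiv.symm v.2).1), M.pt (finProdFinEquiv.symm v.2).2)

/-- Carry a slot over the constraint of its edge. -/
def carryN (M : Tmpl q q') (I : Inst q) (k : Fin M.nK) (h : Fin (I.m * M.C)) : Fin (I.m * M.C) :=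
  finProdFinEquiv ((finProdFinEquiv.symm h).1,
    M.car k (I.game.perm (finProdFinEquiv.symm h).1) (finProdFinEquiv.symm h).2)

/-- The cover game of an instance given by a routing. -/
def cov (M : Tmpl q q') (I : Inst q) (r : Rout (Fin M.nK) (Half M I) _ (clN M I)) : Inst q' where
  a := I.m * M.C * M.nP
  b := I.m * M.C * M.nQ
  m := I.m * M.C * M.nK
  pos := Nat.mul_pos (Nat.mul_pos I.pos M.hC) M.hK
  game :=
    { src := fun e => finProdFinEquiv
        ((r.g (finProdFinEquiv.symm e).2 (false, (finProdFinEquiv.symm e).1)).2,
          M.s (finProdFinEquiv.symm e).2)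
      dst := fun e => finProdFinEquiv
        ((r.g (finProdFinEquiv.symm e).2
          (true, carryN M I (finProdFinEquiv.symm e).2 (finProdFinEquiv.symm e).1)).2,
          M.d (finProdFinEquiv.symm e).2)
      perm := fun e => M.σ (finProdFinEquiv.symm e).2 }

/-- The number of a half-edge. -/
def num (M : Tmpl q q') (I : Inst q) (v : Half M I) : ℕ :=
  (if v.1 then 1 else 0) * (I.m * M.C) + (v.2 : ℕ)

theorem num_inj (M : Tmpl q q') (I : Inst q) : Function.Injective (num M I) := by
  rintro ⟨b, v⟩ ⟨b', v'⟩ h
  have h1 := v.2
  have h2 := v'.2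
  unfold num at h
  cases b <;> cases b'
  · simp only [Bool.false_eq_true, if_false, zero_mul, zero_add] at h
    rw [Fin.ext h]
  · simp only [Bool.false_eq_true, if_false, if_true, zero_mul, zero_add, one_mul] at h
    omega
  · simp only [Bool.false_eq_true, if_false, if_true, zero_mul, zero_add, one_mul] at h
    omega
  · simp only [if_true, one_mul] at h
    have h3 : (v : ℕ) = v' := by omega
    rw [Fin.ext h3]

/-- The priority of a half-edge for the colour `k`: `B` consecutive bits of the string. -/
def prio (M : Tmpl q q') (I : Inst q) (B : ℕ) (bits : List Bool) (k : Fin M.nK) (v : Half M I) :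
    Lex (Fin B → Bool) :=
  toLex (fun i => bits.getD (((k : ℕ) * (2 * (I.m * M.C)) + num M I v) * B + (i : ℕ)) false)

/-- The number of random bits. -/
def bitLen (M : Tmpl q q') (B0 : ℕ) (I : Inst q) : ℕ :=
  M.nK * (2 * (I.m * M.C)) * (I.m * M.C + B0)

/-- The routing read off a string of random bits. -/
noncomputable def routB (M : Tmpl q q') (B0 : ℕ) (I : Inst q) (bits : List Bool) :
    Rout (Fin M.nK) (Half M I) _ (clN M I) :=
  rout (clN M I) (num M I) (num_inj M I) (prio M I (I.m * M.C + B0) bits)

/-- The randomised reduction. -/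
noncomputable def covBits (M : Tmpl q q') (B0 : ℕ) (x : Inst q × List Bool) : Inst q' :=
  cov M x.1 (routB M B0 x.1 x.2)

end Pool.Agent.P325b
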