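import Mathlib
import Pool.Agent.Lib.P325b.Tmpl

/-!
# P325b.BitsMap (1 h): random bits give random priorities

`bits_count`: the map `r ↦ prio M I B (List.ofFn r)` is a bijection from `Fin (nK * (2 * (m * C)) * B) → Bool`
to `Fin nK → Half M I → Lex (Fin B → Bool)`: `(k, v, i) ↦ (k * (2 m C) + num v) * B + i` is a bijection of
the index sets (`finProdFinEquiv` twice: `Fin nK × Fin (2 m C) ≃ Fin (nK * (2 m C))`,
`Fin _ × Fin B ≃ Fin _`; `num` is a bijection `Half M I ≃ Fin (2 * (m * C))`), `List.getD` of `List.ofFn`.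
`routB_frac`: `rout_frac` with `X = Lex (Fin B → Bool)`, `B = m C + B0`, `card X = 2 ^ B`,
`card (Half M I) = 2 m C`, and `n ^ 2 ≤ 2 * 2 ^ n` for `n = m C`:
`nK * (2 n) ^ 2 / 2 ^ (n + B0) ≤ 8 * nK / 2 ^ B0`.
-/

open Finset

namespace Pool.Agent.P325b

open Pool.Agent.CovT Pool.Agent.P325n

variable {q q' : ℕ}

namespace BitsMapAux

/-- Numbering of the half-edges. -/
def halfE (M : Tmpl q q') (I : Inst q) : Half M I ≃ Fin (2 * (I.m * M.C)) :=
  (Equiv.prodCongr finTwoEquiv.symm (Equiv.refl _)).trans finProdFinEquiv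

theorem halfE_val (M : Tmpl q q') (I : Inst q) (v : Half M I) :
    (halfE M I v : ℕ) = num M I v := by
  obtain ⟨b, h⟩ := v
  have e0 : ((finTwoEquiv.symm false : Fin 2) : ℕ) = 0 := rfl
  have e1 : ((finTwoEquiv.symm true : Fin 2) : ℕ) = 1 := rfl
  cases b
  · simp only [halfE, num, Equiv.trans_apply, Equiv.prodCongr_apply, Prod.map_apply,
      Equiv.refl_apply, finProdFinEquiv_apply_val, e0, Bool.false_eq_true, if_false]
    ring
  · simp only [halfE, num, Equiv.trans_apply, Equiv.prodCongr_apply, Prod.map_apply,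
      Equiv.refl_apply, finProdFinEquiv_apply_val, e1, if_true]
    ring

/-- Numbering of the bits. -/
def idxE (M : Tmpl q q') (I : Inst q) (B : ℕ) :
    (Fin M.nK × Half M I) × Fin B ≃ Fin (M.nK * (2 * (I.m * M.C)) * B) :=
  (Equiv.prodCongr ((Equiv.prodCongr (Equiv.refl _) (halfE M I)).trans finProdFinEquiv)
    (Equiv.refl _)).trans finProdFinEquiv

theorem idxE_val (M : Tmpl q q') (I : Inst q) (B : ℕ) (k : Fin M.nK) (v : Half M I) (i : Fin B) :
    (idxE M I B ((k, v), i) : ℕ) = ((k : ℕ) * (2 * (I.m * M.C)) + num M I v) * B + (i : ℕ) := by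
  simp only [idxE, Equiv.trans_apply, Equiv.prodCongr_apply, Prod.map_apply, Equiv.refl_apply,
    finProdFinEquiv_apply_val, halfE_val]
  ring

/-- The equivalence of the bit strings and the priorities. -/
def prioE (M : Tmpl q q') (I : Inst q) (B : ℕ) :
    (Fin (M.nK * (2 * (I.m * M.C)) * B) → Bool) ≃
      (Fin M.nK → Half M I → Lex (Fin B → Bool)) where
  toFun r := fun k v => toLex (fun i => r (idxE M I B ((k, v), i)))
  invFun ρ := fun j => ofLex (ρ ((idxE M I B).symm j).1.1 ((idxE M I B).symm j).1.2)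
    ((idxE M I B).symm j).2
  left_inv r := by
    funext j
    simp
  right_inv ρ := by
    funext k v
    simp
    rfl

theorem prio_eq (M : Tmpl q q') (I : Inst q) (B : ℕ)
    (r : Fin (M.nK * (2 * (I.m * M.C)) * B) → Bool) :
    prio M I B (List.ofFn r) = prioE M I B r := by
  funext k v
  unfold prio prioE
  simp only [Equiv.coe_fn_mk]
  congr 1
  funext i
  have h1 := idxE_val M I B k v i
  have h2 := (idxE M I B ((k, v), i)).2
  rw [← h1, List.getD_eq_getElem _ _ (by rw [List.length_ofFn]; exact h2), List.getElem_ofFn]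

theorem sq_le_two_pow (n : ℕ) : n ^ 2 ≤ 2 * 2 ^ n := by
  have key : ∀ n : ℕ, (n + 4) ^ 2 ≤ 2 * 2 ^ (n + 4) := by
    intro n
    induction n with
    | zero => norm_num
    | succ n ih =>
      have h : (n + 1 + 4) ^ 2 ≤ 2 * (n + 4) ^ 2 := by
        nlinarith [Nat.zero_le n, Nat.zero_le (n ^ 2)]
      calc (n + 1 + 4) ^ 2 ≤ 2 * (n + 4) ^ 2 := h
        _ ≤ 2 * (2 * 2 ^ (n + 4)) := Nat.mul_le_mul_left _ ih
        _ = 2 * 2 ^ (n + 1 + 4) := by ring
  match n with
  | 0 => norm_num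
  | 1 => norm_num
  | 2 => norm_num
  | 3 => norm_num
  | n + 4 => exact key n

end BitsMapAux

open BitsMapAux

theorem bits_count (M : Tmpl q q') (I : Inst q) (B : ℕ)
    (Q : (Fin M.nK → Half M I → Lex (Fin B → Bool)) → Prop) :
    Nat.card {r : Fin (M.nK * (2 * (I.m * M.C)) * B) → Bool // Q (prio M I B (List.ofFn r))} =
      Nat.card {ρ : Fin M.nK → Half M I → Lex (Fin B → Bool) // Q ρ} := by
  apply Nat.card_congr
  exact Equiv.subtypeEquiv (prioE M I B) (fun r => by rw [prio_eq])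

theorem routB_frac (M : Tmpl q q') (B0 : ℕ) (I : Inst q)
    (Bad : Finset (Rout (Fin M.nK) (Half M I) _ (clN M I))) (θ : ℝ)
    (hθ : (Bad.card : ℝ) ≤ θ * Fintype.card (Rout (Fin M.nK) (Half M I) _ (clN M I))) :
    (Nat.card {r : Fin (bitLen M B0 I) → Bool // routB M B0 I (List.ofFn r) ∈ Bad} : ℝ) ≤
      (θ + 8 * M.nK / 2 ^ B0) * 2 ^ bitLen M B0 I := by
  have hF : Fintype (Lex (Fin (I.m * M.C + B0) → Bool)) :=
    inferInstanceAs (Fintype (Fin (I.m * M.C + B0) → Bool))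
  have hNe : Nonempty (Lex (Fin (I.m * M.C + B0) → Bool)) := ⟨toLex fun _ => false⟩
  have h1 : Nat.card {r : Fin (bitLen M B0 I) → Bool // routB M B0 I (List.ofFn r) ∈ Bad} =
      Nat.card {ρ : Fin M.nK → Half M I → Lex (Fin (I.m * M.C + B0) → Bool) //
        rout (clN M I) (num M I) (num_inj M I) ρ ∈ Bad} :=
    bits_count M I (I.m * M.C + B0) (fun ρ => rout (clN M I) (num M I) (num_inj M I) ρ ∈ Bad)
  have h2 := rout_frac (X := Lex (Fin (I.m * M.C + B0) → Bool)) (clN M I) (num M I) (num_inj M I)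
    Bad θ hθ
  have hX : Fintype.card (Lex (Fin (I.m * M.C + B0) → Bool)) = 2 ^ (I.m * M.C + B0) := by
    have e : Nat.card (Lex (Fin (I.m * M.C + B0) → Bool)) = 2 ^ (I.m * M.C + B0) := by
      rw [Nat.card_congr (ofLex : Lex (Fin (I.m * M.C + B0) → Bool) ≃ _)]
      simp
    rw [← e, Nat.card_eq_fintype_card]
  have hV : Fintype.card (Half M I) = 2 * (I.m * M.C) := by
    simp
  have hall : Nat.card (Fin M.nK → Half M I → Lex (Fin (I.m * M.C + B0) → Bool)) =
      2 ^ bitLen M B0 I := by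
    rw [← Nat.card_congr (prioE M I (I.m * M.C + B0))]
    simp [bitLen]
  rw [h1]
  rw [hX, hV, hall, Fintype.card_fin] at h2
  refine h2.trans ?_
  push_cast
  apply mul_le_mul_of_nonneg_right _ (by positivity)
  have hsq : ((I.m * M.C : ℕ) : ℝ) ^ 2 ≤ 2 * 2 ^ (I.m * M.C) := by
    exact_mod_cast sq_le_two_pow (I.m * M.C)
  push_cast at hsq
  have hk : (0 : ℝ) ≤ (M.nK : ℝ) := Nat.cast_nonneg _
  have hmain : (M.nK : ℝ) * (2 * ((I.m : ℝ) * M.C)) ^ 2 / 2 ^ (I.m * M.C + B0) ≤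
      8 * M.nK / 2 ^ B0 := by
    rw [div_le_div_iff₀ (by positivity) (by positivity), pow_add]
    have h3 : (M.nK : ℝ) * ((2 * ((I.m : ℝ) * M.C)) ^ 2) ≤ M.nK * (8 * 2 ^ (I.m * M.C)) := by
      apply mul_le_mul_of_nonneg_left _ hk
      nlinarith
    have h4 : (0 : ℝ) < 2 ^ B0 := by positivity
    calc (M.nK : ℝ) * (2 * ((I.m : ℝ) * M.C)) ^ 2 * 2 ^ B0
        ≤ M.nK * (8 * 2 ^ (I.m * M.C)) * 2 ^ B0 := mul_le_mul_of_nonneg_right h3 h4.le
      _ = 8 * M.nK * (2 ^ (I.m * M.C) * 2 ^ B0) := by ring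
  linarith

end Pool.Agent.P325b
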