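import Mathlib
import Pool.Agent.Lib.P325r.TypedDefs

/-!
# Randomised NP-hardness, typed unique games of bounded degree
-/

namespace Pool.Agent.P325b

open Pool.Agent.P325f1f.Dich Pool.Agent.P325t Pool.Agent.P325n Turing

/-- The promise problem with the given yes-instances and no-instances is NP-hard under
polynomial-time randomised many-one reductions with one-sided error: for every language `L` in NP and
every `η > 0` there are a polynomial `p` and a function `f`, computable in polynomial time, such
that for random strings `r` of length `p |x|`: if `x ∈ L` then `f (x, r)` is always a yes-instance, and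
if `x ∉ L` then `f (x, r)` is a no-instance for all but a fraction `η` of the `r`. -/
def RandNPHard {q : ℕ} (yes no : Set (Inst q)) : Prop :=
  ∀ L : Set (List Bool), InNP L → ∀ η : ℚ, 0 < η →
    ∃ (p : Polynomial ℕ) (f : List Bool × List Bool → Inst q),
      Nonempty (TM2ComputableInPolyTime (αΓ := Bool) (βΓ := Bool) pairCode Inst.encode f) ∧
      (∀ x ∈ L, ∀ r : Fin (p.eval x.length) → Bool, f (x, List.ofFn r) ∈ yes) ∧
      ∀ x ∉ L, (Nat.card {r : Fin (p.eval x.length) → Bool // f (x, List.ofFn r) ∉ no} : ℚ) ≤
        η * 2 ^ p.eval x.length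

/-- The gap problem for unrestricted unique games with completeness near `c` and soundness near `0`
and randomised reductions: for all `ε, δ > 0` with `ε + δ < c` there is `q > 0` such that it is NP-hard
under randomised reductions to distinguish games of value at least `c - ε` from games of value
at most `δ`. -/
def RandGapHard (c : ℚ) : Prop :=
  ∀ ε δ : ℚ, 0 < ε → 0 < δ → ε + δ < c → ∃ q : ℕ, 0 < q ∧
    RandNPHard {I : Inst q | ((c - ε : ℚ) : ℝ) ≤ I.game.value}
      {I : Inst q | I.game.value ≤ ((δ : ℚ) : ℝ)}

/-- The instances over `Fin q` that are typed over `T` with frequencies proportional to `w` and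
constraints `σ` as in `TypedInst` and have bounded degree: every left vertex of type `a` has exactly
`w k` edges of each type `k` with `src k = a`, every right vertex of type `b` has exactly `w k` edges
of each type `k` with `dst k = b`. -/
def BoundedInst {P Q κ : Type} [Fintype κ] (T : TypeGraph P Q κ) (w : κ → ℕ) {q : ℕ}
    (σ : κ → Equiv.Perm (Fin q)) : Set (Inst q) := by
  classical
  exact {I | ∃ (a : Fin I.a → P) (b : Fin I.b → Q) (c : Fin I.m → κ),
    (∀ e, a (I.game.src e) = T.src (c e) ∧ b (I.game.dst e) = T.dst (c e) ∧
      I.game.perm e = σ (c e)) ∧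
    (∀ k, (Finset.univ.filter (fun e => c e = k)).card * ∑ l, w l = w k * I.m) ∧
    (∀ v k, T.src k = a v → (Finset.univ.filter (fun e => I.game.src e = v ∧ c e = k)).card = w k) ∧
    (∀ v k, T.dst k = b v → (Finset.univ.filter (fun e => I.game.dst e = v ∧ c e = k)).card = w k)}

/-- The gap problem for games of bounded degree typed over `T` with frequencies `w` is NP-hard under
randomised reductions with completeness `c` and soundness `δ`: for every `ε > 0` with `ε + δ < c` there
are a number `q` of labels and constraints `σ k` such that it is NP-hard under randomised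
reductions to distinguish the games in `BoundedInst T w σ` of value at least `c - ε` from those of
value at most `δ`. -/
def BoundedHard {P Q κ : Type} [Fintype κ] (c : ℚ) (T : TypeGraph P Q κ) (w : κ → ℕ) (δ : ℚ) :
    Prop :=
  ∀ ε : ℚ, 0 < ε → ε + δ < c → ∃ q : ℕ, 0 < q ∧ ∃ σ : κ → Equiv.Perm (Fin q),
    RandNPHard {I : Inst q | I ∈ BoundedInst T w σ ∧ ((c - ε : ℚ) : ℝ) ≤ I.game.value}
      {I : Inst q | I ∈ BoundedInst T w σ ∧ I.game.value ≤ ((δ : ℚ) : ℝ)}

end Pool.Agent.P325b
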