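import Mathlib
import Pool.Agent.Lib.P325b.Tmpl
import Pool.Agent.Lib.P325n.Bits

/-!
# Numerical description of the routing read off random bits
-/

open Finset

namespace Pool.Agent.P325b

open Pool.Agent.P325n

variable {q q' : ℕ}

/-- The point of the long code of the copy number `c`. -/
def ptN (M : Tmpl q q') (c : ℕ) : ℕ := if h : c < M.C then (M.pt ⟨c, h⟩ : ℕ) else 0

/-- The end of the edge number `e` on the side `b`. -/
def endN (I : Inst q) (b : Bool) (e : ℕ) : ℕ := if b then I.dstN e else I.srcN e

/-- The slots `h`, `h'` are in the same cloud on the side `b`. -/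
def sameN (M : Tmpl q q') (I : Inst q) (b : Bool) (h h' : ℕ) : Bool :=
  decide (endN I b (h / M.C) = endN I b (h' / M.C)) &&
    decide (ptN M (h % M.C) = ptN M (h' % M.C))

/-- The bit `i` of the priority of the half-edge `(b, h)` for the colour `k`. -/
def bitN (M : Tmpl q q') (B0 : ℕ) (x : Inst q × List Bool) (b : Bool) (k h i : ℕ) : Bool :=
  x.2.getD ((k * (2 * (x.1.m * M.C)) + ((if b then 1 else 0) * (x.1.m * M.C) + h)) *
    (x.1.m * M.C + B0) + i) false

/-- The half-edge `(b, h)` comes before `(b, h')` for the colour `k`. -/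
def beforeN (M : Tmpl q q') (B0 : ℕ) (x : Inst q × List Bool) (b : Bool) (k h h' : ℕ) : Bool :=
  decide (∃ i < x.1.m * M.C + B0, (∀ j < i, bitN M B0 x b k h j = bitN M B0 x b k h' j) ∧
    bitN M B0 x b k h i = false ∧ bitN M B0 x b k h' i = true) ||
  (decide (∀ j < x.1.m * M.C + B0, bitN M B0 x b k h j = bitN M B0 x b k h' j) && decide (h < h'))

/-- The number of slots of the cloud of `(b, h')` with smaller number. -/
def natN (M : Tmpl q q') (I : Inst q) (b : Bool) (h' : ℕ) : ℕ :=
  ((range (I.m * M.C)).filter (fun u => (sameN M I b u h' && decide (u < h')) = true)).card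

/-- The number of slots of the cloud of `(b, h)` that come before it. -/
def rkN (M : Tmpl q q') (B0 : ℕ) (x : Inst q × List Bool) (b : Bool) (k h : ℕ) : ℕ :=
  ((range (x.1.m * M.C)).filter (fun u => (sameN M x.1 b u h && beforeN M B0 x b k u h) = true)).card

/-- The routing sends `(b, h)` to `(b, h')`. -/
def gN (M : Tmpl q q') (B0 : ℕ) (x : Inst q × List Bool) (b : Bool) (k h h' : ℕ) : Bool :=
  sameN M x.1 b h' h && decide (natN M x.1 b h' = rkN M B0 x b k h)

end Pool.Agent.P325b
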