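import Mathlib
import Pool.Agent.Lib.P325b.GDef

/-!
# P325b.GNum (1.2 h): the numerical description is correct

`sameN_iff`: `clN (b, h) = clN (b, h')` in numbers (`Inst.srcN`, `Inst.dstN` in `P325n/Bits.lean` are the
ends as natural numbers; `finProdFinEquiv.symm h = (h / C, h % C)` by `rfl` on values).
`before_iff`: for half-edges on the same side, `prio (b, u) < prio (b, h) ∨ (= ∧ num < num)` is `beforeN`
(`Pi.toLex_lt`-type lemma or unfold `Pi.Lex`; `Bool.lt_iff`; `num` on one side is `constant + h`).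
`nat_eq`, `rk_eq`: the sets counted in `nat`, `rk` (`RankPerm.lean`) consist of half-edges on the side `b`
(the cloud contains the side) and correspond to numbers below `m C`.
`gN_iff`: `rperm_iff`, and `(g (b, h)).1 = b`.
-/

open Finset

namespace Pool.Agent.P325b

open Pool.Agent.CovT Pool.Agent.P325n

variable {q q' : ℕ}

namespace GNumAux

theorem endN_true (M : Tmpl q q') (I : Inst q) (h : Fin (I.m * M.C)) :
    endN I true ((h : ℕ) / M.C) = (I.game.dst (finProdFinEquiv.symm h).1 : ℕ) := by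
  have h1 : (h : ℕ) / M.C < I.m := (Nat.div_lt_iff_lt_mul M.hC).2 h.2
  have e : (finProdFinEquiv.symm h).1 = ⟨(h : ℕ) / M.C, h1⟩ := rfl
  rw [e]
  simp [endN, Inst.dstN, h1]

theorem endN_false (M : Tmpl q q') (I : Inst q) (h : Fin (I.m * M.C)) :
    endN I false ((h : ℕ) / M.C) = (I.game.src (finProdFinEquiv.symm h).1 : ℕ) := by
  have h1 : (h : ℕ) / M.C < I.m := (Nat.div_lt_iff_lt_mul M.hC).2 h.2
  have e : (finProdFinEquiv.symm h).1 = ⟨(h : ℕ) / M.C, h1⟩ := rfl
  rw [e]
  simp [endN, Inst.srcN, h1]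

theorem ptN_eq (M : Tmpl q q') (I : Inst q) (h : Fin (I.m * M.C)) :
    ptN M ((h : ℕ) % M.C) = (M.pt (finProdFinEquiv.symm h).2 : ℕ) := by
  have h1 : (h : ℕ) % M.C < M.C := Nat.mod_lt _ M.hC
  have e : (finProdFinEquiv.symm h).2 = ⟨(h : ℕ) % M.C, h1⟩ := rfl
  rw [e]
  simp [ptN, h1]

/-- Counting half-edges of one side. -/
theorem card_side {n : ℕ} (b : Bool) (P : Bool × Fin n → Prop) {_ : DecidablePred P} (p : ℕ → Bool)
    (h1 : ∀ v, P v → v.1 = b) (h2 : ∀ h : Fin n, p h = true ↔ P (b, h)) :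
    (univ.filter P).card = ((range n).filter (fun u => p u = true)).card := by
  refine Finset.card_bij (fun v _ => (v.2 : ℕ)) ?_ ?_ ?_
  · intro v hv
    rw [Finset.mem_filter] at hv ⊢
    refine ⟨Finset.mem_range.2 v.2.2, ?_⟩
    rw [h2]
    have e : (b, v.2) = v := by
      rw [← h1 v hv.2]
    rw [e]
    exact hv.2
  · intro v hv w hw hvw
    rw [Finset.mem_filter] at hv hw
    refine Prod.ext ?_ (Fin.ext hvw)
    rw [h1 v hv.2, h1 w hw.2]
  · intro u hu
    rw [Finset.mem_filter, Finset.mem_range] at hu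
    refine ⟨(b, ⟨u, hu.1⟩), ?_, rfl⟩
    rw [Finset.mem_filter]
    exact ⟨Finset.mem_univ _, (h2 ⟨u, hu.1⟩).1 hu.2⟩

theorem clN_side (M : Tmpl q q') (I : Inst q) {v w : Half M I} (h : clN M I v = clN M I w) :
    v.1 = w.1 := by
  obtain ⟨b, v⟩ := v
  obtain ⟨c, w⟩ := w
  have h1 := congrArg Prod.fst h
  unfold clN at h1
  cases b <;> cases c <;> simp at h1 ⊢

theorem num_lt (M : Tmpl q q') (I : Inst q) (b : Bool) (h h' : Fin (I.m * M.C)) :
    num M I (b, h) < num M I (b, h') ↔ (h : ℕ) < h' := by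
  unfold num
  simp

end GNumAux

open GNumAux

theorem sameN_iff (M : Tmpl q q') (I : Inst q) (b : Bool) (h h' : Fin (I.m * M.C)) :
    sameN M I b h h' = true ↔ clN M I (b, h) = clN M I (b, h') := by
  unfold sameN
  rw [ptN_eq, ptN_eq, Bool.and_eq_true, decide_eq_true_eq, decide_eq_true_eq]
  unfold clN
  cases b
  · rw [endN_false, endN_false]
    simp [Fin.ext_iff]
  · rw [endN_true, endN_true]
    simp [Fin.ext_iff]

namespace GNumAux

theorem nat_eq (M : Tmpl q q') (I : Inst q) (b : Bool) (h' : Fin (I.m * M.C)) :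
    nat (clN M I) (num M I) (b, h') = natN M I b h' := by
  unfold nat natN
  refine card_side b _ (fun u => sameN M I b u h' && decide (u < (h' : ℕ))) ?_ ?_
  · intro v hv
    exact clN_side M I hv.1
  · intro h
    simp only [Bool.and_eq_true, decide_eq_true_eq]
    rw [sameN_iff, num_lt]

theorem prio_lt (M : Tmpl q q') (B0 : ℕ) (I : Inst q) (bits : List Bool) (b : Bool)
    (k : Fin M.nK) (h h' : Fin (I.m * M.C)) :
    prio M I (I.m * M.C + B0) bits k (b, h) < prio M I (I.m * M.C + B0) bits k (b, h') ↔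
      ∃ i < I.m * M.C + B0, (∀ j < i, bitN M B0 (I, bits) b k h j = bitN M B0 (I, bits) b k h' j) ∧
        bitN M B0 (I, bits) b k h i = false ∧ bitN M B0 (I, bits) b k h' i = true := by
  constructor
  · rintro ⟨i, hi1, hi2⟩
    refine ⟨(i : ℕ), i.2, ?_, ?_⟩
    · intro j hj
      exact hi1 ⟨j, lt_trans hj i.2⟩ hj
    · have := (Bool.lt_iff).1 hi2
      exact this
  · rintro ⟨i, hi, h1, h2⟩
    refine ⟨⟨i, hi⟩, ?_, ?_⟩
    · intro j hj
      exact h1 j hj
    · exact (Bool.lt_iff).2 h2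

theorem prio_eq (M : Tmpl q q') (B0 : ℕ) (I : Inst q) (bits : List Bool) (b : Bool)
    (k : Fin M.nK) (h h' : Fin (I.m * M.C)) :
    prio M I (I.m * M.C + B0) bits k (b, h) = prio M I (I.m * M.C + B0) bits k (b, h') ↔
      ∀ j < I.m * M.C + B0, bitN M B0 (I, bits) b k h j = bitN M B0 (I, bits) b k h' j := by
  constructor
  · intro e j hj
    exact congrFun (toLex.injective e) ⟨j, hj⟩
  · intro e
    exact congrArg toLex (funext fun j => e j j.2)

theorem rk_eq' (M : Tmpl q q') (B0 : ℕ) (I : Inst q) (bits : List Bool) (b : Bool)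
    (k : Fin M.nK) (h : Fin (I.m * M.C)) :
    rk (clN M I) (num M I) (prio M I (I.m * M.C + B0) bits k) (b, h) =
      rkN M B0 (I, bits) b k h := by
  unfold rk rkN
  refine card_side b _ (fun u => sameN M I b u h && beforeN M B0 (I, bits) b k u h) ?_ ?_
  · intro v hv
    exact clN_side M I hv.1
  · intro h'
    rw [Bool.and_eq_true, sameN_iff]
    refine and_congr Iff.rfl ?_
    unfold beforeN
    rw [Bool.or_eq_true, Bool.and_eq_true, decide_eq_true_eq, decide_eq_true_eq,
      decide_eq_true_eq]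
    exact (or_congr (prio_lt M B0 I bits b k h' h) (and_congr (prio_eq M B0 I bits b k h' h)
      (num_lt M I b h' h))).symm

end GNumAux

theorem gN_iff (M : Tmpl q q') (B0 : ℕ) (I : Inst q) (bits : List Bool) (b : Bool) (k : Fin M.nK)
    (h h' : Fin (I.m * M.C)) :
    ((routB M B0 I bits).g k (b, h)).2 = h' ↔ gN M B0 (I, bits) b k h h' = true := by
  have hg : (routB M B0 I bits).g k =
    rperm (clN M I) (num M I) (num_inj M I) (prio M I (I.m * M.C + B0) bits k) := rfl
  have h1 : ((routB M B0 I bits).g k (b, h)).1 = b := by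
    have := rperm_cl (clN M I) (num M I) (num_inj M I) (prio M I (I.m * M.C + B0) bits k) (b, h)
    rw [hg]
    exact clN_side M I this
  have h2 : ((routB M B0 I bits).g k (b, h)).2 = h' ↔
      (routB M B0 I bits).g k (b, h) = (b, h') := by
    constructor
    · intro e
      exact Prod.ext h1 e
    · intro e
      rw [e]
  rw [h2, hg, rperm_iff, nat_eq, rk_eq', ← sameN_iff]
  unfold gN
  rw [Bool.and_eq_true, decide_eq_true_eq]

end Pool.Agent.P325b
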