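import Mathlib
import Pool.Agent.Lib.P325b.GDef
import Pool.Agent.Lib.P325n.Out

/-!
# P325b.PolyG (1.5 h): the numerical description is computable in polynomial time

`count_poly`: the count is the length of `(List.range n).flatMap (fun u => if φ u then [true] else [])`
(`PolyC.flatMap_range`, `PolyC.ite`, `PolyN.length`).
`poly_sameN`: equality of ends: `∃ i < a, i = srcN e ∧ i = srcN e'` (`PolyB.exists_lt`, `poly_src` or
`poly_dst`; `b` is a constant: `cases b`); `ptN` of `h % C`: finite case distinctions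
(`OutAux.polyC_cases_lt` in `P325n/Out.lean`), `PolyN.div`, `PolyN.mod`.
`poly_bitN`: `PolyB.getD`. `poly_beforeN`: `PolyB.exists_lt`, `PolyB.forall_lt`, equality of two bits is
`not xor`. `poly_gN`: counts by `count_poly`, `PolyB.natEq`.
The bookkeeping of contexts under the binders (`up`, `upN`, `last` from `Pa7c826`) is exactly as in
`P325n/Out.lean` (landed).
-/

open Finset

namespace Pool.Agent.P325b

open Pool.Agent.P325n Pool.Agent.Lib.PolyTime

variable {q q' : ℕ} {α : Type*} {D : α → Prop} {ctx : List (α → List Bool)}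

/-- Counting. -/
theorem count_poly {n : α → ℕ} {φ : α × ℕ → Bool} (hn : PolyN D ctx n)
    (hφ : PolyB (fun p : α × ℕ => D p.1 ∧ p.2 < n p.1)
      (Pool.Agent.Lib.PolyTime.lift ctx ++ [fun p => un p.2]) φ) :
    PolyN D ctx (fun x => ((range (n x)).filter (fun u => φ (x, u) = true)).card) :=
  Pool.Agent.Lib.Pa7c826.PolyN.count hn hφ

namespace PolyGAux

open Pool.Agent.Lib.Pa7c826 (up upN last)

theorem polyB_iff {φ ψ : α → Bool} (hφ : PolyB D ctx φ) (hψ : PolyB D ctx ψ) :
    PolyB D ctx (fun x => decide (φ x = ψ x)) :=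
  (PolyB.ite hφ (PolyC.mono hψ fun _ h => h.1) (PolyC.mono hψ.not fun _ h => h.1)).congr
    (fun x _ => by cases φ x <;> cases ψ x <;> rfl)

theorem srcN_lt (I : Inst q) {e : ℕ} (he : e < I.m) : I.srcN e < I.a := by
  unfold Inst.srcN
  rw [dif_pos he]
  exact (I.game.src ⟨e, he⟩).2

theorem dstN_lt (I : Inst q) {e : ℕ} (he : e < I.m) : I.dstN e < I.b := by
  unfold Inst.dstN
  rw [dif_pos he]
  exact (I.game.dst ⟨e, he⟩).2

theorem poly_endEq {w : α → Inst q} (hw : PolyC D ctx (fun x => (w x).encode)) (b : Bool)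
    {e e' : α → ℕ} (he : PolyN D ctx e) (he' : PolyN D ctx e') (h1 : ∀ x, D x → e x < (w x).m)
    (h2 : ∀ x, D x → e' x < (w x).m) :
    PolyB D ctx (fun x => decide (endN (w x) b (e x) = endN (w x) b (e' x))) := by
  cases b with
  | false =>
    refine (PolyB.exists_lt (n := fun x => (w x).a)
      (φ := fun p => decide (p.2 = (w p.1).srcN (e p.1)) && decide (p.2 = (w p.1).srcN (e' p.1)))
      (poly_a hw) (PolyB.and
        (poly_src (w := fun p : α × ℕ => w p.1) (up (n := fun x => (w x).a) hw)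
          (upN (n := fun x => (w x).a) he) (last (n := fun x => (w x).a))
          (fun p hp => h1 _ hp.1) (fun p hp => hp.2))
        (poly_src (w := fun p : α × ℕ => w p.1) (up (n := fun x => (w x).a) hw)
          (upN (n := fun x => (w x).a) he') (last (n := fun x => (w x).a))
          (fun p hp => h2 _ hp.1) (fun p hp => hp.2)))).congr (fun x hx => ?_)
    rw [Bool.eq_iff_iff]
    simp only [Bool.and_eq_true, decide_eq_true_eq, endN, Bool.false_eq_true, if_false]
    constructor
    · rintro ⟨i, -, h3, h4⟩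
      rw [← h3, ← h4]
    · intro h
      exact ⟨_, srcN_lt _ (h1 x hx), rfl, h⟩
  | true =>
    refine (PolyB.exists_lt (n := fun x => (w x).b)
      (φ := fun p => decide (p.2 = (w p.1).dstN (e p.1)) && decide (p.2 = (w p.1).dstN (e' p.1)))
      (poly_b hw) (PolyB.and
        (poly_dst (w := fun p : α × ℕ => w p.1) (up (n := fun x => (w x).b) hw)
          (upN (n := fun x => (w x).b) he) (last (n := fun x => (w x).b))
          (fun p hp => h1 _ hp.1) (fun p hp => hp.2))
        (poly_dst (w := fun p : α × ℕ => w p.1) (up (n := fun x => (w x).b) hw)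
          (upN (n := fun x => (w x).b) he') (last (n := fun x => (w x).b))
          (fun p hp => h2 _ hp.1) (fun p hp => hp.2)))).congr (fun x hx => ?_)
    rw [Bool.eq_iff_iff]
    simp only [Bool.and_eq_true, decide_eq_true_eq, endN, if_true]
    constructor
    · rintro ⟨i, -, h3, h4⟩
      rw [← h3, ← h4]
    · intro h
      exact ⟨_, dstN_lt _ (h1 x hx), rfl, h⟩

theorem poly_ptEq (M : Tmpl q q') {c c' : α → ℕ} (hc : PolyN D ctx c) (hc' : PolyN D ctx c')
    (h1 : ∀ x, D x → c x < M.C) (h2 : ∀ x, D x → c' x < M.C) :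
    PolyB D ctx (fun x => decide (ptN M (c x) = ptN M (c' x))) :=
  OutAux.polyC_cases_lt (G := fun a x => [decide (ptN M a = ptN M (c' x))]) hc h1
    (fun a => OutAux.polyC_cases_lt (G := fun a' _ => [decide (ptN M a = ptN M a')]) hc' h2
      (fun _ => PolyC.const _))

theorem poly_bitN (M : Tmpl q q') (B0 : ℕ) {w : α → Inst q × List Bool}
    (hw1 : PolyC D ctx (fun x => (w x).1.encode)) (hw2 : PolyC D ctx (fun x => (w x).2))
    (b : Bool) {k h i : α → ℕ} (hk : PolyN D ctx k) (hh : PolyN D ctx h) (hi : PolyN D ctx i) :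
    PolyB D ctx (fun x => bitN M B0 (w x) b (k x) (h x) (i x)) := by
  have hm := (poly_m (w := fun x => (w x).1) hw1).mul (PolyN.const M.C)
  exact PolyB.getD hw2 (((((hk.mul ((PolyN.const 2).mul hm)).add
    (((PolyN.const (if b then 1 else 0)).mul hm).add hh)).mul
      (hm.add (PolyN.const B0))).add hi))

theorem poly_beforeN (M : Tmpl q q') (B0 : ℕ) {w : α → Inst q × List Bool}
    (hw1 : PolyC D ctx (fun x => (w x).1.encode)) (hw2 : PolyC D ctx (fun x => (w x).2))
    (b : Bool) {k h h' : α → ℕ} (hk : PolyN D ctx k) (hh : PolyN D ctx h)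
    (hh' : PolyN D ctx h') :
    PolyB D ctx (fun x => beforeN M B0 (w x) b (k x) (h x) (h' x)) := by
  have hm := (poly_m (w := fun x => (w x).1) hw1).mul (PolyN.const M.C)
  have hN : PolyN D ctx (fun x => (w x).1.m * M.C + B0) := hm.add (PolyN.const B0)
  have u1 := up (n := fun x => (w x).1.m * M.C + B0) hw1
  have u2 := up (n := fun x => (w x).1.m * M.C + B0) hw2
  have uk := upN (n := fun x => (w x).1.m * M.C + B0) hk
  have uh := upN (n := fun x => (w x).1.m * M.C + B0) hh
  have uh' := upN (n := fun x => (w x).1.m * M.C + B0) hh'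
  have ul := last (D := D) (ctx := ctx) (n := fun x => (w x).1.m * M.C + B0)
  have ull := last (D := fun p : α × ℕ => D p.1 ∧ p.2 < (w p.1).1.m * M.C + B0)
    (ctx := Pool.Agent.Lib.PolyTime.lift ctx ++ [fun p => un p.2]) (n := fun p : α × ℕ => p.2)
  unfold beforeN
  refine PolyB.or ?_ (PolyB.and ?_ (PolyB.lt hh hh'))
  · refine (PolyB.exists_lt (n := fun x => (w x).1.m * M.C + B0)
      (φ := fun p => decide (∀ j < p.2, decide (bitN M B0 (w p.1) b (k p.1) (h p.1) j =
          bitN M B0 (w p.1) b (k p.1) (h' p.1) j) = true) &&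
        (!(bitN M B0 (w p.1) b (k p.1) (h p.1) p.2) &&
          bitN M B0 (w p.1) b (k p.1) (h' p.1) p.2)) hN
      (PolyB.and ?_ (PolyB.and ?_ ?_))).congr (fun x _ => ?_)
    · refine PolyB.forall_lt (n := fun p : α × ℕ => p.2)
        (φ := fun r : (α × ℕ) × ℕ => decide (bitN M B0 (w r.1.1) b (k r.1.1) (h r.1.1) r.2 =
          bitN M B0 (w r.1.1) b (k r.1.1) (h' r.1.1) r.2)) ul (polyB_iff ?_ ?_)
      · exact poly_bitN (w := fun r : (α × ℕ) × ℕ => w r.1.1) M B0
          (up (n := fun p : α × ℕ => p.2) u1) (up (n := fun p : α × ℕ => p.2) u2) b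
          (upN (n := fun p : α × ℕ => p.2) uk) (upN (n := fun p : α × ℕ => p.2) uh)
          ull
      · exact poly_bitN (w := fun r : (α × ℕ) × ℕ => w r.1.1) M B0
          (up (n := fun p : α × ℕ => p.2) u1) (up (n := fun p : α × ℕ => p.2) u2) b
          (upN (n := fun p : α × ℕ => p.2) uk) (upN (n := fun p : α × ℕ => p.2) uh')
          ull
    · exact (poly_bitN (w := fun r : α × ℕ => w r.1) M B0 u1 u2 b uk uh ul).not
    · exact poly_bitN (w := fun r : α × ℕ => w r.1) M B0 u1 u2 b uk uh' ul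
    · rw [Bool.eq_iff_iff]
      simp only [decide_eq_true_eq, Bool.and_eq_true, Bool.not_eq_true']
  · refine (PolyB.forall_lt (n := fun x => (w x).1.m * M.C + B0)
      (φ := fun r : α × ℕ => decide (bitN M B0 (w r.1) b (k r.1) (h r.1) r.2 =
        bitN M B0 (w r.1) b (k r.1) (h' r.1) r.2)) hN (polyB_iff ?_ ?_)).congr (fun x _ => ?_)
    · exact poly_bitN (w := fun r : α × ℕ => w r.1) M B0 u1 u2 b uk uh ul
    · exact poly_bitN (w := fun r : α × ℕ => w r.1) M B0 u1 u2 b uk uh' ul
    · rw [Bool.eq_iff_iff]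
      simp only [decide_eq_true_eq]

end PolyGAux

open PolyGAux
open Pool.Agent.Lib.Pa7c826 (up upN last)

theorem poly_sameN (M : Tmpl q q') {w : α → Inst q} (hw : PolyC D ctx (fun x => (w x).encode))
    (b : Bool) {h h' : α → ℕ} (hh : PolyN D ctx h) (hh' : PolyN D ctx h')
    (h1 : ∀ x, D x → h x < (w x).m * M.C) (h2 : ∀ x, D x → h' x < (w x).m * M.C) :
    PolyB D ctx (fun x => sameN M (w x) b (h x) (h' x)) := by
  have hC := M.hC
  unfold sameN
  refine PolyB.and ?_ ?_
  · exact poly_endEq hw b (Pool.Agent.Lib.Pa7c826.PolyN.div hh (PolyN.const M.C) fun _ _ => hC)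
      (Pool.Agent.Lib.Pa7c826.PolyN.div hh' (PolyN.const M.C) fun _ _ => hC)
      (fun x hx => Nat.div_lt_of_lt_mul (by rw [mul_comm]; exact h1 x hx))
      (fun x hx => Nat.div_lt_of_lt_mul (by rw [mul_comm]; exact h2 x hx))
  · exact poly_ptEq M (Pool.Agent.Lib.Pa7c826.PolyN.mod hh (PolyN.const M.C) fun _ _ => hC)
      (Pool.Agent.Lib.Pa7c826.PolyN.mod hh' (PolyN.const M.C) fun _ _ => hC)
      (fun x _ => Nat.mod_lt _ hC) (fun x _ => Nat.mod_lt _ hC)

theorem poly_gN (M : Tmpl q q') (B0 : ℕ) {w : α → Inst q × List Bool}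
    (hw1 : PolyC D ctx (fun x => (w x).1.encode)) (hw2 : PolyC D ctx (fun x => (w x).2))
    (b : Bool) {k h h' : α → ℕ} (hk : PolyN D ctx k) (hh : PolyN D ctx h) (hh' : PolyN D ctx h')
    (h1 : ∀ x, D x → h x < (w x).1.m * M.C) (h2 : ∀ x, D x → h' x < (w x).1.m * M.C) :
    PolyB D ctx (fun x => gN M B0 (w x) b (k x) (h x) (h' x)) := by
  have hm : PolyN D ctx (fun x => (w x).1.m * M.C) :=
    (poly_m (w := fun x => (w x).1) hw1).mul (PolyN.const M.C)
  have u1 := up (n := fun x => (w x).1.m * M.C) hw1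
  have u2 := up (n := fun x => (w x).1.m * M.C) hw2
  have uk := upN (n := fun x => (w x).1.m * M.C) hk
  have uh := upN (n := fun x => (w x).1.m * M.C) hh
  have uh' := upN (n := fun x => (w x).1.m * M.C) hh'
  have ul := last (D := D) (ctx := ctx) (n := fun x => (w x).1.m * M.C)
  unfold gN
  refine PolyB.and (poly_sameN (w := fun x => (w x).1) M hw1 b hh' hh h2 h1) ?_
  refine PolyB.natEq ?_ ?_
  · exact count_poly (n := fun x => (w x).1.m * M.C)
      (φ := fun p => sameN M (w p.1).1 b p.2 (h' p.1) && decide (p.2 < h' p.1)) hm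
      (PolyB.and (poly_sameN (w := fun p : α × ℕ => (w p.1).1) M u1 b ul uh'
        (fun p hp => hp.2) (fun p hp => h2 _ hp.1)) (PolyB.lt ul uh'))
  · exact count_poly (n := fun x => (w x).1.m * M.C)
      (φ := fun p => sameN M (w p.1).1 b p.2 (h p.1) &&
        beforeN M B0 (w p.1) b (k p.1) p.2 (h p.1)) hm
      (PolyB.and (poly_sameN (w := fun p : α × ℕ => (w p.1).1) M u1 b ul uh
        (fun p hp => hp.2) (fun p hp => h1 _ hp.1))
        (poly_beforeN (w := fun p : α × ℕ => w p.1) M B0 u1 u2 b uk ul uh))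

end Pool.Agent.P325b
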