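import Mathlib
import Pool.Agent.Lib.P325b.GNum
import Pool.Agent.Lib.P325b.PolyG

/-!
# P325b.PolyCov (1.2 h): the randomised reduction is computable in polynomial time

Write `n = m * C` (number of slots). The edge number `E < n * nK` is the pair `(h, k) = (E / nK, E % nK)`,
the slot `h` is the pair `(e, c) = (h / C, h % C)`; `finProdFinEquiv (x, y) = y + n * x`.
Left block of the edge `E`: bit `i < n * nP` is
`decide (i % nP = M.s k) && gN M B0 (I, bits) false k h (i / nP)` (`OutAux.oneHot_eq` in `P325n/Out.lean`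
for the first factorisation, `gN_iff` for the second).
Right block: bit `i < n * nQ` is `decide (i % nQ = M.d k) && gN M B0 (I, bits) true k h2 (i / nQ)` with
`h2 = car k (perm (h / C)) (h % C) + C * (h / C)` (`carryN` in numbers: finitely many cases of `k`, `permN`,
`h % C`: `OutAux.polyC_cases`, `OutAux.polyC_cases_lt`, `poly_perm`). The permutation matrix depends on
`k = E % nK` only (`polyC_cases_lt`). `P325n/Out.lean` (landed) is the pattern for the whole file.
-/

open Finset

namespace Pool.Agent.P325b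

open Pool.Agent.CovT Pool.Agent.P325n Pool.Agent.Lib.PolyTime

variable {q q' : ℕ}

open Pool.Agent.Lib.Pa7c826 (up upN last)
open Pool.Agent.P325n.OutAux (polyC_cases polyC_cases_lt flatMap_finRange oneHot_eq)

namespace PolyCovAux

/-- left types as natural numbers -/
def sN (M : Tmpl q q') (k : ℕ) : ℕ := if h : k < M.nK then (M.s ⟨k, h⟩ : ℕ) else 0

/-- right types as natural numbers -/
def dN (M : Tmpl q q') (k : ℕ) : ℕ := if h : k < M.nK then (M.d ⟨k, h⟩ : ℕ) else 0

/-- the matrix of the constraint -/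
def matN (M : Tmpl q q') (k : ℕ) : List Bool :=
  if h : k < M.nK then (List.finRange q').flatMap (fun i => oneHot q' (M.σ ⟨k, h⟩ i)) else []

/-- carrying a copy, as natural numbers -/
def carC (M : Tmpl q q') (k : ℕ) (π : Equiv.Perm (Fin q)) (c : ℕ) : ℕ :=
  if hk : k < M.nK then if hc : c < M.C then (M.car ⟨k, hk⟩ π ⟨c, hc⟩ : ℕ) else 0 else 0

/-- carrying a slot, as natural numbers -/
def h2N (M : Tmpl q q') (I : Inst q) (k h : ℕ) : ℕ :=
  carC M k (I.permN (h / M.C)) (h % M.C) + M.C * (h / M.C)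

theorem h2N_eq (M : Tmpl q q') (I : Inst q) (k : Fin M.nK) (h : Fin (I.m * M.C)) :
    h2N M I k h = (carryN M I k h : ℕ) := by
  have hC := M.hC
  have h1 : (h : ℕ) / M.C < I.m := (Nat.div_lt_iff_lt_mul hC).2 h.2
  have h2 : (h : ℕ) % M.C < M.C := Nat.mod_lt _ hC
  have e1 : (finProdFinEquiv.symm h).1 = ⟨(h : ℕ) / M.C, h1⟩ := rfl
  have e2 : (finProdFinEquiv.symm h).2 = ⟨(h : ℕ) % M.C, h2⟩ := rfl
  have k3 : I.permN ((h : ℕ) / M.C) = I.game.perm ⟨(h : ℕ) / M.C, h1⟩ := by
    simp [Inst.permN, h1]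
  unfold h2N carryN carC
  rw [k3, dif_pos k.2, dif_pos h2, e1, e2]
  rfl

theorem h2N_lt (M : Tmpl q q') (I : Inst q) {k h : ℕ} (hk : k < M.nK) (hh : h < I.m * M.C) :
    h2N M I k h < I.m * M.C := by
  have := h2N_eq M I ⟨k, hk⟩ ⟨h, hh⟩
  simp only at this
  rw [this]
  exact (carryN M I ⟨k, hk⟩ ⟨h, hh⟩).2

/-- the block of an edge -/
def blk (M : Tmpl q q') (B0 : ℕ) (x : Inst q × List Bool) (E : ℕ) : List Bool :=
  (List.range (x.1.m * M.C * M.nP)).map
      (fun i => gN M B0 x false (E % M.nK) (E / M.nK) (i / M.nP) &&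
        decide (i % M.nP = sN M (E % M.nK))) ++
    ((List.range (x.1.m * M.C * M.nQ)).map
      (fun i => gN M B0 x true (E % M.nK) (h2N M x.1 (E % M.nK) (E / M.nK)) (i / M.nQ) &&
        decide (i % M.nQ = dN M (E % M.nK))) ++ matN M (E % M.nK))

theorem gdec (M : Tmpl q q') (B0 : ℕ) (I : Inst q) (bits : List Bool) (b : Bool) (k : Fin M.nK)
    (h : Fin (I.m * M.C)) {i : ℕ} (hi : i < I.m * M.C) :
    decide (i = (((routB M B0 I bits).g k (b, h)).2 : ℕ)) = gN M B0 (I, bits) b k h i := by
  rw [Bool.eq_iff_iff, decide_eq_true_eq]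
  have h1 := gN_iff M B0 I bits b k h ⟨i, hi⟩
  simp only at h1
  rw [← h1]
  constructor
  · intro e
    apply Fin.ext
    exact e.symm
  · intro e
    rw [e]

theorem encode_cov (M : Tmpl q q') (B0 : ℕ) (x : Inst q × List Bool) :
    (covBits M B0 x).encode = un (x.1.m * M.C * M.nP) ++ (false :: (un (x.1.m * M.C * M.nQ) ++
      (false :: (un (x.1.m * M.C * M.nK) ++ (false ::
        (List.range (x.1.m * M.C * M.nK)).flatMap (blk M B0 x)))))) := by
  obtain ⟨I, bits⟩ := x
  unfold Inst.encode un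
  congr 6
  refine flatMap_finRange (n := I.m * M.C * M.nK) _ _ fun e => ?_
  have hK := M.hK
  have he : (e : ℕ) < I.m * M.C * M.nK := e.2
  have h1 : (e : ℕ) / M.nK < I.m * M.C := (Nat.div_lt_iff_lt_mul hK).2 he
  have h2 : (e : ℕ) % M.nK < M.nK := Nat.mod_lt _ hK
  have k4 : sN M ((e : ℕ) % M.nK) = M.s ⟨(e : ℕ) % M.nK, h2⟩ := by
    simp [sN, h2]
  have k5 : dN M ((e : ℕ) % M.nK) = M.d ⟨(e : ℕ) % M.nK, h2⟩ := by
    simp [dN, h2]
  have k6 : matN M ((e : ℕ) % M.nK) =
      (List.finRange q').flatMap (fun i => oneHot q' (M.σ ⟨(e : ℕ) % M.nK, h2⟩ i)) := by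
    simp [matN, h2]
  have k7 := h2N_eq M I ⟨(e : ℕ) % M.nK, h2⟩ ⟨(e : ℕ) / M.nK, h1⟩
  simp only at k7
  have hL : ∀ (b : Bool) (h : Fin (I.m * M.C)) (A s : ℕ), s < A →
      (List.range (I.m * M.C * A)).map
        (fun i => gN M B0 (I, bits) b ((e : ℕ) % M.nK) h (i / A) && decide (i % A = s)) =
      oneHot (I.m * M.C * A)
        (s + A * (((routB M B0 I bits).g ⟨(e : ℕ) % M.nK, h2⟩ (b, h)).2 : ℕ)) := by
    intro b h A s hs
    rw [oneHot_eq hs]
    refine List.map_congr_left fun i hi => ?_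
    rw [List.mem_range] at hi
    have hi' : i / A < I.m * M.C := Nat.div_lt_of_lt_mul (by rw [mul_comm]; exact hi)
    rw [gdec M B0 I bits b ⟨(e : ℕ) % M.nK, h2⟩ h hi']
  unfold blk
  simp only
  rw [k7, hL false ⟨(e : ℕ) / M.nK, h1⟩ M.nP _ (by rw [k4]; exact (M.s _).2),
    hL true (carryN M I ⟨(e : ℕ) % M.nK, h2⟩ ⟨(e : ℕ) / M.nK, h1⟩) M.nQ _
      (by rw [k5]; exact (M.d _).2), k4, k5, k6]
  rfl

theorem poly_h2 (M : Tmpl q q') {α : Type*} {D : α → Prop} {ctx : List (α → List Bool)}
    {w : α → Inst q} (hw : PolyC D ctx (fun x => (w x).encode)) {k h : α → ℕ}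
    (hk : PolyN D ctx k) (hh : PolyN D ctx h) (h0 : ∀ x, D x → k x < M.nK)
    (h1 : ∀ x, D x → h x < (w x).m * M.C) :
    PolyN D ctx (fun x => h2N M (w x) (k x) (h x)) := by
  have hC := M.hC
  have he := Pool.Agent.Lib.Pa7c826.PolyN.div hh (PolyN.const M.C) (fun _ _ => hC)
  have hc := Pool.Agent.Lib.Pa7c826.PolyN.mod hh (PolyN.const M.C) (fun _ _ => hC)
  have hcar : PolyN D ctx (fun x => carC M (k x) ((w x).permN (h x / M.C)) (h x % M.C)) := by
    refine polyC_cases_lt (G := fun k x => un (carC M k ((w x).permN (h x / M.C)) (h x % M.C)))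
      hk h0 (fun k0 => ?_)
    refine polyC_cases_lt (G := fun c x => un (carC M k0 ((w x).permN (h x / M.C)) c))
      hc (fun x _ => Nat.mod_lt _ hC) (fun c0 => ?_)
    exact polyC_cases (Finset.univ : Finset (Equiv.Perm (Fin q))).toList
      (f := fun x => (w x).permN (h x / M.C)) (G := fun π _ => un (carC M k0 π c0))
      (fun π => poly_perm (w := w) hw he
        (fun x hx => (Nat.div_lt_iff_lt_mul hC).2 (h1 x hx)) π)
      (fun x _ => by simp) (fun π => PolyN.const _)
  exact hcar.add ((PolyN.const M.C).mul he)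

end PolyCovAux

open PolyCovAux

theorem poly_covBits (M : Tmpl q q') (B0 : ℕ) :
    PolyC (fun _ : Inst q × List Bool => True) [fun x => x.1.encode, fun x => x.2]
      (fun x => (covBits M B0 x).encode) := by
  have hK := M.hK
  have hw : PolyC (fun _ : Inst q × List Bool => True) [fun x => x.1.encode, fun x => x.2]
      (fun x => x.1.encode) := PolyC.var (by simp)
  have hb : PolyC (fun _ : Inst q × List Bool => True) [fun x => x.1.encode, fun x => x.2]
      (fun x => x.2) := PolyC.var (by simp)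
  have hm := poly_m (w := fun x : Inst q × List Bool => x.1) hw
  have hn := hm.mul (PolyN.const M.C)
  have hnP := hn.mul (PolyN.const M.nP)
  have hnQ := hn.mul (PolyN.const M.nQ)
  have hnK := hn.mul (PolyN.const M.nK)
  -- level 1: the edge number
  have hw1 := up (n := fun x : Inst q × List Bool => x.1.m * M.C * M.nK) hw
  have hb1 := up (n := fun x : Inst q × List Bool => x.1.m * M.C * M.nK) hb
  have hE := last (D := fun _ : Inst q × List Bool => True)
    (ctx := [fun x => x.1.encode, fun x => x.2])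
    (n := fun x : Inst q × List Bool => x.1.m * M.C * M.nK)
  have hk := Pool.Agent.Lib.Pa7c826.PolyN.mod hE (PolyN.const M.nK) (fun _ _ => hK)
  have hh := Pool.Agent.Lib.Pa7c826.PolyN.div hE (PolyN.const M.nK) (fun _ _ => hK)
  have hnP1 := upN (n := fun x : Inst q × List Bool => x.1.m * M.C * M.nK) hnP
  have hnQ1 := upN (n := fun x : Inst q × List Bool => x.1.m * M.C * M.nK) hnQ
  have hh2 := poly_h2 M (w := fun p : (Inst q × List Bool) × ℕ => p.1.1) hw1 hk hh
    (fun _ _ => Nat.mod_lt _ hK) (fun p hp => (Nat.div_lt_iff_lt_mul hK).2 hp.2)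
  have hblk : PolyC (fun p : (Inst q × List Bool) × ℕ => True ∧ p.2 < p.1.1.m * M.C * M.nK)
      (Pool.Agent.Lib.PolyTime.lift [fun x : Inst q × List Bool => x.1.encode, fun x => x.2] ++
        [fun p => un p.2]) (fun p => blk M B0 p.1 p.2) := by
    refine PolyC.append ?_ (PolyC.append ?_ ?_)
    · -- left end
      refine PolyC.map_range (n := fun p : (Inst q × List Bool) × ℕ => p.1.1.m * M.C * M.nP)
        (φ := fun r => gN M B0 r.1.1 false (r.1.2 % M.nK) (r.1.2 / M.nK) (r.2 / M.nP) &&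
          decide (r.2 % M.nP = sN M (r.1.2 % M.nK))) hnP1 ?_
      have hw2 := up (n := fun p : (Inst q × List Bool) × ℕ => p.1.1.m * M.C * M.nP) hw1
      have hb2 := up (n := fun p : (Inst q × List Bool) × ℕ => p.1.1.m * M.C * M.nP) hb1
      have hk2 := upN (n := fun p : (Inst q × List Bool) × ℕ => p.1.1.m * M.C * M.nP) hk
      have hhh := upN (n := fun p : (Inst q × List Bool) × ℕ => p.1.1.m * M.C * M.nP) hh
      have hi := last (D := fun p : (Inst q × List Bool) × ℕ =>
          True ∧ p.2 < p.1.1.m * M.C * M.nK)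
        (ctx := Pool.Agent.Lib.PolyTime.lift
          [fun x : Inst q × List Bool => x.1.encode, fun x => x.2] ++ [fun p => un p.2])
        (n := fun p : (Inst q × List Bool) × ℕ => p.1.1.m * M.C * M.nP)
      have hA : ∀ r : ((Inst q × List Bool) × ℕ) × ℕ,
          ((True ∧ r.1.2 < r.1.1.1.m * M.C * M.nK) ∧ r.2 < r.1.1.1.m * M.C * M.nP) →
            0 < M.nP := by
        intro r hr
        rcases Nat.eq_zero_or_pos M.nP with h | h
        · rw [h, mul_zero] at hr
          omega
        · exact h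
      have hid := Pool.Agent.Lib.Pa7c826.PolyN.div hi (PolyN.const M.nP) hA
      have him := Pool.Agent.Lib.Pa7c826.PolyN.mod hi (PolyN.const M.nP) hA
      refine PolyB.and ?_ ?_
      · exact poly_gN M B0 (w := fun r : ((Inst q × List Bool) × ℕ) × ℕ => r.1.1) hw2 hb2 false
          hk2 hhh hid (fun r hr => (Nat.div_lt_iff_lt_mul hK).2 hr.1.2)
          (fun r hr => Nat.div_lt_of_lt_mul (by rw [mul_comm]; exact hr.2))
      · exact polyC_cases_lt (G := fun c r => [decide (r.2 % M.nP = sN M c)]) hk2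
          (fun r _ => Nat.mod_lt _ hK) (fun b => PolyB.natEq him (PolyN.const _))
    · -- right end
      refine PolyC.map_range (n := fun p : (Inst q × List Bool) × ℕ => p.1.1.m * M.C * M.nQ)
        (φ := fun r => gN M B0 r.1.1 true (r.1.2 % M.nK)
          (h2N M r.1.1.1 (r.1.2 % M.nK) (r.1.2 / M.nK)) (r.2 / M.nQ) &&
          decide (r.2 % M.nQ = dN M (r.1.2 % M.nK))) hnQ1 ?_
      have hw2 := up (n := fun p : (Inst q × List Bool) × ℕ => p.1.1.m * M.C * M.nQ) hw1
      have hb2 := up (n := fun p : (Inst q × List Bool) × ℕ => p.1.1.m * M.C * M.nQ) hb1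
      have hk2 := upN (n := fun p : (Inst q × List Bool) × ℕ => p.1.1.m * M.C * M.nQ) hk
      have hhh := upN (n := fun p : (Inst q × List Bool) × ℕ => p.1.1.m * M.C * M.nQ) hh2
      have hi := last (D := fun p : (Inst q × List Bool) × ℕ =>
          True ∧ p.2 < p.1.1.m * M.C * M.nK)
        (ctx := Pool.Agent.Lib.PolyTime.lift
          [fun x : Inst q × List Bool => x.1.encode, fun x => x.2] ++ [fun p => un p.2])
        (n := fun p : (Inst q × List Bool) × ℕ => p.1.1.m * M.C * M.nQ)
      have hA : ∀ r : ((Inst q × List Bool) × ℕ) × ℕ,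
          ((True ∧ r.1.2 < r.1.1.1.m * M.C * M.nK) ∧ r.2 < r.1.1.1.m * M.C * M.nQ) →
            0 < M.nQ := by
        intro r hr
        rcases Nat.eq_zero_or_pos M.nQ with h | h
        · rw [h, mul_zero] at hr
          omega
        · exact h
      have hid := Pool.Agent.Lib.Pa7c826.PolyN.div hi (PolyN.const M.nQ) hA
      have him := Pool.Agent.Lib.Pa7c826.PolyN.mod hi (PolyN.const M.nQ) hA
      refine PolyB.and ?_ ?_
      · exact poly_gN M B0 (w := fun r : ((Inst q × List Bool) × ℕ) × ℕ => r.1.1) hw2 hb2 true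
          hk2 hhh hid
          (fun r hr => h2N_lt M _ (Nat.mod_lt _ hK) ((Nat.div_lt_iff_lt_mul hK).2 hr.1.2))
          (fun r hr => Nat.div_lt_of_lt_mul (by rw [mul_comm]; exact hr.2))
      · exact polyC_cases_lt (G := fun c r => [decide (r.2 % M.nQ = dN M c)]) hk2
          (fun r _ => Nat.mod_lt _ hK) (fun b => PolyB.natEq him (PolyN.const _))
    · exact polyC_cases_lt (G := fun c _ => matN M c) hk (fun r _ => Nat.mod_lt _ hK)
        (fun b => PolyC.const _)
  refine ((PolyC.append hnP (PolyC.cons false (PolyC.append hnQ (PolyC.cons false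
    (PolyC.append hnK (PolyC.cons false (PolyC.flatMap_range hnK hblk))))))).congr
      (fun x _ => ?_))
  rw [encode_cov]

theorem poly_bitLen (M : Tmpl q q') (B0 : ℕ) :
    PolyN (fun _ : Inst q => True) [Inst.encode] (bitLen M B0) := by
  have hw : PolyC (fun _ : Inst q => True) [Inst.encode] (fun I => I.encode) :=
    PolyC.var (by simp)
  have hm := poly_m (w := fun I : Inst q => I) hw
  have hn := hm.mul (PolyN.const M.C)
  exact ((PolyN.const M.nK).mul ((PolyN.const 2).mul hn)).mul (hn.add (PolyN.const B0))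

end Pool.Agent.P325b
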