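import Mathlib
import Pool.Agent.Lib.P325b.Tmpl
import Pool.Agent.Lib.P325b.Defs

/-!
# P325b.Props (1 h): the cover game has bounded degree and the right types

Types: the left vertex number `v` has type `tP (finProdFinEquiv.symm v).2`, the right vertex `tQ` of the
second component, the edge number `e` has type `ty (finProdFinEquiv.symm e).2`.
Frequencies: the edges of type `l` are the pairs `(h, k)` with `ty k = l`, there are `(m C) * w l` of them
(`hw`), `∑ w = nK` (sum `hw` over `l`).
Degrees: let `v = (h, p)` and `T.src l = tP p`. The edges of type `l` at `v` are the `(h0, k)` with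
`ty k = l`, `M.s k = p` and `(r.g k (false, h0)).2 = h`. Every `k` with `ty k = l` satisfies `M.s k = p`
(`tP (M.s k) = T.src l = tP p`, `tP` injective), and for every `k` there is exactly one `h0`
(`half_inj`, `half_eq` in `CovT/Defs.lean`: the routing keeps the side since the clouds know it;
an injective self-map of a finite type is bijective). So there are `w l` of them. On the right side the
same with `carryN M I k`, which is a bijection (`M.car` is a permutation).
See `cover_left`, `cover_right` in `CovT/EndsT.lean` for the same statement for the unnumbered game.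
-/

open Finset

namespace Pool.Agent.P325b

open Pool.Agent.CovT Pool.Agent.P325n Pool.Agent.P325t

namespace PropsAux

theorem clN_side {q q' : ℕ} (M : Tmpl q q') (I : Inst q) (v v' : Half M I)
    (h : clN M I v = clN M I v') : v.1 = v'.1 := by
  have h1 := congrArg Prod.fst h
  obtain ⟨b, v⟩ := v
  obtain ⟨b', v'⟩ := v'
  cases b <;> cases b' <;> simp_all [clN]

theorem carryN_inj {q q' : ℕ} (M : Tmpl q q') (I : Inst q) (k : Fin M.nK) :
    Function.Injective (carryN M I k) := by
  intro h h' hh
  unfold carryN at hh
  have h1 := finProdFinEquiv.injective hh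
  have h2 := (Prod.ext_iff.1 h1).1
  have h3 := (Prod.ext_iff.1 h1).2
  simp only at h2 h3
  rw [h2] at h3
  have h4 := (M.car k (I.game.perm (finProdFinEquiv.symm h').1)).injective h3
  exact finProdFinEquiv.symm.injective (Prod.ext h2 h4)

theorem count_lem {N K X : ℕ} {κ : Type} [DecidableEq κ] (f : Fin K → Fin N → Fin N)
    (hf : ∀ k, Function.Injective (f k)) (s : Fin K → Fin X) (ty : Fin K → κ) (l : κ)
    (v : Fin (N * X)) (hv : ∀ k, ty k = l → s k = (finProdFinEquiv.symm v).2)
    (hdec : DecidablePred fun e : Fin (N * K) =>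
      finProdFinEquiv (f (finProdFinEquiv.symm e).2 (finProdFinEquiv.symm e).1,
        s (finProdFinEquiv.symm e).2) = v ∧ ty (finProdFinEquiv.symm e).2 = l) :
    (@Finset.filter _ (fun e : Fin (N * K) =>
      finProdFinEquiv (f (finProdFinEquiv.symm e).2 (finProdFinEquiv.symm e).1,
        s (finProdFinEquiv.symm e).2) = v ∧ ty (finProdFinEquiv.symm e).2 = l) hdec univ).card =
      (univ.filter (fun k => ty k = l)).card := by
  refine Finset.card_bij (fun e _ => (finProdFinEquiv.symm e).2) ?_ ?_ ?_
  · intro e he
    exact mem_filter.2 ⟨mem_univ _, (mem_filter.1 he).2.2⟩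
  · intro e he e' he' hh
    have h1 := (mem_filter.1 he).2.1
    have h2 := (mem_filter.1 he').2.1
    have h3 := finProdFinEquiv.injective (h1.trans h2.symm)
    have h4 := congrArg Prod.fst h3
    simp only at h4 hh
    rw [hh] at h4
    exact finProdFinEquiv.symm.injective (Prod.ext (hf _ h4) hh)
  · intro k hk
    have hk' := (mem_filter.1 hk).2
    obtain ⟨h, hh⟩ := (Finite.injective_iff_surjective.1 (hf k)) (finProdFinEquiv.symm v).1
    refine ⟨finProdFinEquiv (h, k), mem_filter.2 ⟨mem_univ _, ?_, ?_⟩, ?_⟩
    · rw [Equiv.symm_apply_apply]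
      simp only
      rw [hh, hv k hk', Prod.mk.eta, Equiv.apply_symm_apply]
    · rw [Equiv.symm_apply_apply]
      exact hk'
    · rw [Equiv.symm_apply_apply]

theorem count_ty {N K : ℕ} {κ : Type} [DecidableEq κ] (ty : Fin K → κ) (l : κ)
    (hdec : DecidablePred fun e : Fin (N * K) => ty (finProdFinEquiv.symm e).2 = l) :
    (@Finset.filter _ (fun e : Fin (N * K) => ty (finProdFinEquiv.symm e).2 = l) hdec univ).card =
      N * (univ.filter (fun k => ty k = l)).card := by
  have h1 : (@Finset.filter _ (fun e : Fin (N * K) => ty (finProdFinEquiv.symm e).2 = l) hdec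
      univ).card =
      (univ ×ˢ (univ.filter (fun k => ty k = l)) : Finset (Fin N × Fin K)).card := by
    refine Finset.card_bij (fun e _ => finProdFinEquiv.symm e) ?_ ?_ ?_
    · intro e he
      exact mem_product.2 ⟨mem_univ _, mem_filter.2 ⟨mem_univ _, (mem_filter.1 he).2⟩⟩
    · intro e _ e' _ hh
      exact finProdFinEquiv.symm.injective hh
    · intro p hp
      refine ⟨finProdFinEquiv p, mem_filter.2 ⟨mem_univ _, ?_⟩, Equiv.symm_apply_apply _ _⟩
      rw [Equiv.symm_apply_apply]
      exact (mem_filter.1 (mem_product.1 hp).2).2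
  rw [h1, card_product, card_univ, Fintype.card_fin]

end PropsAux

open PropsAux

theorem cov_bounded {P Q κ : Type} [Fintype κ] [DecidableEq κ] (T : TypeGraph P Q κ) (w : κ → ℕ)
    {q q' : ℕ} (M : Tmpl q q') (τ : κ → Equiv.Perm (Fin q')) (tP : Fin M.nP → P) (tQ : Fin M.nQ → Q)
    (ty : Fin M.nK → κ) (hP : Function.Injective tP) (hQ : Function.Injective tQ)
    (hs : ∀ k, tP (M.s k) = T.src (ty k)) (hd : ∀ k, tQ (M.d k) = T.dst (ty k))
    (hσ : ∀ k, M.σ k = τ (ty k)) (hw : ∀ l, (univ.filter (fun k => ty k = l)).card = w l)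
    (I : Inst q) (r : Rout (Fin M.nK) (Half M I) _ (clN M I)) :
    cov M I r ∈ BoundedInst T w τ := by
  unfold BoundedInst
  rw [Set.mem_ofPred_eq]
  refine ⟨fun v => tP (finProdFinEquiv.symm v).2, fun v => tQ (finProdFinEquiv.symm v).2,
    fun e => ty (finProdFinEquiv.symm e).2, ?_, ?_, ?_, ?_⟩
  · intro e
    refine ⟨?_, ?_, ?_⟩
    · show tP (finProdFinEquiv.symm (finProdFinEquiv (_, M.s (finProdFinEquiv.symm e).2))).2 = _
      rw [Equiv.symm_apply_apply]
      exact hs _
    · show tQ (finProdFinEquiv.symm (finProdFinEquiv (_, M.d (finProdFinEquiv.symm e).2))).2 = _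
      rw [Equiv.symm_apply_apply]
      exact hd _
    · exact hσ _
  · intro k
    have h1 : ∑ l, w l = M.nK := by
      have h2 := Finset.card_eq_sum_card_fiberwise (f := ty) (s := (univ : Finset (Fin M.nK)))
        (t := (univ : Finset κ)) (fun _ _ => mem_coe.2 (mem_univ _))
      rw [card_univ, Fintype.card_fin] at h2
      rw [h2]
      exact Finset.sum_congr rfl fun l _ => (hw l).symm
    have h3 := count_ty (N := I.m * M.C) ty k (fun _ => Classical.propDecidable _)
    rw [hw k] at h3
    rw [h1]
    calc _ = (I.m * M.C * w k) * M.nK := congrArg (· * M.nK) h3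
      _ = w k * (I.m * M.C * M.nK) := by ring
      _ = w k * (cov M I r).m := rfl
  · intro v l hv
    exact (count_lem (N := I.m * M.C) (fun k h => half r k false h)
      (fun k => half_inj (clN_side M I) r k false) M.s ty l v
      (fun k hk => hP (by rw [hs, hk]; exact hv)) _).trans (hw l)
  · intro v l hv
    exact (count_lem (N := I.m * M.C) (fun k h => half r k true (carryN M I k h))
      (fun k => (half_inj (clN_side M I) r k true).comp (carryN_inj M I k)) M.d ty l v
      (fun k hk => hQ (by rw [hd, hk]; exact hv)) _).trans (hw l)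

end Pool.Agent.P325b
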