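import Mathlib
import Pool.Agent.Lib.P325n.Defs
import Pool.Agent.Lib.Pa7c826.Transfer

/-!
# P325b.PairCode (0.8 h): reading a coded pair of strings in polynomial time

`pairCode (x, y) = x.flatMap (fun b => [true, b]) ++ (false :: y)`. The length of `x` is the first `i`
such that the bit `2 i` of the code is `false`: `(pairCode p).getD (2 i) false = true` iff `i < x.length`
for `i ≤ x.length`. So `x.length` is the number of `i < (pairCode p).length` with all bits `2 j`, `j ≤ i`,
equal to `true` (length of a `PolyC.flatMap_range` of `if ... then [true] else []`, `PolyB.forall_lt`), or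
use any other way (`PolyC.natRec`). Then `x = (List.range x.length).map (fun i => code.getD (2 i + 1) false)`
(`PolyC.map_range`, `PolyB.getD`) and `y = code.drop (2 x.length + 1)` (`PolyC.drop`).
`poly_pair`: `pairCode (t x, u x)` is computable from `t`, `u` (flatMap over the bits of `t`).
-/

namespace Pool.Agent.P325b

open Pool.Agent.Lib Pool.Agent.Lib.PolyTime Pool.Agent.Lib.Pa7c826 Pool.Agent.P325n

namespace PairCodeAux

theorem code_nil (y : List Bool) : pairCode ([], y) = false :: y := rfl

theorem code_cons (b : Bool) (x y : List Bool) :
    pairCode (b :: x, y) = true :: b :: pairCode (x, y) := rfl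

theorem code_length (x y : List Bool) :
    (pairCode (x, y)).length = 2 * x.length + 1 + y.length := by
  induction x with
  | nil => simp [code_nil]; omega
  | cons b x ih => rw [code_cons]; simp only [List.length_cons, ih]; omega

theorem getD_even (y : List Bool) : ∀ (x : List Bool) (i : ℕ), i < x.length →
    (pairCode (x, y)).getD (i + i) false = true
  | [], i, h => by simp at h
  | b :: x, 0, _ => by rw [code_cons]; rfl
  | b :: x, i + 1, h => by
      have ih := getD_even y x i (by simpa using h)
      have h1 : i + 1 + (i + 1) = (i + i) + 1 + 1 := by omega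
      rw [code_cons, h1, List.getD_cons_succ, List.getD_cons_succ, ih]

theorem getD_odd (y : List Bool) : ∀ (x : List Bool) (i : ℕ), i < x.length →
    (pairCode (x, y)).getD (i + i + 1) false = x.getD i false
  | [], i, h => by simp at h
  | b :: x, 0, _ => by rw [code_cons]; rfl
  | b :: x, i + 1, h => by
      have ih := getD_odd y x i (by simpa using h)
      have h1 : i + 1 + (i + 1) + 1 = (i + i + 1) + 1 + 1 := by omega
      rw [code_cons, h1, List.getD_cons_succ, List.getD_cons_succ, ih, List.getD_cons_succ]

theorem getD_end (y : List Bool) : ∀ (x : List Bool),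
    (pairCode (x, y)).getD (x.length + x.length) false = false
  | [] => rfl
  | b :: x => by
      have ih := getD_end y x
      have h1 : (b :: x).length + (b :: x).length = (x.length + x.length) + 1 + 1 := by
        simp only [List.length_cons]; omega
      rw [code_cons, h1, List.getD_cons_succ, List.getD_cons_succ, ih]

theorem drop_end (y : List Bool) : ∀ (x : List Bool),
    (pairCode (x, y)).drop (x.length + x.length + 1) = y
  | [] => rfl
  | b :: x => by
      have ih := drop_end y x
      have h1 : (b :: x).length + (b :: x).length + 1 = (x.length + x.length + 1) + 1 + 1 := by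
        simp only [List.length_cons]; omega
      rw [code_cons, h1, List.drop_succ_cons, List.drop_succ_cons, ih]

theorem forall_iff (x y : List Bool) (i : ℕ) :
    (∀ j < i + 1, (pairCode (x, y)).getD (j + j) false = true) ↔ i < x.length := by
  constructor
  · intro h
    by_contra hcon
    have h1 := h x.length (by omega)
    rw [getD_end] at h1
    exact Bool.noConfusion h1
  · intro h j hj
    exact getD_even y x j (by omega)

theorem flatMap_ite (m : ℕ) : ∀ n : ℕ, m ≤ n →
    (List.range n).flatMap (fun i => if decide (i < m) then [true] else []) = un m := by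
  intro n
  induction n with
  | zero => intro h; have : m = 0 := by omega
            subst this; rfl
  | succ n ih =>
    intro h
    rw [List.range_succ, List.flatMap_append]
    rcases Nat.lt_or_ge n m with h1 | h1
    · have h2 : m = n + 1 := by omega
      subst h2
      have h3 : (List.range n).flatMap (fun i => if decide (i < n + 1) then [true] else []) = un n := by
        have h4 : ∀ i ∈ List.range n, (if decide (i < n + 1) then [true] else []) =
            [(fun _ : ℕ => true) i] := by
          intro i hi
          have : i < n + 1 := by have := List.mem_range.1 hi; omega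
          simp [this]
        rw [List.flatMap_congr h4]
        have h5 : ∀ l : List ℕ, l.flatMap (fun x => [(fun _ : ℕ => true) x]) =
            List.replicate l.length true := by
          intro l
          induction l with
          | nil => rfl
          | cons a l ih => rw [List.flatMap_cons, ih]; rfl
        rw [h5, List.length_range]
        rfl
      rw [h3, un_add]
      simp
      rfl
    · rw [ih h1]
      simp [Nat.not_lt.2 h1]

theorem map_range_getD (x : List Bool) :
    (List.range x.length).map (fun i => x.getD i false) = x := by
  apply List.ext_getElem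
  · simp
  · intro i h1 h2
    rw [List.getElem_map, List.getElem_range]
    exact List.getD_eq_getElem _ _ h2

end PairCodeAux

variable {α : Type*} {D : α → Prop} {ctx : List (α → List Bool)}

open PairCodeAux

theorem poly_fst_length {w : α → List Bool × List Bool}
    (hw : PolyC D ctx (fun x => pairCode (w x))) : PolyN D ctx (fun x => (w x).1.length) := by
  have hn : PolyN D ctx (fun x => (pairCode (w x)).length) := PolyN.length hw
  have h1 : PolyB (fun p : α × ℕ => D p.1 ∧ p.2 < (pairCode (w p.1)).length)
      (PolyTime.lift ctx ++ [fun p => un p.2])
      (fun p => decide (p.2 < (w p.1).1.length)) := by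
    have hc1 : PolyC (fun p : α × ℕ => D p.1 ∧ p.2 < (pairCode (w p.1)).length)
        (PolyTime.lift ctx ++ [fun p => un p.2]) (fun p => pairCode (w p.1)) :=
      (PolyC.lift hw (fun p hp => hp.1)).weakenRight _
    have hi : PolyN (fun p : α × ℕ => D p.1 ∧ p.2 < (pairCode (w p.1)).length)
        (PolyTime.lift ctx ++ [fun p => un p.2]) (fun p => p.2) := PolyC.var (by simp)
    have h2 := PolyB.forall_lt (n := fun p : α × ℕ => p.2 + 1)
      (φ := fun r : (α × ℕ) × ℕ => (pairCode (w r.1.1)).getD (r.2 + r.2) false) hi.succ (by
        have hc2 : PolyC (fun r : (α × ℕ) × ℕ =>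
            (D r.1.1 ∧ r.1.2 < (pairCode (w r.1.1)).length) ∧ r.2 < r.1.2 + 1)
            (PolyTime.lift (PolyTime.lift ctx ++ [fun p => un p.2]) ++ [fun r => un r.2])
            (fun r => pairCode (w r.1.1)) :=
          (PolyC.lift hc1 (fun r hr => hr.1)).weakenRight _
        have hj : PolyN (fun r : (α × ℕ) × ℕ =>
            (D r.1.1 ∧ r.1.2 < (pairCode (w r.1.1)).length) ∧ r.2 < r.1.2 + 1)
            (PolyTime.lift (PolyTime.lift ctx ++ [fun p => un p.2]) ++ [fun r => un r.2])
            (fun r => r.2) := PolyC.var (by simp)
        exact PolyB.getD hc2 (hj.add hj))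
    refine h2.congr (fun p _ => ?_)
    apply decide_eq_decide.2
    exact forall_iff (w p.1).1 (w p.1).2 p.2
  have h3 := PolyC.flatMap_range (t := fun p : α × ℕ =>
    if decide (p.2 < (w p.1).1.length) then [true] else []) hn
    (PolyC.ite h1 (PolyC.const [true]) (PolyC.const []))
  refine PolyC.congr h3 (fun x _ => ?_)
  have h4 : (w x).1.length ≤ (pairCode (w x)).length := by
    have := code_length (w x).1 (w x).2
    rw [show ((w x).1, (w x).2) = w x from rfl] at this
    omega
  exact flatMap_ite _ _ h4

theorem poly_fst {w : α → List Bool × List Bool} (hw : PolyC D ctx (fun x => pairCode (w x))) :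
    PolyC D ctx (fun x => (w x).1) := by
  have h1 := PolyC.map_range (n := fun x => (w x).1.length)
    (φ := fun p : α × ℕ => (pairCode (w p.1)).getD (p.2 + p.2 + 1) false) (poly_fst_length hw) (by
      have hc1 : PolyC (fun p : α × ℕ => D p.1 ∧ p.2 < (w p.1).1.length)
          (PolyTime.lift ctx ++ [fun p => un p.2]) (fun p => pairCode (w p.1)) :=
        (PolyC.lift hw (fun p hp => hp.1)).weakenRight _
      have hi : PolyN (fun p : α × ℕ => D p.1 ∧ p.2 < (w p.1).1.length)
          (PolyTime.lift ctx ++ [fun p => un p.2]) (fun p => p.2) := PolyC.var (by simp)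
      exact PolyB.getD hc1 (hi.add hi).succ)
  refine h1.congr (fun x _ => ?_)
  have h2 : (List.range (w x).1.length).map
      (fun i => (pairCode (w x)).getD (i + i + 1) false) =
      (List.range (w x).1.length).map (fun i => (w x).1.getD i false) := by
    refine List.map_congr_left fun i hi => ?_
    exact getD_odd (w x).2 (w x).1 i (List.mem_range.1 hi)
  rw [h2, map_range_getD]

theorem poly_snd {w : α → List Bool × List Bool} (hw : PolyC D ctx (fun x => pairCode (w x))) :
    PolyC D ctx (fun x => (w x).2) := by
  have hl := poly_fst_length hw
  refine (PolyC.drop hw (hl.add hl).succ).congr (fun x _ => ?_)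
  exact drop_end (w x).2 (w x).1

theorem poly_pair {t u : α → List Bool} (ht : PolyC D ctx t) (hu : PolyC D ctx u) :
    PolyC D ctx (fun x => pairCode (t x, u x)) := by
  have hn : PolyN D ctx (fun x => (t x).length) := PolyN.length ht
  have h1 := PolyC.flatMap_range (n := fun x => (t x).length)
    (t := fun p : α × ℕ => [true] ++ [(t p.1).getD p.2 false]) hn (by
      have hc1 : PolyC (fun p : α × ℕ => D p.1 ∧ p.2 < (t p.1).length)
          (PolyTime.lift ctx ++ [fun p => un p.2]) (fun p => t p.1) :=
        (PolyC.lift ht (fun p hp => hp.1)).weakenRight _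
      have hi : PolyN (fun p : α × ℕ => D p.1 ∧ p.2 < (t p.1).length)
          (PolyTime.lift ctx ++ [fun p => un p.2]) (fun p => p.2) := PolyC.var (by simp)
      exact (PolyC.const [true]).append (PolyB.getD hc1 hi))
  refine (h1.append (hu.cons false)).congr (fun x _ => ?_)
  unfold pairCode
  congr 1
  have h2 : (t x).flatMap (fun b => [true, b]) =
      ((List.range (t x).length).map (fun i => (t x).getD i false)).flatMap
        (fun b => [true, b]) := by rw [map_range_getD]
  rw [h2, List.flatMap_map]
  rfl

end Pool.Agent.P325b
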