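import Mathlib
import Pool.Agent.Lib.P325b.Defs
import Pool.Agent.Lib.P325b.PairCode
import Pool.Agent.Lib.P325n.Closure

/-!
# P325b.RandMap: closure of randomised NP-hardness under reductions
-/

namespace Pool.Agent.P325b

open Pool.Agent.Lib.PolyTime Pool.Agent.Lib.Pa7c826 Pool.Agent.P325n

variable {q q' : ℕ}

namespace RandMapAux

/-- Substituting a computable input into a function computed from a pair code. -/
theorem sub_pair {α : Type} {D : α → Prop} {ctx : List (α → List Bool)}
    {t : List Bool × List Bool → List Bool}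
    (ht : PolyC (fun _ : List Bool × List Bool => True) [pairCode] t)
    (w : α → List Bool × List Bool) (hw : PolyC D ctx (fun x => pairCode (w x))) :
    PolyC D ctx (fun x => t (w x)) := by
  have h3 := ht.reindex (D' := D) w (fun _ _ => trivial)
  refine h3.comp ?_
  intro g hg
  simp only [List.map_cons, List.map_nil, List.mem_singleton] at hg
  subst hg
  exact hw

/-- Substituting a computable instance into a function of instances. -/
theorem sub_inst {α : Type} {D : α → Prop} {ctx : List (α → List Bool)}
    {t : Inst q → List Bool} (ht : PolyC (fun _ : Inst q => True) [Inst.encode] t)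
    (w : α → Inst q) (hw : PolyC D ctx (fun x => (w x).encode)) :
    PolyC D ctx (fun x => t (w x)) := by
  have h3 := ht.reindex (D' := D) w (fun _ _ => trivial)
  refine h3.comp ?_
  intro g hg
  simp only [List.map_cons, List.map_nil, List.mem_singleton] at hg
  subst hg
  exact hw

/-- The same for functions of an instance and a string. -/
theorem sub_instStr {α : Type} {D : α → Prop} {ctx : List (α → List Bool)}
    {t : Inst q × List Bool → List Bool}
    (ht : PolyC (fun _ : Inst q × List Bool => True) [fun x => x.1.encode, fun x => x.2] t)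
    (w : α → Inst q) (r : α → List Bool) (hw : PolyC D ctx (fun x => (w x).encode))
    (hr : PolyC D ctx r) : PolyC D ctx (fun x => t (w x, r x)) := by
  have h3 := ht.reindex (D' := D) (fun x => (w x, r x)) (fun _ _ => trivial)
  refine h3.comp ?_
  intro g hg
  simp only [List.map_cons, List.map_nil, List.mem_cons, List.not_mem_nil, or_false] at hg
  rcases hg with rfl | rfl
  · exact hw
  · exact hr

theorem exists_ofFn (l : List Bool) (m : ℕ) (h : l.length = m) :
    ∃ r : Fin m → Bool, l = List.ofFn r := by
  subst h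
  exact ⟨l.get, (List.ofFn_get l).symm⟩

/-- Counting the bad strings of a two-stage random experiment. -/
theorem card_bad (m j : ℕ) (Q : List Bool → Prop) (P : List Bool → List Bool → Prop)
    (ℓ : List Bool → ℕ) (hℓ : ∀ u : Fin m → Bool, ℓ (List.ofFn u) ≤ j) (η : ℚ) (hη : 0 ≤ η)
    (h1 : (Nat.card {u : Fin m → Bool // Q (List.ofFn u)} : ℚ) ≤ η * 2 ^ m)
    (h2 : ∀ u : Fin m → Bool, ¬ Q (List.ofFn u) →
      (Nat.card {v : Fin (ℓ (List.ofFn u)) → Bool // P (List.ofFn u) (List.ofFn v)} : ℚ) ≤
        η * 2 ^ ℓ (List.ofFn u)) :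
    (Nat.card {r : Fin (m + j) → Bool // P ((List.ofFn r).take m)
      (((List.ofFn r).drop m).take (ℓ ((List.ofFn r).take m)))} : ℚ) ≤
      2 * η * 2 ^ (m + j) := by
  classical
  have e : {r : Fin (m + j) → Bool // P ((List.ofFn r).take m)
      (((List.ofFn r).drop m).take (ℓ ((List.ofFn r).take m)))} ≃
      {p : (Fin m → Bool) × (Fin j → Bool) // P (List.ofFn p.1)
        ((List.ofFn p.2).take (ℓ (List.ofFn p.1)))} := by
    refine (Equiv.subtypeEquiv (Fin.appendEquiv m j) ?_).symm
    rintro ⟨u, v⟩
    simp only [Fin.appendEquiv, Equiv.coe_fn_mk]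
    rw [List.ofFn_fin_append, List.take_left' (by simp), List.drop_left' (by simp)]
  have e2 : {p : (Fin m → Bool) × (Fin j → Bool) // P (List.ofFn p.1)
        ((List.ofFn p.2).take (ℓ (List.ofFn p.1)))} ≃
      Σ u : Fin m → Bool, {v : Fin j → Bool // P (List.ofFn u)
        ((List.ofFn v).take (ℓ (List.ofFn u)))} :=
    Equiv.subtypeProdEquivSigmaSubtype (fun u v => P (List.ofFn u)
        ((List.ofFn v).take (ℓ (List.ofFn u))))
  rw [Nat.card_congr (e.trans e2), Nat.card_sigma]
  push_cast
  have hb : ∀ u : Fin m → Bool, (Nat.card {v : Fin j → Bool // P (List.ofFn u)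
      ((List.ofFn v).take (ℓ (List.ofFn u)))} : ℚ) ≤
      (if Q (List.ofFn u) then 2 ^ j else 0) + η * 2 ^ j := by
    intro u
    by_cases hQ : Q (List.ofFn u)
    · rw [if_pos hQ]
      have h3 : Nat.card {v : Fin j → Bool // P (List.ofFn u)
          ((List.ofFn v).take (ℓ (List.ofFn u)))} ≤ 2 ^ j := by
        refine (Nat.card_le_card_of_injective Subtype.val Subtype.val_injective).trans ?_
        simp
      have h4 : (Nat.card {v : Fin j → Bool // P (List.ofFn u)
          ((List.ofFn v).take (ℓ (List.ofFn u)))} : ℚ) ≤ 2 ^ j := by exact_mod_cast h3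
      have h5 : (0 : ℚ) ≤ η * 2 ^ j := by positivity
      linarith
    · rw [if_neg hQ, zero_add]
      obtain ⟨i, hi⟩ := Nat.exists_eq_add_of_le (hℓ u)
      have h3 := h2 u hQ
      have h4 := card_prefix (ℓ (List.ofFn u)) i (fun s => P (List.ofFn u) s)
      have h5 : Nat.card {v : Fin j → Bool // P (List.ofFn u)
          ((List.ofFn v).take (ℓ (List.ofFn u)))} =
          Nat.card {v : Fin (ℓ (List.ofFn u)) → Bool // P (List.ofFn u) (List.ofFn v)} * 2 ^ i := by
        generalize hL : ℓ (List.ofFn u) = L at *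
        subst hi
        exact h4
      rw [h5]
      push_cast
      calc (Nat.card {v : Fin (ℓ (List.ofFn u)) → Bool // P (List.ofFn u) (List.ofFn v)} : ℚ) * 2 ^ i
          ≤ (η * 2 ^ ℓ (List.ofFn u)) * 2 ^ i := mul_le_mul_of_nonneg_right h3 (by positivity)
        _ = η * 2 ^ j := by
            rw [mul_assoc, ← pow_add, ← hi]
  refine (Finset.sum_le_sum fun u _ => hb u).trans ?_
  rw [Finset.sum_add_distrib, Finset.sum_const, nsmul_eq_mul, ← Finset.sum_filter,
    Finset.sum_const, nsmul_eq_mul, ← Fintype.card_subtype, ← Nat.card_eq_fintype_card]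
  have hc : ((Finset.univ : Finset (Fin m → Bool)).card : ℚ) = 2 ^ m := by
    simp
  rw [hc, pow_add]
  have h6 : (Nat.card {u : Fin m → Bool // Q (List.ofFn u)} : ℚ) * 2 ^ j ≤ (η * 2 ^ m) * 2 ^ j :=
    mul_le_mul_of_nonneg_right h1 (by positivity)
  linarith

end RandMapAux

open RandMapAux

theorem RandNPHard.mono {yes no yes' no' : Set (Inst q)} (h : RandNPHard yes no) (hy : yes ⊆ yes')
    (hn : no ⊆ no') : RandNPHard yes' no' := by
  intro L hL η hη
  obtain ⟨p, f, hf, h1, h2⟩ := h L hL η hη
  refine ⟨p, f, hf, fun x hx r => hy (h1 x hx r), fun x hx => le_trans ?_ (h2 x hx)⟩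
  have : Nat.card {r : Fin (p.eval x.length) → Bool // f (x, List.ofFn r) ∉ no'} ≤
      Nat.card {r : Fin (p.eval x.length) → Bool // f (x, List.ofFn r) ∉ no} :=
    Nat.card_le_card_of_injective (fun r => ⟨r.1, fun h => r.2 (hn h)⟩) (by
      intro r r' hrr
      simp only [Subtype.mk.injEq] at hrr
      exact Subtype.ext hrr)
  exact_mod_cast this

theorem toRand {yes no : Set (Inst q)} (h : NPHard yes no) : RandNPHard yes no := by
  intro L hL η hη
  obtain ⟨f, hf, h1, h2⟩ := h L hL
  have hfC := polyC_of_TM2 id Inst.encode f hf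
  have hg' := hfC.reindex (D' := fun _ : List Bool × List Bool => True) Prod.fst (fun _ _ => trivial)
  have hc : PolyC (fun _ : List Bool × List Bool => True) [pairCode]
      (fun a => (f a.1).encode) := by
    refine PolyC.comp hg' ?_
    intro t ht
    simp only [List.map_cons, List.map_nil, List.mem_singleton] at ht
    subst ht
    exact poly_fst (PolyC.var (by simp))
  refine ⟨0, fun x => f x.1, ?_, fun x hx _ => h1 x hx, fun x hx => ?_⟩
  · obtain ⟨⟨tm, time, hout⟩⟩ := PolyC.toTM2 pairCode (D := fun _ => True)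
      (fun x => f x.1) Inst.encode hc
    exact ⟨⟨tm, time, fun x => hout ⟨x, trivial⟩⟩⟩
  · have : IsEmpty {r : Fin ((0 : Polynomial ℕ).eval x.length) → Bool // f x ∉ no} :=
      ⟨fun r => r.2 (h2 x hx)⟩
    simp only
    rw [Nat.card_of_isEmpty]
    push_cast
    positivity

theorem RandNPHard.map {yes no : Set (Inst q)} {yes' no' : Set (Inst q')} (h : RandNPHard yes no)
    (g : Inst q → Inst q')
    (hg : PolyC (fun _ : Inst q => True) [Inst.encode] (fun I => (g I).encode))
    (hy : ∀ I ∈ yes, g I ∈ yes') (hn : ∀ I ∈ no, g I ∈ no') : RandNPHard yes' no' := by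
  intro L hL η hη
  obtain ⟨p, f, hf, h1, h2⟩ := h L hL η hη
  have hfC := polyC_of_TM2 pairCode Inst.encode f hf
  have hc : PolyC (fun _ : List Bool × List Bool => True) [pairCode]
      (fun a => (g (f a)).encode) := sub_inst hg f hfC
  refine ⟨p, fun x => g (f x), ?_, fun x hx r => hy _ (h1 x hx r), fun x hx =>
    le_trans ?_ (h2 x hx)⟩
  · obtain ⟨⟨tm, time, hout⟩⟩ := PolyC.toTM2 pairCode (D := fun _ => True)
      (fun x => g (f x)) Inst.encode hc
    exact ⟨⟨tm, time, fun x => hout ⟨x, trivial⟩⟩⟩
  · have : Nat.card {r : Fin (p.eval x.length) → Bool // g (f (x, List.ofFn r)) ∉ no'} ≤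
        Nat.card {r : Fin (p.eval x.length) → Bool // f (x, List.ofFn r) ∉ no} :=
      Nat.card_le_card_of_injective (fun r => ⟨r.1, fun h => r.2 (hn _ h)⟩) (by
        intro r r' hrr
        simp only [Subtype.mk.injEq] at hrr
        exact Subtype.ext hrr)
    exact_mod_cast this

/-- A randomised reduction between promise problems: `g (I, r)` with `r` a random string of length
`ℓ I`. -/
theorem RandNPHard.mapR {yes no : Set (Inst q)} {yes' no' : Set (Inst q')}
    (h : RandNPHard yes no)
    (hg : ∀ η : ℚ, 0 < η → ∃ (ℓ : Inst q → ℕ) (g : Inst q × List Bool → Inst q')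
      (pb : Polynomial ℕ),
      PolyN (fun _ : Inst q => True) [Inst.encode] ℓ ∧
      (∀ I, ℓ I ≤ pb.eval I.encode.length) ∧
      PolyC (fun _ : Inst q × List Bool => True) [fun x => x.1.encode, fun x => x.2]
        (fun x => (g x).encode) ∧
      (∀ I ∈ yes, ∀ r : Fin (ℓ I) → Bool, g (I, List.ofFn r) ∈ yes') ∧
      ∀ I ∈ no, (Nat.card {r : Fin (ℓ I) → Bool // g (I, List.ofFn r) ∉ no'} : ℚ) ≤
        η * 2 ^ ℓ I) : RandNPHard yes' no' := by
  intro L hL η hη
  have hη2 : 0 < η / 2 := by positivity
  obtain ⟨p1, f, hf, h1, h2⟩ := h L hL (η / 2) hη2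
  obtain ⟨ℓ, g, pb, hℓ, hℓb, hgC, hy, hn⟩ := hg (η / 2) hη2
  have hfC := polyC_of_TM2 pairCode Inst.encode f hf
  obtain ⟨pr, hpr⟩ := hfC.length_le
  obtain ⟨p2, hp2def⟩ : ∃ p2 : Polynomial ℕ,
      p2 = pb.comp (pr.comp (2 * Polynomial.X + 1 + p1)) := ⟨_, rfl⟩
  have hlen : ∀ x r : List Bool, (pairCode (x, r)).length = 2 * x.length + 1 + r.length := by
    intro x r
    have : ∀ x : List Bool, (x.flatMap (fun b => [true, b])).length = 2 * x.length := by
      intro x
      induction x with
      | nil => rfl
      | cons a x ih =>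
        rw [List.flatMap_cons, List.length_append, ih]
        simp only [List.length_cons, List.length_nil]
        ring
    unfold pairCode
    simp only [List.length_append, this, List.length_cons]
    ring
  have hp2 : ∀ x r : List Bool, r.length = p1.eval x.length →
      ℓ (f (x, r)) ≤ p2.eval x.length := by
    intro x r hr
    refine (hℓb _).trans ?_
    rw [hp2def, Polynomial.eval_comp]
    refine eval_mono _ ?_
    refine (hpr (x, r) trivial).trans ?_
    rw [Polynomial.eval_comp]
    refine eval_mono _ ?_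
    simp only [vals_cons, vals_nil, total_cons, total_nil, Nat.add_zero]
    rw [hlen, hr]
    simp
  refine ⟨p1 + p2, fun w => g (f (w.1, w.2.take (p1.eval w.1.length)),
    (w.2.drop (p1.eval w.1.length)).take (ℓ (f (w.1, w.2.take (p1.eval w.1.length))))), ?_, ?_, ?_⟩
  · -- the machine
    have hw : PolyC (fun _ : List Bool × List Bool => True) [pairCode]
        (fun w : List Bool × List Bool => pairCode w) := PolyC.var (by simp)
    have hx := poly_fst hw
    have hr := poly_snd hw
    have hp1 := PolyN.polyEval (PolyN.length hx) p1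
    have hr1 := PolyC.take hr hp1
    have hI : PolyC (fun _ : List Bool × List Bool => True) [pairCode]
        (fun w => (f (w.1, w.2.take (p1.eval w.1.length))).encode) :=
      sub_pair hfC (fun w : List Bool × List Bool => (w.1, w.2.take (p1.eval w.1.length)))
        (poly_pair hx hr1)
    have hℓ' : PolyN (fun _ : List Bool × List Bool => True) [pairCode]
        (fun w => ℓ (f (w.1, w.2.take (p1.eval w.1.length)))) :=
      sub_inst (t := fun I => un (ℓ I)) hℓ
        (fun w : List Bool × List Bool => f (w.1, w.2.take (p1.eval w.1.length))) hI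
    have hr2 := PolyC.take (PolyC.drop hr hp1) hℓ'
    have hout := sub_instStr hgC _ _ hI hr2
    obtain ⟨⟨tm, time, hout⟩⟩ := PolyC.toTM2 pairCode (D := fun _ => True)
      (fun w : List Bool × List Bool => g (f (w.1, w.2.take (p1.eval w.1.length)),
        (w.2.drop (p1.eval w.1.length)).take (ℓ (f (w.1, w.2.take (p1.eval w.1.length))))))
      Inst.encode hout
    exact ⟨⟨tm, time, fun x => hout ⟨x, trivial⟩⟩⟩
  · intro x hx r
    simp only
    have hrl : (List.ofFn r).length = p1.eval x.length + p2.eval x.length := by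
      rw [List.length_ofFn, Polynomial.eval_add]
    have hl1 : ((List.ofFn r).take (p1.eval x.length)).length = p1.eval x.length := by
      rw [List.length_take, hrl]
      omega
    obtain ⟨r1, hr1⟩ := exists_ofFn _ _ hl1
    have hle := hp2 x _ hl1
    have hl2 : (((List.ofFn r).drop (p1.eval x.length)).take
        (ℓ (f (x, (List.ofFn r).take (p1.eval x.length))))).length =
        ℓ (f (x, (List.ofFn r).take (p1.eval x.length))) := by
      rw [List.length_take, List.length_drop, hrl]
      omega
    obtain ⟨r2, hr2⟩ := exists_ofFn _ _ hl2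
    rw [hr2]
    refine hy _ ?_ r2
    rw [hr1]
    exact h1 x hx r1
  · intro x hx
    simp only
    have key := card_bad (p1.eval x.length) (p2.eval x.length) (fun u => f (x, u) ∉ no)
      (fun u v => g (f (x, u), v) ∉ no') (fun u => ℓ (f (x, u)))
      (fun u => hp2 x _ (by rw [List.length_ofFn])) (η / 2) hη2.le (h2 x hx)
      (fun u hu => hn _ (not_not.1 hu))
    have e : (p1 + p2).eval x.length = p1.eval x.length + p2.eval x.length :=
      Polynomial.eval_add
    rw [e]
    refine key.trans (le_of_eq ?_)
    ring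

end Pool.Agent.P325b
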