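import Mathlib
import Pool.Agent.Lib.P325b.RandMap
import Pool.Agent.Lib.P325r.Amplify

/-!
# Soundness amplification for randomised NP-hardness
-/

open Finset
open scoped BigOperators

namespace Pool.Agent.P325b

open Pool.Agent.P325f1f.Dich Pool.Agent.P325n Pool.Agent.P325r

theorem stepR {q : ℕ} (hq : 0 < q) (ε κ κ0 : ℝ) (hκ : κ ≤ κ0) (hκ1 : κ0 ≤ 1)
    (h : RandNPHard {I : Inst q | 1 - ε ≤ I.game.value} {I : Inst q | coll I.game ≤ κ}) :
    RandNPHard {I : Inst (q * q) | 1 - 2 * ε ≤ I.game.value}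
      {I : Inst (q * q) | coll I.game ≤ (1 - ((1 - κ0) / 24) ^ 2) * κ} := by
  refine h.map square poly_square ?_ ?_
  · intro I hI
    have hI' : 1 - ε ≤ I.game.value := hI
    have hm : Nonempty (Fin I.m) := ⟨⟨0, I.pos⟩⟩
    have h1 := square_value_ge hq I
    have h2 := value_le_one I.game
    show 1 - 2 * ε ≤ (square I).game.value
    nlinarith [sq_nonneg (1 - I.game.value)]
  · intro I hI
    have hI' : coll I.game ≤ κ := hI
    have hm : Nonempty (Fin I.m) := ⟨⟨0, I.pos⟩⟩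
    have h0 := coll_nonneg I.game
    have h1 := coll_le_one I.game
    show coll (square I).game ≤ _
    refine (square_coll_le hq I).trans ?_
    have h2 : 1 - ((1 - coll I.game) / 24) ^ 2 ≤ 1 - ((1 - κ0) / 24) ^ 2 := by
      have h3 : 0 ≤ (1 - κ0) / 24 := by linarith
      have h4 : (1 - κ0) / 24 ≤ (1 - coll I.game) / 24 := by linarith
      have h5 := mul_self_le_mul_self h3 h4
      nlinarith
    have h6 : 0 ≤ 1 - ((1 - κ0) / 24) ^ 2 := by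
      have h7 : 0 ≤ 1 - ((1 - coll I.game) / 24) ^ 2 := by nlinarith
      linarith
    calc (1 - ((1 - coll I.game) / 24) ^ 2) * coll I.game
        ≤ (1 - ((1 - κ0) / 24) ^ 2) * coll I.game := mul_le_mul_of_nonneg_right h2 h0
      _ ≤ (1 - ((1 - κ0) / 24) ^ 2) * κ := mul_le_mul_of_nonneg_left hI' h6

theorem iterR {q : ℕ} (hq : 0 < q) (ε κ0 : ℝ) (hκ0 : 0 ≤ κ0) (hκ1 : κ0 ≤ 1)
    (h : RandNPHard {I : Inst q | 1 - ε ≤ I.game.value} {I : Inst q | coll I.game ≤ κ0}) (r : ℕ) :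
    ∃ q' : ℕ, 0 < q' ∧ RandNPHard {I : Inst q' | 1 - 2 ^ r * ε ≤ I.game.value}
      {I : Inst q' | coll I.game ≤ (1 - ((1 - κ0) / 24) ^ 2) ^ r * κ0} := by
  have hl0 : 0 ≤ 1 - ((1 - κ0) / 24) ^ 2 := by nlinarith
  have hl1 : 1 - ((1 - κ0) / 24) ^ 2 ≤ 1 := by nlinarith [sq_nonneg ((1 - κ0) / 24)]
  induction r with
  | zero =>
    refine ⟨q, hq, ?_⟩
    simpa using h
  | succ r ih =>
    obtain ⟨q', hq', h'⟩ := ih
    refine ⟨q' * q', Nat.mul_pos hq' hq', ?_⟩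
    have h1 : (1 - ((1 - κ0) / 24) ^ 2) ^ r * κ0 ≤ κ0 := by
      have := pow_le_one₀ (n := r) hl0 hl1
      nlinarith
    have h2 := stepR hq' _ _ κ0 h1 hκ1 h'
    refine h2.mono ?_ ?_
    · intro I hI
      have hI' : 1 - 2 * (2 ^ r * ε) ≤ I.game.value := hI
      show 1 - 2 ^ (r + 1) * ε ≤ I.game.value
      rw [pow_succ]
      linarith
    · intro I hI
      have hI' : coll I.game ≤ (1 - ((1 - κ0) / 24) ^ 2) *
        ((1 - ((1 - κ0) / 24) ^ 2) ^ r * κ0) := hI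
      show coll I.game ≤ (1 - ((1 - κ0) / 24) ^ 2) ^ (r + 1) * κ0
      rw [pow_succ]
      linarith

/-- Randomised NP-hardness at one soundness below `1` for all completeness parameters gives the
conjecture with randomised reductions. -/
theorem amplifyR (δ : ℚ) (hδ : δ < 1)
    (h : ∀ ε : ℚ, 0 < ε → ε + δ < 1 → ∃ q : ℕ, 0 < q ∧
      RandNPHard {I : Inst q | ((1 - ε : ℚ) : ℝ) ≤ I.game.value}
        {I : Inst q | I.game.value ≤ ((δ : ℚ) : ℝ)}) :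
    RandGapHard 1 := by
  intro ε' δ' hε' hδ' _
  have hδr : (δ : ℝ) < 1 := by exact_mod_cast hδ
  have hδ'r : (0 : ℝ) < δ' := by exact_mod_cast hδ'
  obtain ⟨κ0, hκ0⟩ : ∃ κ0 : ℝ, κ0 = max (δ : ℝ) 0 := ⟨_, rfl⟩
  have hκ00 : 0 ≤ κ0 := by rw [hκ0]; exact le_max_right _ _
  have hκ01 : κ0 < 1 := by rw [hκ0]; exact max_lt hδr one_pos
  have hκδ : (δ : ℝ) ≤ κ0 := by rw [hκ0]; exact le_max_left _ _
  have hl1 : 1 - ((1 - κ0) / 24) ^ 2 < 1 := by
    have : 0 < ((1 - κ0) / 24) ^ 2 := by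
      have : 0 < (1 - κ0) / 24 := by linarith
      positivity
    linarith
  have hl0 : 0 ≤ 1 - ((1 - κ0) / 24) ^ 2 := by nlinarith
  obtain ⟨r, hr⟩ := exists_pow_lt_of_lt_one (show (0 : ℝ) < (δ' : ℝ) ^ 2 by positivity) hl1
  have h2r : (0 : ℚ) < 2 ^ r := by positivity
  have hε1 : 0 < min (ε' / 2 ^ r) ((1 - δ) / 2) := lt_min (by positivity) (by linarith)
  have hε2 : min (ε' / 2 ^ r) ((1 - δ) / 2) + δ < 1 := by
    have := min_le_right (ε' / 2 ^ r) ((1 - δ) / 2)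
    linarith
  have hε3 : 2 ^ r * min (ε' / 2 ^ r) ((1 - δ) / 2) ≤ ε' := by
    have h1 := min_le_left (ε' / 2 ^ r) ((1 - δ) / 2)
    have h2 := mul_le_mul_of_nonneg_left h1 h2r.le
    rwa [mul_div_cancel₀ _ h2r.ne'] at h2
  obtain ⟨q, hq, hhard⟩ := h _ hε1 hε2
  have hne : Nonempty (Fin q) := ⟨⟨0, hq⟩⟩
  obtain ⟨ε, hε⟩ : ∃ ε : ℚ, ε = min (ε' / 2 ^ r) ((1 - δ) / 2) := ⟨_, rfl⟩
  rw [← hε] at hhard hε3
  have h1 : RandNPHard {I : Inst q | 1 - (ε : ℝ) ≤ I.game.value}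
      {I : Inst q | coll I.game ≤ κ0} := by
    refine hhard.mono ?_ ?_
    · intro I hI
      have hI' : ((1 - ε : ℚ) : ℝ) ≤ I.game.value := hI
      push_cast at hI'
      exact hI'
    · intro I hI
      have hI' : I.game.value ≤ ((δ : ℚ) : ℝ) := hI
      have hm : Nonempty (Fin I.m) := ⟨⟨0, I.pos⟩⟩
      exact (coll_le_value I.game).trans (hI'.trans hκδ)
  obtain ⟨q', hq', h2⟩ := iterR hq _ κ0 hκ00 hκ01.le h1 r
  refine ⟨q', hq', h2.mono ?_ ?_⟩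
  · intro I hI
    have hI' : 1 - 2 ^ r * (ε : ℝ) ≤ I.game.value := hI
    show ((1 - ε' : ℚ) : ℝ) ≤ I.game.value
    have h3 : ((2 ^ r * ε : ℚ) : ℝ) ≤ ((ε' : ℚ) : ℝ) := by exact_mod_cast hε3
    push_cast at h3 ⊢
    linarith
  · intro I hI
    have hI' : coll I.game ≤ (1 - ((1 - κ0) / 24) ^ 2) ^ r * κ0 := hI
    have hne' : Nonempty (Fin q') := ⟨⟨0, hq'⟩⟩
    have hm : Nonempty (Fin I.m) := ⟨⟨0, I.pos⟩⟩
    show I.game.value ≤ (δ' : ℝ)
    have h3 := value_sq_le I.game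
    have h4 : I.game.value ^ 2 ≤ (δ' : ℝ) ^ 2 := by
      have h5 : (1 - ((1 - κ0) / 24) ^ 2) ^ r * κ0 ≤ (1 - ((1 - κ0) / 24) ^ 2) ^ r := by
        have h6 : 0 ≤ (1 - ((1 - κ0) / 24) ^ 2) ^ r := pow_nonneg hl0 r
        nlinarith
      linarith
    exact (abs_le_of_sq_le_sq' h4 hδ'r.le).2

end Pool.Agent.P325b
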