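import Mathlib
import Pool.Agent.Lib.P325b.Tmpl
import Pool.Agent.Lib.P325b.Defs

/-!
# P325b.Transport: the numbered cover game is the cover game

`tmpl` is the numbered form of the constants: `eK : K ≃ Fin nK` etc. are `Fintype.equivFin`, the copies are
`C0 = (Fin q → Ω) × (Fin q → Fin t × Ω) × Fin N`, so that `Slot ι (Fin q) Ω t N = ι × C0`.
-/

open Finset

namespace Pool.Agent.P325b

open Pool.Agent.CovT Pool.Agent.P325n Pool.Agent.P325f1f.Dich

/-- The copies of an edge. -/
abbrev Cpy (q : ℕ) (Ω : Type) (t N : ℕ) : Type := (Fin q → Ω) × (Fin q → Fin t × Ω) × Fin N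

/-- The constant part of `carry`. -/
def carC {q : ℕ} {Ω : Type} {t N : ℕ} (σ : Equiv.Perm Ω) (π : Equiv.Perm (Fin q)) :
    Equiv.Perm (Cpy q Ω t N) where
  toFun h := (fun j => σ (exch (h.1 (π.symm j), h.2.1 (π.symm j))).1,
    fun j => (exch (h.1 (π.symm j), h.2.1 (π.symm j))).2, h.2.2)
  invFun h := (fun i => (exch (σ.symm (h.1 (π i)), h.2.1 (π i))).1,
    fun i => (exch (σ.symm (h.1 (π i)), h.2.1 (π i))).2, h.2.2)
  left_inv h := by
    obtain ⟨x, s, i⟩ := h
    simp only [Equiv.symm_apply_apply, Prod.mk.eta, exch_exch]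
  right_inv h := by
    obtain ⟨x, s, i⟩ := h
    simp only [Equiv.apply_symm_apply, Prod.mk.eta, exch_exch]

/-- The numbered form of the constants. -/
noncomputable def tmpl (q : ℕ) {P Q K Ω : Type} [Fintype P] [Fintype Q] [Fintype K] [Nonempty K]
    [Fintype Ω] [Nonempty Ω] (s : K → P) (d : K → Q) (σ : K → Equiv.Perm Ω) (t N : ℕ)
    (ht : 1 ≤ t) (hN : 1 ≤ N) : Tmpl q (Fintype.card Ω) := by
  classical
  exact
  { nP := Fintype.card P
    nQ := Fintype.card Q
    nK := Fintype.card K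
    C := Fintype.card (Cpy q Ω t N)
    X := Fintype.card (Fin q → Ω)
    hK := Fintype.card_pos
    hC := by
      obtain ⟨ω⟩ := ‹Nonempty Ω›
      exact Fintype.card_pos_iff.2 ⟨(fun _ => ω, fun _ => (⟨0, ht⟩, ω), ⟨0, hN⟩)⟩
    s := fun k => Fintype.equivFin P (s ((Fintype.equivFin K).symm k))
    d := fun k => Fintype.equivFin Q (d ((Fintype.equivFin K).symm k))
    σ := fun k => (Fintype.equivFin Ω).symm.trans
      ((σ ((Fintype.equivFin K).symm k)).trans (Fintype.equivFin Ω))
    pt := fun c => Fintype.equivFin (Fin q → Ω) ((Fintype.equivFin (Cpy q Ω t N)).symm c).1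
    car := fun k π => (Fintype.equivFin (Cpy q Ω t N)).symm.trans
      ((carC (σ ((Fintype.equivFin K).symm k)) π).trans (Fintype.equivFin (Cpy q Ω t N))) }

namespace TransportAux

/-- The value of a game does not change if vertices, edges and labels are renamed. -/
theorem value_relabel' {U W Ω ι U' W' Ω' ι' : Type} [Fintype ι] [Fintype ι'] (I : Game U W Ω ι)
    (I' : Game U' W' Ω' ι') (eU : U ≃ U') (eW : W ≃ W') (eι : ι ≃ ι') (eΩ : Ω ≃ Ω')
    (h1 : ∀ e, I'.src (eι e) = eU (I.src e)) (h2 : ∀ e, I'.dst (eι e) = eW (I.dst e))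
    (h3 : ∀ e ω, I'.perm (eι e) (eΩ ω) = eΩ (I.perm e ω)) : I'.value = I.value := by
  classical
  have key : ∀ (x : U' → Ω') (y : W' → Ω'), I'.satFrac x y =
      I.satFrac (fun u => eΩ.symm (x (eU u))) (fun w => eΩ.symm (y (eW w))) := by
    intro x y
    unfold Game.satFrac
    rw [Fintype.card_congr eι.symm]
    congr 2
    refine (Finset.card_bij (fun e _ => eι e) ?_ ?_ ?_).symm
    · intro e he
      simp only [mem_filter, mem_univ, true_and] at he ⊢
      have h4 := h3 e (eΩ.symm (x (eU (I.src e))))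
      rw [eΩ.apply_symm_apply] at h4
      rw [h1, h2, h4, he, eΩ.apply_symm_apply]
    · intro e _ e' _ h
      exact eι.injective h
    · intro e' he'
      refine ⟨eι.symm e', ?_, eι.apply_symm_apply e'⟩
      simp only [mem_filter, mem_univ, true_and] at he' ⊢
      have h4 := h3 (eι.symm e') (eΩ.symm (x (eU (I.src (eι.symm e')))))
      rw [eΩ.apply_symm_apply, eι.apply_symm_apply] at h4
      rw [← eΩ.symm_apply_apply (I.perm (eι.symm e') (eΩ.symm (x (eU (I.src (eι.symm e')))))), ← h4,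
        ← h1, ← h2, eι.apply_symm_apply, he']
  unfold Game.value
  refine (Equiv.iSup_congr ((Equiv.arrowCongr eU eΩ).prodCongr (Equiv.arrowCongr eW eΩ)) ?_).symm
  rintro ⟨x, y⟩
  rw [key]
  congr 1 <;> · ext v; simp

/-- Renaming colours and points of a routing. -/
def routEquiv {K V C K' V' C' : Type} {cl : V → C} {cl' : V' → C'} (eK : K ≃ K') (eV : V ≃ V')
    (h : ∀ v v', cl' (eV v) = cl' (eV v') ↔ cl v = cl v') : Rout K' V' C' cl' ≃ Rout K V C cl where
  toFun r := ⟨fun k => eV.trans ((r.g (eK k)).trans eV.symm), fun k v => by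
    rw [← h]
    simp only [Equiv.trans_apply, Equiv.apply_symm_apply]
    exact r.keep _ _⟩
  invFun r := ⟨fun k => eV.symm.trans ((r.g (eK.symm k)).trans eV), fun k v => by
    obtain ⟨w, rfl⟩ := eV.surjective v
    simp only [Equiv.trans_apply, Equiv.symm_apply_apply]
    rw [h]
    exact r.keep _ _⟩
  left_inv r := by
    refine Rout.ext' _ _ ?_
    funext k
    ext v
    simp
  right_inv r := by
    refine Rout.ext' _ _ ?_
    funext k
    ext v
    simp

theorem carry_eq {m q : ℕ} {Ω : Type} {t N : ℕ} (σ : Equiv.Perm Ω) (π : Fin m → Equiv.Perm (Fin q))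
    (h : Slot (Fin m) (Fin q) Ω t N) : carry σ π h = (h.1, carC σ (π h.1) h.2) := rfl

theorem transport_gen {q q' t N : ℕ} (M : Tmpl q q') {P Q K Ω : Type} [Fintype K] [Fintype Ω]
    (s : K → P) (d : K → Q) (σ : K → Equiv.Perm Ω)
    (eP : P ≃ Fin M.nP) (eQ : Q ≃ Fin M.nQ) (eK : K ≃ Fin M.nK) (eC : Cpy q Ω t N ≃ Fin M.C)
    (eX : (Fin q → Ω) ≃ Fin M.X) (eΩ : Ω ≃ Fin q') (hs : ∀ k, M.s (eK k) = eP (s k))
    (hd : ∀ k, M.d (eK k) = eQ (d k)) (hσ : ∀ k ω, M.σ (eK k) (eΩ ω) = eΩ (σ k ω))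
    (hpt : ∀ c, M.pt (eC c) = eX c.1)
    (hcar : ∀ k π c, M.car (eK k) π (eC c) = eC (carC (σ k) π c)) (I : Inst q) :
    ∃ Φ : Rout (Fin M.nK) (Half M I) _ (clN M I) ≃
      Rout K (Bool × Slot (Fin I.m) (Fin q) Ω t N) ((Fin I.a ⊕ Fin I.b) × (Fin q → Ω))
        (cloud I.game.src I.game.dst),
      ∀ r, (cov M I r).game.value = (coverGame s d σ I.game (Φ r)).value := by
  classical
  let eH : Slot (Fin I.m) (Fin q) Ω t N ≃ Fin (I.m * M.C) :=
    ((Equiv.refl (Fin I.m)).prodCongr eC).trans finProdFinEquiv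
  have heH : ∀ h : Slot (Fin I.m) (Fin q) Ω t N, finProdFinEquiv.symm (eH h) = (h.1, eC h.2) := by
    intro h
    simp only [eH, Equiv.trans_apply, Equiv.symm_apply_apply]
    rfl
  let eV : Bool × Slot (Fin I.m) (Fin q) Ω t N ≃ Half M I := (Equiv.refl Bool).prodCongr eH
  have heV : ∀ b h, eV (b, h) = (b, eH h) := fun _ _ => rfl
  have hcl : ∀ v v', clN M I (eV v) = clN M I (eV v') ↔
      cloud I.game.src I.game.dst v = cloud I.game.src I.game.dst v' := by
    have h1 : ∀ v : Bool × Slot (Fin I.m) (Fin q) Ω t N, clN M I (eV v) =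
        ((cloud I.game.src I.game.dst v).1, eX (cloud I.game.src I.game.dst v).2) := by
      rintro ⟨b, h⟩
      rw [heV]
      unfold clN cloud
      simp only
      rw [heH, hpt]
    intro v v'
    rw [h1, h1, Prod.ext_iff, Prod.ext_iff]
    simp only [EmbeddingLike.apply_eq_iff_eq]
  refine ⟨routEquiv eK eV hcl, fun r => ?_⟩
  have hΦ : ∀ k b h, ((routEquiv eK eV hcl r).g k (b, h)) = eV.symm (r.g (eK k) (b, eH h)) :=
    fun _ _ _ => rfl
  have heVs : ∀ w : Half M I, eH (eV.symm w).2 = w.2 := by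
    rintro ⟨b, h⟩
    have : eV.symm (b, h) = (b, eH.symm h) := rfl
    rw [this]
    simp
  have key1 : ∀ k h, (cov M I r).game.src (finProdFinEquiv (eH h, eK k)) =
      finProdFinEquiv (eH ((routEquiv eK eV hcl r).g k (false, h)).2, eP (s k)) := by
    intro k h
    show finProdFinEquiv ((r.g (finProdFinEquiv.symm (finProdFinEquiv (eH h, eK k))).2
      (false, (finProdFinEquiv.symm (finProdFinEquiv (eH h, eK k))).1)).2,
        M.s (finProdFinEquiv.symm (finProdFinEquiv (eH h, eK k))).2) = _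
    rw [Equiv.symm_apply_apply]
    show finProdFinEquiv ((r.g (eK k) (false, eH h)).2, M.s (eK k)) = _
    rw [hs, hΦ, heVs]
  have hcn : ∀ k h, carryN M I (eK k) (eH h) = eH (carry (σ k) I.game.perm h) := by
    intro k h
    unfold carryN
    rw [heH]
    simp only
    rw [hcar, carry_eq]
    rfl
  have key2 : ∀ k h, (cov M I r).game.dst (finProdFinEquiv (eH h, eK k)) =
      finProdFinEquiv (eH ((routEquiv eK eV hcl r).g k (true, carry (σ k) I.game.perm h)).2,
        eQ (d k)) := by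
    intro k h
    show finProdFinEquiv ((r.g (finProdFinEquiv.symm (finProdFinEquiv (eH h, eK k))).2
      (true, carryN M I (finProdFinEquiv.symm (finProdFinEquiv (eH h, eK k))).2
        (finProdFinEquiv.symm (finProdFinEquiv (eH h, eK k))).1)).2,
        M.d (finProdFinEquiv.symm (finProdFinEquiv (eH h, eK k))).2) = _
    rw [Equiv.symm_apply_apply]
    show finProdFinEquiv ((r.g (eK k) (true, carryN M I (eK k) (eH h))).2, M.d (eK k)) = _
    rw [hd, hΦ, heVs, hcn]
  have key3 : ∀ k h ω, (cov M I r).game.perm (finProdFinEquiv (eH h, eK k)) (eΩ ω) =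
      eΩ (σ k ω) := by
    intro k h ω
    show M.σ (finProdFinEquiv.symm (finProdFinEquiv (eH h, eK k))).2 (eΩ ω) = _
    rw [Equiv.symm_apply_apply]
    exact hσ k ω
  exact value_relabel' (coverGame s d σ I.game (routEquiv eK eV hcl r)) (cov M I r).game
    ((eP.prodCongr eH).trans ((Equiv.prodComm _ _).trans finProdFinEquiv))
    ((eQ.prodCongr eH).trans ((Equiv.prodComm _ _).trans finProdFinEquiv))
    ((eK.prodCongr eH).trans ((Equiv.prodComm _ _).trans finProdFinEquiv)) eΩ
    (fun e => key1 e.1 e.2) (fun e => key2 e.1 e.2) (fun e ω => key3 e.1 e.2 ω)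

end TransportAux

theorem transport (q : ℕ) {P Q K Ω : Type} [Fintype P] [Fintype Q] [Fintype K] [Nonempty K]
    [Fintype Ω] [Nonempty Ω] (s : K → P) (d : K → Q) (σ : K → Equiv.Perm Ω) (t N : ℕ)
    (ht : 1 ≤ t) (hN : 1 ≤ N) (I : Inst q) :
    ∃ Φ : Rout (Fin (tmpl q s d σ t N ht hN).nK) (Half (tmpl q s d σ t N ht hN) I) _
        (clN (tmpl q s d σ t N ht hN) I) ≃
      Rout K (Bool × Slot (Fin I.m) (Fin q) Ω t N) ((Fin I.a ⊕ Fin I.b) × (Fin q → Ω))
        (cloud I.game.src I.game.dst),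
      ∀ r, (cov (tmpl q s d σ t N ht hN) I r).game.value =
        (coverGame s d σ I.game (Φ r)).value := by
  classical
  refine TransportAux.transport_gen (tmpl q s d σ t N ht hN) s d σ (Fintype.equivFin P)
    (Fintype.equivFin Q) (Fintype.equivFin K) (Fintype.equivFin (Cpy q Ω t N))
    (Fintype.equivFin (Fin q → Ω)) (Fintype.equivFin Ω) ?_ ?_ ?_ ?_ ?_ I
  · intro k
    show Fintype.equivFin P (s ((Fintype.equivFin K).symm (Fintype.equivFin K k))) = _
    rw [Equiv.symm_apply_apply]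
    rfl
  · intro k
    show Fintype.equivFin Q (d ((Fintype.equivFin K).symm (Fintype.equivFin K k))) = _
    rw [Equiv.symm_apply_apply]
    rfl
  · intro k ω
    show Fintype.equivFin Ω (σ ((Fintype.equivFin K).symm (Fintype.equivFin K k))
      ((Fintype.equivFin Ω).symm (Fintype.equivFin Ω ω))) = _
    rw [Equiv.symm_apply_apply, Equiv.symm_apply_apply]
  · intro c
    show Fintype.equivFin (Fin q → Ω) ((Fintype.equivFin (Cpy q Ω t N)).symm
      (Fintype.equivFin (Cpy q Ω t N) c)).1 = _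
    rw [Equiv.symm_apply_apply]
    rfl
  · intro k π c
    show Fintype.equivFin (Cpy q Ω t N) (carC (σ ((Fintype.equivFin K).symm
      (Fintype.equivFin K k))) π ((Fintype.equivFin (Cpy q Ω t N)).symm
      (Fintype.equivFin (Cpy q Ω t N) c))) = _
    rw [Equiv.symm_apply_apply, Equiv.symm_apply_apply]
    rfl

end Pool.Agent.P325b
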