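import Mathlib
import Pool.Agent.Lib.P325t.Rank

/-!
# P325b.RankSlack: the rank inequality with slack
-/

open Finset

namespace Pool.Agent.P325b

open Pool.Agent.P325t

theorem maxWeight_le {P Q κ : Type} [Fintype κ] (T : TypeGraph P Q κ) (w : κ → ℕ) :
    T.maxWeight w ≤ ∑ k, w k := by
  classical
  unfold TypeGraph.maxWeight
  apply Finset.sup_le
  intro F _
  exact Finset.sum_le_sum_of_subset (Finset.subset_univ F)

theorem rank_slack {P Q κ : Type} [Fintype κ] (T : TypeGraph P Q κ) (w : κ → ℕ) (M : κ → ℝ)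
    (hM0 : ∀ k, 0 ≤ M k) (hM1 : ∀ k, M k ≤ 1) (b : ℝ) (hb : 0 ≤ b)
    (hF : ∀ F : Finset κ, F.Nonempty → ∑ k ∈ F, M k ≤ (T.verts F : ℝ) + b) :
    ∑ k, (w k : ℝ) * M k ≤ (1 + b) * T.maxWeight w := by
  classical
  have h1b : 0 < 1 + b := by linarith
  rcases (maxWeight_le T w).lt_or_eq with h | h
  · obtain ⟨C, l, hC, hl, hm⟩ := dual_certificate T w h
    have hfeas : ∀ F : Finset κ, ∑ k ∈ F, M k / (1 + b) ≤ (T.verts F : ℝ) := by
      intro F
      rcases F.eq_empty_or_nonempty with rfl | hne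
      · simp
      · have hv : (1 : ℝ) ≤ T.verts F := by
          have h2 : 0 < T.verts F := by
            unfold TypeGraph.verts
            have := Finset.card_pos.2 (hne.image T.src)
            omega
          exact_mod_cast h2
        rw [← Finset.sum_div, div_le_iff₀ h1b]
        have h3 := hF F hne
        nlinarith
    have h2 := hm (fun k => M k / (1 + b)) (fun k => div_nonneg (hM0 k) h1b.le)
      (fun k => by rw [div_le_one h1b]; linarith [hM1 k]) hfeas
    have h3 := mul_nonneg hl.le (sub_nonneg.2 (hfeas C))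
    have h4 : ∑ k, (w k : ℝ) * (M k / (1 + b)) ≤ T.maxWeight w := by linarith
    have h5 : ∑ k, (w k : ℝ) * M k = (1 + b) * ∑ k, (w k : ℝ) * (M k / (1 + b)) := by
      rw [Finset.mul_sum]
      refine Finset.sum_congr rfl fun k _ => ?_
      field_simp
    rw [h5]
    exact mul_le_mul_of_nonneg_left h4 h1b.le
  · have h1 : ∑ k, (w k : ℝ) * M k ≤ ∑ k, (w k : ℝ) :=
      Finset.sum_le_sum fun k _ => mul_le_of_le_one_right (Nat.cast_nonneg _) (hM1 k)
    have h2 : (T.maxWeight w : ℝ) = ∑ k, (w k : ℝ) := by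
      rw [h]
      push_cast
      rfl
    rw [h2]
    have h3 : 0 ≤ ∑ k, (w k : ℝ) := Finset.sum_nonneg fun k _ => Nat.cast_nonneg _
    nlinarith

end Pool.Agent.P325b
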