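import Mathlib
import Pool.Agent.Lib.CovT.Main

/-!
# The hard half for coverings with prescribed involutions
-/

open Finset

namespace Pool.Agent.P325b

open Pool.Agent.P325f1f.Dich Pool.Agent.CovT Pool.Agent.P325d

theorem hard_of_sigma (PL PR K : Type) [Fintype PL] [Fintype PR] [Fintype K] [Nonempty K]
    (s : K → PL) (d : K → PR) (t : ℕ) (ht : 1 ≤ t) (b : ℝ) (hb : 0 < b) :
    ∃ m : ℕ, ∀ (Ω : Type) [Fintype Ω] [Nonempty Ω] (σ : K → Equiv.Perm Ω),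
      (∀ k ω, σ k (σ k ω) = ω) →
      (∀ l : List K, l ≠ [] → l.length ≤ m → Red l → ∀ ω, wact (fun k ω => σ k ω) l ω ≠ ω) →
      ∃ (a : ℝ) (T₀ : ℕ), 0 < a ∧ ∀ T : ℕ, T₀ ≤ T → 1 ≤ T ∧
        ∀ (U W Λ ι : Type) [Fintype U] [Fintype W] [Fintype Λ] [DecidableEq Λ] [Nonempty Λ]
          [Fintype ι] [Nonempty ι] (src : ι → U) (dst : ι → W),
          ∃ Bad : Finset (Rout K (Bool × Slot ι Λ Ω t T) ((U ⊕ W) × (Λ → Ω)) (cloud src dst)),
            (Bad.card : ℝ) ≤ Real.exp (-(a * T * Fintype.card ι)) * Fintype.card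
              (Rout K (Bool × Slot ι Λ Ω t T) ((U ⊕ W) × (Λ → Ω)) (cloud src dst)) ∧
            ∀ (r : Rout K (Bool × Slot ι Λ Ω t T) ((U ⊕ W) × (Λ → Ω)) (cloud src dst))
              (perm : ι → Equiv.Perm Λ), r ∉ Bad → (Game.mk src dst perm).value ≤ a →
              (coverGame s d σ (Game.mk src dst perm) r).value ≤
                ((Fintype.card PL : ℝ) + Fintype.card PR) / Fintype.card K + b := by
  have hk : (0 : ℝ) < Fintype.card K := by exact_mod_cast Fintype.card_pos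
  set P : ℝ := (Fintype.card PL : ℝ) + Fintype.card PR with hP
  have hP0 : 0 ≤ P := by rw [hP]; positivity
  obtain ⟨W0, hW0⟩ : ∃ W0 : ℝ, W0 = 8 * (4 * Fintype.card K + 2 * P + 4) /
    (b * Fintype.card K) := ⟨_, rfl⟩
  have hW0p : 0 < W0 := by rw [hW0]; positivity
  obtain ⟨L, hL⟩ : ∃ L : ℝ, L = 16 * ((4 * Fintype.card K + P + 4) + P * (W0 + 1)) /
    (b * Fintype.card K) := ⟨_, rfl⟩
  have hLp : 0 < L := by rw [hL]; positivity
  obtain ⟨θ, hθe⟩ : ∃ θ : ℝ, θ = Real.exp (-L) / 6 := ⟨_, rfl⟩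
  have hexp : Real.exp (-L) ≤ 1 := Real.exp_le_one_iff.2 (by linarith)
  have hθ : 0 < θ := by rw [hθe]; positivity
  obtain ⟨R, hR⟩ : ∃ R : ℝ, R = 1 / (θ ^ 2) ^ (4 * t) := ⟨_, rfl⟩
  obtain ⟨m, hm⟩ := exists_m (P ^ 2 * (R ^ 2 + 1)) (b * Fintype.card K / 8) (Fintype.card K)
    (by positivity) hk
  refine ⟨2 * (m + 1), ?_⟩
  intro Ω f1 f2 σ hσ hred
  have hΩ : (0 : ℝ) < Fintype.card Ω := by exact_mod_cast Fintype.card_pos
  have hkm : (1 : ℝ) ≤ (Fintype.card K : ℝ) ^ (m + 1) := by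
    apply one_le_pow₀
    exact_mod_cast Fintype.card_pos
  have hΩ1 : (1 : ℝ) ≤ Fintype.card Ω := by exact_mod_cast Fintype.card_pos
  obtain ⟨ε, hε⟩ : ∃ ε : ℝ, ε = 1 / ((Fintype.card K : ℝ) ^ (m + 1) * Fintype.card Ω) := ⟨_, rfl⟩
  have h1 : (Fintype.card K : ℝ) ^ (m + 1) * Fintype.card Ω * ε = 1 := by
    rw [hε]
    field_simp
  have c : ∃ c : Cst PL PR K t b, c = ⟨Ω, f1, f2, σ, hσ, m, hred, W0, L, θ, R, ε, hW0, hL, hW0p,
      hLp, hθ, by rw [hθe]; linarith, by rw [hθe]; linarith, hR, by rw [hε]; positivity, by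
        rw [hε, div_le_one (by positivity)]
        calc (1 : ℝ) = 1 * 1 := by ring
          _ ≤ _ := mul_le_mul hkm hΩ1 (by norm_num) (by positivity), by
        rw [h1]
        exact hm⟩ := ⟨_, rfl⟩
  obtain ⟨c, hc⟩ := c
  obtain ⟨a, T₀, ha, h⟩ := hard_aux PL PR K s d t ht b hb c
  rw [hc] at h
  exact ⟨a, T₀, ha, h⟩

end Pool.Agent.P325b
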