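import Mathlib
import Pool.Agent.Lib.CovT.Defs

/-!
# P325b.RoutCount: restricting a routing to some of the colours
-/

open Finset

namespace Pool.Agent.P325b

open Pool.Agent.CovT

/-- Keep only the colours `e k`. -/
def restr {K K' V C : Type} {cl : V → C} (e : K' → K) (r : Rout K V C cl) : Rout K' V C cl :=
  ⟨fun k => r.g (e k), fun k v => r.keep (e k) v⟩

/-- A routing is its restriction to the colours `e k` together with the permutations of the other
colours. -/
theorem exists_equiv {K K' V C : Type} (cl : V → C) (e : K' → K) (he : Function.Injective e) :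
    ∃ Φ : Rout K V C cl ≃ Rout K' V C cl ×
      ({k : K // k ∉ Set.range e} → {π : Equiv.Perm V // ∀ v, cl (π v) = cl v}),
      ∀ r, (Φ r).1 = restr e r := by
  classical
  have key : ∀ k' (hk : e k' ∈ Set.range e), Classical.choose hk = k' := fun k' hk =>
    he (Classical.choose_spec hk)
  refine ⟨⟨fun r => (restr e r, fun k => ⟨r.g k, r.keep k⟩),
    fun p => ⟨fun k => if hk : k ∈ Set.range e then p.1.g (Classical.choose hk)
      else (p.2 ⟨k, hk⟩).1, ?_⟩, ?_, ?_⟩, fun r => rfl⟩
  · intro k v
    by_cases hk : k ∈ Set.range e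
    · rw [dif_pos hk]
      exact p.1.keep _ v
    · rw [dif_neg hk]
      exact (p.2 ⟨k, hk⟩).2 v
  · intro r
    apply Rout.ext'
    funext k
    by_cases hk : k ∈ Set.range e
    · simp only [dif_pos hk]
      show r.g (e (Classical.choose hk)) = r.g k
      rw [Classical.choose_spec hk]
    · simp only [dif_neg hk]
  · rintro ⟨r', h⟩
    refine Prod.ext ?_ ?_
    · apply Rout.ext'
      funext k'
      show (if hk : e k' ∈ Set.range e then r'.g (Classical.choose hk)
        else (h ⟨e k', hk⟩).1) = r'.g k'
      rw [dif_pos ⟨k', rfl⟩, key]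
    · funext k
      apply Subtype.ext
      show (if hk : (k : K) ∈ Set.range e then r'.g (Classical.choose hk)
        else (h ⟨k, hk⟩).1) = (h k).1
      rw [dif_neg k.2]

/-- The restriction of a uniformly random routing is uniformly random. -/
theorem restr_card {K K' V C : Type} [Fintype K] [Fintype K'] [Fintype V] (cl : V → C)
    (e : K' → K) (he : Function.Injective e) (B : Finset (Rout K' V C cl)) :
    (univ.filter (fun r : Rout K V C cl => restr e r ∈ B)).card * Fintype.card (Rout K' V C cl) =
      B.card * Fintype.card (Rout K V C cl) := by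
  classical
  obtain ⟨Φ, hΦ⟩ := exists_equiv cl e he
  have h1 : Fintype.card (Rout K V C cl) = Fintype.card (Rout K' V C cl) *
      Fintype.card ({k : K // k ∉ Set.range e} → {π : Equiv.Perm V // ∀ v, cl (π v) = cl v}) := by
    rw [Fintype.card_congr Φ, Fintype.card_prod]
  have h2 : (univ.filter (fun r : Rout K V C cl => restr e r ∈ B)).card = B.card *
      Fintype.card ({k : K // k ∉ Set.range e} → {π : Equiv.Perm V // ∀ v, cl (π v) = cl v}) := by
    rw [← Finset.card_univ (α := {k : K // k ∉ Set.range e} →
      {π : Equiv.Perm V // ∀ v, cl (π v) = cl v}), ← Finset.card_product]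
    refine Finset.card_bij (fun r _ => Φ r) ?_ ?_ ?_
    · intro r hr
      rw [Finset.mem_filter] at hr
      rw [Finset.mem_product, hΦ]
      exact ⟨hr.2, Finset.mem_univ _⟩
    · intro r _ r' _ h
      exact Φ.injective h
    · rintro p hp
      rw [Finset.mem_product] at hp
      refine ⟨Φ.symm p, ?_, Φ.apply_symm_apply p⟩
      rw [Finset.mem_filter, ← hΦ, Φ.apply_symm_apply]
      exact ⟨Finset.mem_univ _, hp.1⟩
  rw [h1, h2]
  ring

end Pool.Agent.P325b
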