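import Mathlib
import Pool.Agent.Lib.P325b.RoutCount
import Pool.Agent.Lib.P325f1f.Dich.Games

/-!
# P325b.SubCover: satisfied edges of some of the types

`tf k` is the fraction of satisfied edges of type `k`.
-/

open Finset
open scoped BigOperators

namespace Pool.Agent.P325b

open Pool.Agent.CovT Pool.Agent.P325f1f.Dich

variable {U W Λ ι Ω PL PR K PL' PR' K' : Type} {t T : ℕ} [Fintype ι] [Fintype Λ] [DecidableEq Λ]
  [Fintype Ω] [Fintype K] [Fintype K']

/-- The fraction of satisfied edges of type `k`. -/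
noncomputable def tf (s : K → PL) (d : K → PR) (σ : K → Equiv.Perm Ω) (I : Game U W Λ ι)
    (r : Rout K (Bool × Slot ι Λ Ω t T) ((U ⊕ W) × (Λ → Ω)) (cloud I.src I.dst))
    (x : PL × Slot ι Λ Ω t T → Ω) (y : PR × Slot ι Λ Ω t T → Ω) (k : K) : ℝ := by
  classical
  exact 𝔼 h : Slot ι Λ Ω t T, if σ k (x ((coverGame s d σ I r).src (k, h))) =
    y ((coverGame s d σ I r).dst (k, h)) then (1 : ℝ) else 0

theorem tf_nonneg (s : K → PL) (d : K → PR) (σ : K → Equiv.Perm Ω) (I : Game U W Λ ι)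
    (r : Rout K (Bool × Slot ι Λ Ω t T) ((U ⊕ W) × (Λ → Ω)) (cloud I.src I.dst))
    (x : PL × Slot ι Λ Ω t T → Ω) (y : PR × Slot ι Λ Ω t T → Ω) (k : K) :
    0 ≤ tf s d σ I r x y k := by
  unfold tf
  refine Finset.expect_nonneg (fun h _ => ?_)
  split_ifs <;> norm_num

theorem tf_le_one [Nonempty (Slot ι Λ Ω t T)] (s : K → PL) (d : K → PR) (σ : K → Equiv.Perm Ω)
    (I : Game U W Λ ι)
    (r : Rout K (Bool × Slot ι Λ Ω t T) ((U ⊕ W) × (Λ → Ω)) (cloud I.src I.dst))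
    (x : PL × Slot ι Λ Ω t T → Ω) (y : PR × Slot ι Λ Ω t T → Ω) (k : K) :
    tf s d σ I r x y k ≤ 1 := by
  unfold tf
  refine Finset.expect_le univ_nonempty (fun h _ => ?_)
  split_ifs <;> norm_num

theorem satFrac_cover [Nonempty (Slot ι Λ Ω t T)] [Nonempty K] (s : K → PL) (d : K → PR)
    (σ : K → Equiv.Perm Ω) (I : Game U W Λ ι)
    (r : Rout K (Bool × Slot ι Λ Ω t T) ((U ⊕ W) × (Λ → Ω)) (cloud I.src I.dst))
    (x : PL × Slot ι Λ Ω t T → Ω) (y : PR × Slot ι Λ Ω t T → Ω) :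
    (coverGame s d σ I r).satFrac x y = (∑ k, tf s d σ I r x y k) / Fintype.card K := by
  classical
  rw [satFrac_eq, expect_pair, Fintype.expect_eq_sum_div_card]
  rfl

theorem sub_le [Nonempty (Slot ι Λ Ω t T)] [Nonempty K'] (s : K → PL) (d : K → PR)
    (σ : K → Equiv.Perm Ω) (s' : K' → PL') (d' : K' → PR') (σ' : K' → Equiv.Perm Ω) (e : K' → K)
    (fL : PL' → PL) (fR : PR' → PR) (hs : ∀ k, fL (s' k) = s (e k)) (hd : ∀ k, fR (d' k) = d (e k))
    (hσ : ∀ k, σ' k = σ (e k)) (I : Game U W Λ ι)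
    (r : Rout K (Bool × Slot ι Λ Ω t T) ((U ⊕ W) × (Λ → Ω)) (cloud I.src I.dst))
    (x : PL × Slot ι Λ Ω t T → Ω) (y : PR × Slot ι Λ Ω t T → Ω) :
    ∑ k, tf s d σ I r x y (e k) ≤
      Fintype.card K' * (coverGame s' d' σ' I (restr e r)).value := by
  have hK : (0 : ℝ) < Fintype.card K' := by exact_mod_cast Fintype.card_pos
  have h1 := le_value (coverGame s' d' σ' I (restr e r)) (fun p => x (fL p.1, p.2))
    (fun p => y (fR p.1, p.2))
  rw [satFrac_cover, div_le_iff₀ hK] at h1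
  rw [mul_comm]
  refine le_of_eq_of_le (Finset.sum_congr rfl (fun k _ => ?_)) h1
  unfold tf
  refine Finset.expect_congr rfl (fun h _ => ?_)
  have e1 : x ((coverGame s d σ I r).src (e k, h)) =
      (fun p : PL' × Slot ι Λ Ω t T => x (fL p.1, p.2))
        ((coverGame s' d' σ' I (restr e r)).src (k, h)) := by
    show x (s (e k), (r.g (e k) (false, h)).2) = x (fL (s' k), (r.g (e k) (false, h)).2)
    rw [hs]
  have e2 : y ((coverGame s d σ I r).dst (e k, h)) =
      (fun p : PR' × Slot ι Λ Ω t T => y (fR p.1, p.2))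
        ((coverGame s' d' σ' I (restr e r)).dst (k, h)) := by
    show y (d (e k), (r.g (e k) (true, carry (σ (e k)) I.perm h)).2) =
      y (fR (d' k), (r.g (e k) (true, carry (σ' k) I.perm h)).2)
    rw [hd, hσ]
  rw [e1, e2, hσ]

end Pool.Agent.P325b
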