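import Mathlib
import Pool.Agent.Lib.P325b.Sigma
import Pool.Agent.Lib.P325b.SubCover
import Pool.Agent.Lib.P325b.RankSlack

/-!
# Coverings of weighted type graphs: the hard half at the weighted threshold
-/

open Finset
open scoped BigOperators

namespace Pool.Agent.P325b

open Pool.Agent.P325f1f.Dich Pool.Agent.CovT Pool.Agent.P325d Pool.Agent.P325t

/-- The sets of types with a choice of a copy of each. -/
abbrev Pick {κ : Type} (w : κ → ℕ) : Type :=
  (F : {F : Finset κ // F.Nonempty}) × ((k : F.1) → Fin (w k))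

noncomputable instance {κ : Type} [Fintype κ] (w : κ → ℕ) : Fintype (Pick w) := by
  classical
  unfold Pick
  infer_instance

/-- The involutions serve all sets of types at once. -/
theorem exists_all {P Q κ : Type} [Fintype κ] (T : TypeGraph P Q κ) (w : κ → ℕ)
    (t : ℕ) (ht : 1 ≤ t) (b : ℝ) (hb : 0 < b) :
    ∃ (Ω : Type) (_ : Fintype Ω) (_ : Nonempty Ω) (σ : κ → Equiv.Perm Ω) (a : ℝ) (T₀ : ℕ),
      0 < a ∧ ∀ N : ℕ, T₀ ≤ N → 1 ≤ N ∧
        ∀ (U W Λ ι : Type) [Fintype U] [Fintype W] [Fintype Λ] [DecidableEq Λ] [Nonempty Λ]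
          [Fintype ι] [Nonempty ι] (src : ι → U) (dst : ι → W) (j : Pick w),
          ∃ Bad : Finset (Rout j.1.1 (Bool × Slot ι Λ Ω t N) ((U ⊕ W) × (Λ → Ω)) (cloud src dst)),
            (Bad.card : ℝ) ≤ Real.exp (-(a * N * Fintype.card ι)) * Fintype.card
              (Rout j.1.1 (Bool × Slot ι Λ Ω t N) ((U ⊕ W) × (Λ → Ω)) (cloud src dst)) ∧
            ∀ (r : Rout j.1.1 (Bool × Slot ι Λ Ω t N) ((U ⊕ W) × (Λ → Ω)) (cloud src dst))
              (perm : ι → Equiv.Perm Λ), r ∉ Bad → (Game.mk src dst perm).value ≤ a →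
              (coverGame (fun k : j.1.1 => (⟨T.src k, ⟨k, rfl⟩⟩ :
                  {p : P // ∃ k : j.1.1, T.src k = p})) (fun k : j.1.1 => (⟨T.dst k, ⟨k, rfl⟩⟩ :
                  {p : Q // ∃ k : j.1.1, T.dst k = p})) (fun k : j.1.1 => σ k)
                  (Game.mk src dst perm) r).value ≤
                (T.verts j.1.1 : ℝ) / j.1.1.card + b := by
  classical
  have hP : ∀ F : {F : Finset κ // F.Nonempty}, Finite {p : P // ∃ k : F.1, T.src k = p} :=
    fun F => Set.finite_range (fun k : F.1 => T.src k)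
  have hQ : ∀ F : {F : Finset κ // F.Nonempty}, Finite {p : Q // ∃ k : F.1, T.dst k = p} :=
    fun F => Set.finite_range (fun k : F.1 => T.dst k)
  let fP : ∀ F : {F : Finset κ // F.Nonempty}, Fintype {p : P // ∃ k : F.1, T.src k = p} :=
    fun F => Fintype.ofFinite _
  let fQ : ∀ F : {F : Finset κ // F.Nonempty}, Fintype {p : Q // ∃ k : F.1, T.dst k = p} :=
    fun F => Fintype.ofFinite _
  have hne : ∀ F : {F : Finset κ // F.Nonempty}, Nonempty F.1 := fun F => F.2.to_subtype
  have h1 := fun F : {F : Finset κ // F.Nonempty} => hard_of_sigma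
    {p : P // ∃ k : F.1, T.src k = p} {p : Q // ∃ k : F.1, T.dst k = p} F.1
    (fun k : F.1 => ⟨T.src k, ⟨k, rfl⟩⟩) (fun k : F.1 => ⟨T.dst k, ⟨k, rfl⟩⟩) t ht b hb
  choose m hm using h1
  obtain ⟨Ω, f1, f2, σ, hσ, hred⟩ := exists_sigma κ (univ.sup m)
  have h2 := fun F : {F : Finset κ // F.Nonempty} => hm F Ω (fun k : F.1 => σ k)
    (fun k ω => hσ k ω) (by
      intro l hl hlm hr ω
      have h3 := hred (l.map Subtype.val) (fun h => hl (List.map_eq_nil_iff.1 h))
        (by
          rw [List.length_map]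
          exact hlm.trans (Finset.le_sup (f := m) (mem_univ F)))
        (red_map _ Subtype.val_injective l hr) ω
      rwa [wact_map] at h3)
  choose a T₀ ha hT using h2
  by_cases hcard : Nonempty {F : Finset κ // F.Nonempty}
  · obtain ⟨F0, -, hF0⟩ := Finset.exists_min_image (univ : Finset {F : Finset κ // F.Nonempty}) a
      univ_nonempty
    refine ⟨Ω, f1, f2, σ, a F0, univ.sup T₀, ha F0, ?_⟩
    intro N hN
    have hNF : ∀ F, T₀ F ≤ N := fun F => (Finset.le_sup (f := T₀) (mem_univ F)).trans hN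
    refine ⟨(hT F0 N (hNF F0)).1, ?_⟩
    intro U W Λ ι _ _ _ _ _ _ _ src dst j
    obtain ⟨Bad, hBad, h4⟩ := (hT j.1 N (hNF j.1)).2 U W Λ ι src dst
    refine ⟨Bad, hBad.trans ?_, ?_⟩
    · refine mul_le_mul_of_nonneg_right ?_ (Nat.cast_nonneg _)
      rw [Real.exp_le_exp]
      have h5 := hF0 j.1 (mem_univ _)
      have h6 : a F0 * N * Fintype.card ι ≤ a j.1 * N * Fintype.card ι := by
        refine mul_le_mul_of_nonneg_right (mul_le_mul_of_nonneg_right h5 (Nat.cast_nonneg _))
          (Nat.cast_nonneg _)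
      linarith
    · intro r perm hr hv
      refine (h4 r perm hr (hv.trans (hF0 j.1 (mem_univ _)))).trans (le_of_eq ?_)
      congr 2
      · have e1 : Fintype.card {p : P // ∃ k : j.1.1, T.src k = p} =
            (j.1.1.image T.src).card := by
          rw [← Fintype.card_coe]
          refine Fintype.card_congr (Equiv.subtypeEquivRight ?_)
          intro p
          simp
        have e2 : Fintype.card {p : Q // ∃ k : j.1.1, T.dst k = p} =
            (j.1.1.image T.dst).card := by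
          rw [← Fintype.card_coe]
          refine Fintype.card_congr (Equiv.subtypeEquivRight ?_)
          intro p
          simp
        have e3 : T.verts j.1.1 = (j.1.1.image T.src).card + (j.1.1.image T.dst).card := by
          unfold TypeGraph.verts
          congr
        rw [e3, Nat.cast_add, ← e1, ← e2]
      · rw [Fintype.card_coe]
  · refine ⟨Ω, f1, f2, σ, 1, 1, one_pos, ?_⟩
    intro N hN
    refine ⟨hN, ?_⟩
    intro U W Λ ι _ _ _ _ _ _ _ src dst j
    exact absurd ⟨j.1⟩ hcard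

/-- The edge types of a choice. -/
def pk {κ : Type} {w : κ → ℕ} (j : Pick w) (k : j.1.1) : (k : κ) × Fin (w k) := ⟨k, j.2 k⟩

theorem pk_inj {κ : Type} {w : κ → ℕ} (j : Pick w) : Function.Injective (pk j) := by
  intro k k' h
  have h1 := congrArg Sigma.fst h
  exact Subtype.ext h1

/-- The hard half at the weighted threshold. -/
theorem weighted_hard {P Q κ : Type} [Fintype κ] (T : TypeGraph P Q κ) (w : κ → ℕ)
    (hw : 0 < ∑ k, w k) (t : ℕ) (ht : 1 ≤ t) (b : ℝ) (hb : 0 < b) :
    ∃ (Ω : Type) (_ : Fintype Ω) (_ : Nonempty Ω) (σ : κ → Equiv.Perm Ω) (a : ℝ) (T₀ : ℕ),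
      0 < a ∧ ∀ N : ℕ, T₀ ≤ N → 1 ≤ N ∧
        ∀ (U W Λ ι : Type) [Fintype U] [Fintype W] [Fintype Λ] [DecidableEq Λ] [Nonempty Λ]
          [Fintype ι] [Nonempty ι] (src : ι → U) (dst : ι → W),
          ∃ Bad : Finset (Rout ((k : κ) × Fin (w k)) (Bool × Slot ι Λ Ω t N)
              ((U ⊕ W) × (Λ → Ω)) (cloud src dst)),
            (Bad.card : ℝ) ≤ Real.exp (-(a * N)) * Fintype.card
              (Rout ((k : κ) × Fin (w k)) (Bool × Slot ι Λ Ω t N)
                ((U ⊕ W) × (Λ → Ω)) (cloud src dst)) ∧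
            ∀ (r : Rout ((k : κ) × Fin (w k)) (Bool × Slot ι Λ Ω t N)
                ((U ⊕ W) × (Λ → Ω)) (cloud src dst))
              (perm : ι → Equiv.Perm Λ), r ∉ Bad → (Game.mk src dst perm).value ≤ a →
              (coverGame (T.copies w).src (T.copies w).dst (fun p => σ p.1)
                  (Game.mk src dst perm) r).value ≤
                (T.maxWeight w : ℝ) / ((∑ k, w k : ℕ) : ℝ) + b := by
  classical
  have hk0 : (0 : ℝ) ≤ Fintype.card κ := Nat.cast_nonneg _
  obtain ⟨b1, hb1⟩ : ∃ b1 : ℝ, b1 = b / (Fintype.card κ + 1) := ⟨_, rfl⟩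
  have hb10 : 0 < b1 := by rw [hb1]; positivity
  have hb1k : Fintype.card κ * b1 ≤ b := by
    rw [hb1, mul_div_assoc', div_le_iff₀ (by positivity)]
    nlinarith
  obtain ⟨Ω, f1, f2, σ, a1, T₀, ha1, h⟩ := exists_all T w t ht b1 hb10
  have hneK : Nonempty ((k : κ) × Fin (w k)) := by
    by_contra hne
    rw [not_nonempty_iff] at hne
    have h0 : ∀ k, w k = 0 := by
      intro k
      by_contra hk
      exact hne.elim ⟨k, ⟨0, Nat.pos_of_ne_zero hk⟩⟩
    rw [Finset.sum_eq_zero (fun k _ => h0 k)] at hw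
    exact lt_irrefl _ hw
  obtain ⟨T₁, hT₁⟩ := exists_nat_gt (2 * Fintype.card (Pick w) / a1)
  refine ⟨Ω, f1, f2, σ, a1 / 2, max T₀ T₁, by positivity, ?_⟩
  intro N hN
  have hN0 : T₀ ≤ N := (le_max_left _ _).trans hN
  have hN1 : (T₁ : ℝ) ≤ N := by exact_mod_cast (le_max_right _ _).trans hN
  obtain ⟨hNpos, hj⟩ := h N hN0
  refine ⟨hNpos, ?_⟩
  intro U W Λ ι _ _ _ _ _ _ _ src dst
  have hNr : (1 : ℝ) ≤ N := by exact_mod_cast hNpos
  have hι : (1 : ℝ) ≤ Fintype.card ι := by exact_mod_cast Fintype.card_pos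
  choose Bad hBad hval using hj U W Λ ι src dst
  let Bd : Pick w → Finset (Rout ((k : κ) × Fin (w k)) (Bool × Slot ι Λ Ω t N)
      ((U ⊕ W) × (Λ → Ω)) (cloud src dst)) := fun j =>
    univ.filter (fun r => restr (pk j) r ∈ Bad j)
  have hBd : ∀ j, ((Bd j).card : ℝ) ≤ Real.exp (-(a1 * N)) * Fintype.card
      (Rout ((k : κ) × Fin (w k)) (Bool × Slot ι Λ Ω t N)
        ((U ⊕ W) × (Λ → Ω)) (cloud src dst)) := by
    intro j
    have h1 := restr_card (cloud src dst) (pk j) (pk_inj j) (Bad j)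
    have h1' : ((Bd j).card : ℝ) * Fintype.card (Rout j.1.1 (Bool × Slot ι Λ Ω t N)
        ((U ⊕ W) × (Λ → Ω)) (cloud src dst)) = (Bad j).card * Fintype.card
        (Rout ((k : κ) × Fin (w k)) (Bool × Slot ι Λ Ω t N)
          ((U ⊕ W) × (Λ → Ω)) (cloud src dst)) := by exact_mod_cast h1
    have hpos : (0 : ℝ) < Fintype.card (Rout j.1.1 (Bool × Slot ι Λ Ω t N)
        ((U ⊕ W) × (Λ → Ω)) (cloud src dst)) := by exact_mod_cast Fintype.card_pos
    have h2 := hBad j
    have h3 : Real.exp (-(a1 * N * Fintype.card ι)) ≤ Real.exp (-(a1 * N)) := by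
      rw [Real.exp_le_exp]
      have : a1 * N * 1 ≤ a1 * N * Fintype.card ι :=
        mul_le_mul_of_nonneg_left hι (by positivity)
      linarith
    refine le_of_mul_le_mul_right ?_ hpos
    rw [h1']
    calc ((Bad j).card : ℝ) * Fintype.card (Rout ((k : κ) × Fin (w k)) (Bool × Slot ι Λ Ω t N)
          ((U ⊕ W) × (Λ → Ω)) (cloud src dst))
        ≤ (Real.exp (-(a1 * N)) * Fintype.card (Rout j.1.1 (Bool × Slot ι Λ Ω t N)
        ((U ⊕ W) × (Λ → Ω)) (cloud src dst))) * Fintype.card (Rout ((k : κ) × Fin (w k))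
          (Bool × Slot ι Λ Ω t N) ((U ⊕ W) × (Λ → Ω)) (cloud src dst)) := by
          refine mul_le_mul_of_nonneg_right ?_ (Nat.cast_nonneg _)
          exact h2.trans (mul_le_mul_of_nonneg_right h3 (Nat.cast_nonneg _))
      _ = _ := by ring
  refine ⟨univ.biUnion Bd, ?_, ?_⟩
  · have h1 : ((univ.biUnion Bd).card : ℝ) ≤ ∑ j, ((Bd j).card : ℝ) := by
      exact_mod_cast Finset.card_biUnion_le
    refine h1.trans ((Finset.sum_le_sum (fun j _ => hBd j)).trans ?_)
    rw [Finset.sum_const, card_univ, nsmul_eq_mul, ← mul_assoc]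
    refine mul_le_mul_of_nonneg_right ?_ (Nat.cast_nonneg _)
    have h2 : (Fintype.card (Pick w) : ℝ) ≤ Real.exp (a1 * N / 2) := by
      have h3 : 2 * (Fintype.card (Pick w) : ℝ) / a1 ≤ N := hT₁.le.trans hN1
      rw [div_le_iff₀ ha1] at h3
      have h4 := Real.add_one_le_exp (a1 * N / 2)
      linarith
    calc (Fintype.card (Pick w) : ℝ) * Real.exp (-(a1 * N))
        ≤ Real.exp (a1 * N / 2) * Real.exp (-(a1 * N)) :=
          mul_le_mul_of_nonneg_right h2 (Real.exp_pos _).le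
      _ = Real.exp (-(a1 / 2 * N)) := by
          rw [← Real.exp_add]
          congr 1
          ring
  · intro r perm hr hv
    have hrj : ∀ j, restr (pk j) r ∉ Bad j := by
      intro j hmem
      exact hr (Finset.mem_biUnion.2 ⟨j, mem_univ _, Finset.mem_filter.2 ⟨mem_univ _, hmem⟩⟩)
    have hv1 : (Game.mk src dst perm).value ≤ a1 := hv.trans (by linarith)
    have hneS : Nonempty (Slot ι Λ Ω t N) := by
      obtain ⟨e⟩ := ‹Nonempty ι›
      obtain ⟨ω⟩ := f2
      exact ⟨(e, fun _ => ω, fun _ => (⟨0, ht⟩, ω), ⟨0, hNpos⟩)⟩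
    have hn : (0 : ℝ) < ((∑ k, w k : ℕ) : ℝ) := by exact_mod_cast hw
    have hm : ((T.maxWeight w : ℕ) : ℝ) ≤ ((∑ k, w k : ℕ) : ℝ) := by
      exact_mod_cast maxWeight_le T w
    refine Real.iSup_le (fun p => ?_) (by positivity)
    rw [satFrac_cover]
    set τ := tf (T.copies w).src (T.copies w).dst (fun p => σ p.1) (Game.mk src dst perm) r
      p.1 p.2 with hτ
    have hτ0 : ∀ k, 0 ≤ τ k := fun k => tf_nonneg _ _ _ _ _ _ _ k
    have hτ1 : ∀ k, τ k ≤ 1 := fun k => tf_le_one _ _ _ _ _ _ _ k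
    -- the best copy of every type
    have hbest : ∀ k, ∃ m : ℝ, 0 ≤ m ∧ m ≤ 1 ∧ (∀ i : Fin (w k), τ ⟨k, i⟩ ≤ m) ∧
        (0 < w k → ∃ i : Fin (w k), m = τ ⟨k, i⟩) ∧ (w k = 0 → m = 0) := by
      intro k
      rcases Nat.eq_zero_or_pos (w k) with h0 | h0
      · exact ⟨0, le_rfl, zero_le_one, fun i => absurd i.2 (by omega), fun h => absurd h0 h.ne',
          fun _ => rfl⟩
      · have hne : (univ : Finset (Fin (w k))).Nonempty := ⟨⟨0, h0⟩, mem_univ _⟩
        obtain ⟨i, -, hi⟩ := Finset.exists_max_image univ (fun i : Fin (w k) => τ ⟨k, i⟩) hne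
        exact ⟨τ ⟨k, i⟩, hτ0 _, hτ1 _, fun i' => hi i' (mem_univ _), fun _ => ⟨i, rfl⟩,
          fun h => absurd h h0.ne'⟩
    choose M hM0 hM1 hMle hMex hMz using hbest
    have hF : ∀ F : Finset κ, F.Nonempty → ∑ k ∈ F, M k ≤ (T.verts F : ℝ) +
        Fintype.card κ * b1 := by
      intro F hFne
      set F' := F.filter (fun k => 0 < w k) with hF'
      have h5 : ∑ k ∈ F, M k = ∑ k ∈ F', M k := by
        refine (Finset.sum_filter_of_ne ?_).symm
        intro k _ hk
        by_contra h6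
        exact hk (hMz k (by omega))
      have h7 : (0 : ℝ) ≤ Fintype.card κ * b1 := by positivity
      rcases F'.eq_empty_or_nonempty with h8 | h8
      · rw [h5, h8, Finset.sum_empty]
        have : (0 : ℝ) ≤ T.verts F := Nat.cast_nonneg _
        linarith
      · have h9 : ∀ k : F', ∃ i : Fin (w k), M k = τ ⟨k, i⟩ := by
          intro k
          exact hMex k.1 (Finset.mem_filter.1 k.2).2
        choose c hc using h9
        have hneF : Nonempty F' := h8.to_subtype
        have hj1 := sub_le (T.copies w).src (T.copies w).dst (fun p => σ p.1)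
          (fun k : F' => (⟨T.src k, ⟨k, rfl⟩⟩ : {p : P // ∃ k : F', T.src k = p}))
          (fun k : F' => (⟨T.dst k, ⟨k, rfl⟩⟩ : {p : Q // ∃ k : F', T.dst k = p}))
          (fun k : F' => σ k) (pk (⟨⟨F', h8⟩, c⟩ : Pick w)) Subtype.val Subtype.val
          (fun _ => rfl) (fun _ => rfl) (fun _ => rfl) (Game.mk src dst perm) r p.1 p.2
        have hj2 := hval ⟨⟨F', h8⟩, c⟩ (restr (pk (⟨⟨F', h8⟩, c⟩ : Pick w)) r) perm (hrj _) hv1
        have hc0 : (0 : ℝ) < Fintype.card F' := by exact_mod_cast Fintype.card_pos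
        have hcc : (Fintype.card F' : ℝ) = (F'.card : ℝ) := by rw [Fintype.card_coe]
        have hj3 : ∑ k : F', τ (pk (⟨⟨F', h8⟩, c⟩ : Pick w) k) ≤
            (T.verts F' : ℝ) + F'.card * b1 := by
          refine hj1.trans ((mul_le_mul_of_nonneg_left hj2 hc0.le).trans (le_of_eq ?_))
          rw [mul_add, hcc, mul_div_cancel₀ _ (by rw [← hcc]; exact hc0.ne')]
        have hj4 : ∑ k ∈ F', M k = ∑ k : F', τ (pk (⟨⟨F', h8⟩, c⟩ : Pick w) k) := by
          rw [← Finset.sum_coe_sort F' M]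
          exact Finset.sum_congr rfl (fun k _ => hc k)
        have hj5 : (T.verts F' : ℝ) ≤ T.verts F := by
          refine Nat.cast_le.2 ?_
          unfold TypeGraph.verts
          exact Nat.add_le_add (Finset.card_le_card (Finset.image_subset_image
            (Finset.filter_subset _ _))) (Finset.card_le_card (Finset.image_subset_image
            (Finset.filter_subset _ _)))
        have hj6 : (F'.card : ℝ) * b1 ≤ Fintype.card κ * b1 := by
          refine mul_le_mul_of_nonneg_right ?_ hb10.le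
          exact_mod_cast Finset.card_le_univ F'
        rw [h5, hj4]
        linarith
    have h10 := rank_slack T w M hM0 hM1 (Fintype.card κ * b1) (by positivity) hF
    have h11 : ∑ k, τ k ≤ ∑ k, (w k : ℝ) * M k := by
      rw [Fintype.sum_sigma]
      refine Finset.sum_le_sum (fun k _ => ?_)
      refine (Finset.sum_le_sum (fun i _ => hMle k i)).trans (le_of_eq ?_)
      rw [Finset.sum_const, card_univ, Fintype.card_fin, nsmul_eq_mul]
    have hcard : (Fintype.card ((k : κ) × Fin (w k)) : ℝ) = ((∑ k, w k : ℕ) : ℝ) := by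
      rw [Fintype.card_sigma]
      simp
    rw [hcard]
    calc (∑ k, τ k) / ((∑ k, w k : ℕ) : ℝ)
        ≤ ((1 + Fintype.card κ * b1) * T.maxWeight w) / ((∑ k, w k : ℕ) : ℝ) :=
          div_le_div_of_nonneg_right (h11.trans h10) hn.le
      _ = (T.maxWeight w : ℝ) / ((∑ k, w k : ℕ) : ℝ) +
            Fintype.card κ * b1 * ((T.maxWeight w : ℝ) / ((∑ k, w k : ℕ) : ℝ)) := by ring
      _ ≤ (T.maxWeight w : ℝ) / ((∑ k, w k : ℕ) : ℝ) + b * 1 := by
          have h12 : (T.maxWeight w : ℝ) / ((∑ k, w k : ℕ) : ℝ) ≤ 1 := by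
            rw [div_le_one hn]
            exact hm
          have h13 : (0 : ℝ) ≤ (T.maxWeight w : ℝ) / ((∑ k, w k : ℕ) : ℝ) := by positivity
          have h14 := mul_le_mul hb1k h12 h13 hb.le
          linarith
      _ = _ := by rw [mul_one]

end Pool.Agent.P325b
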