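import Mathlib
import Pool.Agent.Lib.P325b.RandAmplify
import Pool.Agent.Lib.P325b.Weighted
import Pool.Agent.Lib.P325b.BitsMap
import Pool.Agent.Lib.P325b.Props
import Pool.Agent.Lib.P325b.Transport
import Pool.Agent.Lib.P325b.PolyCov

/-!
# Bounded degree: equivalence with the conjecture above the threshold
-/

open Finset
open scoped BigOperators

namespace Pool.Agent.P325b

open Pool.Agent.P325f1f.Dich Pool.Agent.P325n Pool.Agent.P325r Pool.Agent.P325t Pool.Agent.CovT
open Pool.Agent.Lib.PolyTime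

theorem card_fiber {κ : Type} [Fintype κ] [DecidableEq κ] (w : κ → ℕ) (n : ℕ)
    (e : Fin n ≃ ((k : κ) × Fin (w k))) (l : κ) :
    (univ.filter (fun k : Fin n => (e k).1 = l)).card = w l := by
  have h2 : (univ.filter (fun k : Fin n => (e k).1 = l)).card =
      (univ : Finset (Fin (w l))).card := by
    refine (Finset.card_bij (fun (i : Fin (w l)) _ => e.symm ⟨l, i⟩) ?_ ?_ ?_).symm
    · intro i _
      simp
    · intro i _ i' _ h
      have h1 := e.symm.injective h
      simpa using h1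
    · intro k hk
      simp only [mem_filter, mem_univ, true_and] at hk
      subst hk
      exact ⟨(e k).2, mem_univ _, by simp⟩
  rw [h2, card_univ, Fintype.card_fin]

theorem encode_length_ge {q : ℕ} (I : Inst q) : I.m ≤ I.encode.length := by
  unfold Inst.encode
  simp only [List.length_append, List.length_replicate, List.length_cons]
  omega

theorem boundedHard_of_rand {P Q κ : Type} [Fintype P] [Fintype Q] [Fintype κ]
    (T : TypeGraph P Q κ) (w : κ → ℕ) (hw : 0 < ∑ k, w k) (c δ : ℚ) (hc : c ≤ 1)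
    (hδ : (T.maxWeight w : ℚ) / ((∑ k, w k : ℕ) : ℚ) < δ) (h : RandGapHard c) :
    BoundedHard c T w δ := by
  classical
  intro ε hε hεδ
  have hεr : (0 : ℝ) < ε := by exact_mod_cast hε
  have hδ0 : 0 ≤ δ := le_trans (by positivity) hδ.le
  have hc0 : 0 < c := by linarith
  have hc0r : (0 : ℝ) < c := by exact_mod_cast hc0
  have hc1r : (c : ℝ) ≤ 1 := by exact_mod_cast hc
  obtain ⟨t, ht⟩ := exists_nat_gt (2 / (ε : ℝ))
  have ht0 : (0 : ℝ) < t := lt_trans (by positivity) ht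
  have ht1 : 1 ≤ t := by
    have : 0 < t := by exact_mod_cast ht0
    omega
  have hinv : 1 / (t : ℝ) ≤ ε / 2 := by
    rw [div_le_iff₀ ht0]
    rw [div_lt_iff₀ hεr] at ht
    linarith
  have hgap : (T.maxWeight w : ℝ) / ((∑ k, w k : ℕ) : ℝ) < ((δ : ℚ) : ℝ) := by
    have h9 : (((T.maxWeight w : ℚ) / ((∑ k, w k : ℕ) : ℚ) : ℚ) : ℝ) < ((δ : ℚ) : ℝ) := by
      exact_mod_cast hδ
    rw [Rat.cast_div, Rat.cast_natCast, Rat.cast_natCast] at h9
    exact h9
  obtain ⟨b, hb⟩ : ∃ b : ℝ, b = ((δ : ℚ) : ℝ) - (T.maxWeight w : ℝ) / ((∑ k, w k : ℕ) : ℝ) :=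
    ⟨_, rfl⟩
  have hb0 : 0 < b := by rw [hb]; linarith
  obtain ⟨Ω, f1, f2, σ, a, T₀, ha, hM⟩ := weighted_hard T w hw t ht1 b hb0
  obtain ⟨δ2, hδ2, hδ2'⟩ := exists_rat_btwn
    (show (0 : ℝ) < min a (c / 2) from lt_min ha (by positivity))
  have hδ20 : 0 < δ2 := by exact_mod_cast hδ2
  have hδ21 : (δ2 : ℝ) < a := lt_of_lt_of_le hδ2' (min_le_left _ _)
  have hδ22 : δ2 < c / 2 := by
    have h1 : (δ2 : ℝ) < c / 2 := lt_of_lt_of_le hδ2' (min_le_right _ _)
    have h2 : ((δ2 : ℚ) : ℝ) < ((c / 2 : ℚ) : ℝ) := by push_cast; exact h1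
    exact_mod_cast h2
  have hneK : Nonempty ((k : κ) × Fin (w k)) := by
    by_contra hne
    rw [not_nonempty_iff] at hne
    have h0 : ∀ k, w k = 0 := by
      intro k
      by_contra hk
      exact hne.elim ⟨k, ⟨0, Nat.pos_of_ne_zero hk⟩⟩
    rw [Finset.sum_eq_zero (fun k _ => h0 k)] at hw
    exact lt_irrefl _ hw
  obtain ⟨q, hq, hhard⟩ := h (ε / 2) δ2 (by linarith) hδ20 (by linarith)
  have hneq : Nonempty (Fin q) := ⟨⟨0, hq⟩⟩
  refine ⟨Fintype.card Ω, Fintype.card_pos,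
    fun k => (Fintype.equivFin Ω).symm.trans ((σ k).trans (Fintype.equivFin Ω)), ?_⟩
  refine hhard.mapR (fun η hη => ?_)
  have hηr : (0 : ℝ) < η := by exact_mod_cast hη
  -- the number of copies
  obtain ⟨N, hN0, hNη⟩ : ∃ N : ℕ, T₀ ≤ N ∧ Real.exp (-(a * N)) ≤ η / 2 := by
    obtain ⟨N1, hN1⟩ := exists_nat_gt (2 / η / a)
    refine ⟨max T₀ N1, le_max_left _ _, ?_⟩
    have h1 : 2 / (η : ℝ) ≤ a * ((max T₀ N1 : ℕ) : ℝ) := by
      rw [div_lt_iff₀ ha] at hN1
      have h2 : (N1 : ℝ) ≤ ((max T₀ N1 : ℕ) : ℝ) := by exact_mod_cast le_max_right _ _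
      have h3 := mul_le_mul_of_nonneg_left h2 ha.le
      linarith
    have h4 := Real.add_one_le_exp (a * ((max T₀ N1 : ℕ) : ℝ))
    have h5 : 2 / (η : ℝ) ≤ Real.exp (a * ((max T₀ N1 : ℕ) : ℝ)) := by linarith
    rw [Real.exp_neg, inv_le_comm₀ (Real.exp_pos _) (by positivity), inv_div]
    exact h5
  obtain ⟨hN1, hN2⟩ := hM N hN0
  obtain ⟨M, hMdef⟩ : ∃ M : Tmpl q (Fintype.card Ω), M = tmpl q (T.copies w).src (T.copies w).dst
    (fun p => σ p.1) t N ht1 hN1 := ⟨_, rfl⟩
  obtain ⟨B0, hB0⟩ : ∃ B0 : ℕ, (8 * (M.nK : ℝ)) / 2 ^ B0 ≤ η / 2 := by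
    obtain ⟨B0, hB0⟩ := pow_unbounded_of_one_lt (16 * (M.nK : ℝ) / η) (one_lt_two)
    refine ⟨B0, ?_⟩
    rw [div_lt_iff₀ hηr] at hB0
    rw [div_le_iff₀ (by positivity)]
    linarith
  have hbd : ∀ (I : Inst q) (r : Rout (Fin M.nK) (Half M I) _ (clN M I)),
      cov M I r ∈ BoundedInst T w
        (fun k => (Fintype.equivFin Ω).symm.trans ((σ k).trans (Fintype.equivFin Ω))) := by
    intro I r
    subst hMdef
    exact cov_bounded T w _ _ (Fintype.equivFin P).symm (Fintype.equivFin Q).symm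
      (fun k => ((Fintype.equivFin ((k : κ) × Fin (w k))).symm k).1)
      (Fintype.equivFin P).symm.injective (Fintype.equivFin Q).symm.injective
      (fun k => (Fintype.equivFin P).symm_apply_apply _)
      (fun k => (Fintype.equivFin Q).symm_apply_apply _) (fun k => rfl)
      (fun l => card_fiber w _ _ l) I r
  have htr : ∀ I : Inst q, ∃ Φ : Rout (Fin M.nK) (Half M I) _ (clN M I) ≃
      Rout ((k : κ) × Fin (w k)) (Bool × Slot (Fin I.m) (Fin q) Ω t N)
        ((Fin I.a ⊕ Fin I.b) × (Fin q → Ω)) (cloud I.game.src I.game.dst),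
      ∀ r, (cov M I r).game.value = (coverGame (T.copies w).src (T.copies w).dst
        (fun p => σ p.1) I.game (Φ r)).value := by
    intro I
    subst hMdef
    exact transport q (T.copies w).src (T.copies w).dst (fun p => σ p.1) t N ht1 hN1 I
  refine ⟨bitLen M B0, covBits M B0, Polynomial.C M.nK * (Polynomial.C 2 *
    (Polynomial.X * Polynomial.C M.C)) * (Polynomial.X * Polynomial.C M.C + Polynomial.C B0),
    poly_bitLen M B0, ?_, poly_covBits M B0, ?_, ?_⟩
  · intro I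
    have h1 := encode_length_ge I
    simp only [Polynomial.eval_mul, Polynomial.eval_C, Polynomial.eval_X, Polynomial.eval_add]
    unfold bitLen
    have h2 : I.m * M.C ≤ I.encode.length * M.C := Nat.mul_le_mul_right _ h1
    exact Nat.mul_le_mul (Nat.mul_le_mul_left _ (Nat.mul_le_mul_left _ h2))
      (Nat.add_le_add_right h2 _)
  · intro I hI r
    have hI' : ((c - ε / 2 : ℚ) : ℝ) ≤ I.game.value := hI
    refine ⟨hbd I _, ?_⟩
    obtain ⟨Φ, hΦ⟩ := htr I
    show _ ≤ (cov M I _).game.value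
    rw [hΦ]
    have hm : Nonempty (Fin I.m) := ⟨⟨0, I.pos⟩⟩
    refine le_trans ?_ (complete_T ht1 hN1 _ _ _ I.game _)
    have h1 := value_le_one I.game
    have h2 := value_nonneg I.game
    push_cast at hI' ⊢
    have h3 : (1 - (ε : ℝ) / 2) * I.game.value ≤ (1 - 1 / (t : ℝ)) * I.game.value :=
      mul_le_mul_of_nonneg_right (by linarith) h2
    refine le_trans ?_ h3
    nlinarith
  · intro I hI
    have hI' : I.game.value ≤ (δ2 : ℝ) := hI
    obtain ⟨Φ, hΦ⟩ := htr I
    have hm : Nonempty (Fin I.m) := ⟨⟨0, I.pos⟩⟩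
    obtain ⟨Bad, hBad, hgood⟩ := hN2 (Fin I.a) (Fin I.b) (Fin q) (Fin I.m) I.game.src I.game.dst
    obtain ⟨Bad', hBad'⟩ : ∃ Bad' : Finset (Rout (Fin M.nK) (Half M I) _ (clN M I)),
      Bad' = Bad.map Φ.symm.toEmbedding := ⟨_, rfl⟩
    have hc1 : Bad'.card = Bad.card := by rw [hBad', Finset.card_map]
    have hc2 : Fintype.card (Rout (Fin M.nK) (Half M I) _ (clN M I)) = Fintype.card
        (Rout ((k : κ) × Fin (w k)) (Bool × Slot (Fin I.m) (Fin q) Ω t N)
          ((Fin I.a ⊕ Fin I.b) × (Fin q → Ω)) (cloud I.game.src I.game.dst)) :=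
      Fintype.card_congr Φ
    have h1 := routB_frac M B0 I Bad' (Real.exp (-(a * N))) (by
      rw [hc1, hc2]
      exact hBad)
    have h2 : (Nat.card {r : Fin (bitLen M B0 I) → Bool // covBits M B0 (I, List.ofFn r) ∉
        {I : Inst (Fintype.card Ω) | I ∈ BoundedInst T w (fun k => (Fintype.equivFin Ω).symm.trans
          ((σ k).trans (Fintype.equivFin Ω))) ∧ I.game.value ≤ ((δ : ℚ) : ℝ)}}) ≤
        Nat.card {r : Fin (bitLen M B0 I) → Bool // routB M B0 I (List.ofFn r) ∈ Bad'} := by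
      refine Nat.card_le_card_of_injective (fun r => ⟨r.1, ?_⟩) ?_
      · by_contra hr
        apply r.2
        refine ⟨hbd I _, ?_⟩
        show (cov M I _).game.value ≤ _
        rw [hΦ]
        have h3 : Φ (routB M B0 I (List.ofFn r.1)) ∉ Bad := by
          intro h4
          apply hr
          rw [hBad', Finset.mem_map]
          exact ⟨_, h4, Φ.symm_apply_apply _⟩
        have h5 := hgood _ I.game.perm h3 (hI'.trans hδ21.le)
        refine h5.trans (le_of_eq ?_)
        rw [hb]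
        ring
      · intro r r' hrr
        simp only [Subtype.mk.injEq] at hrr
        exact Subtype.ext hrr
    have h6 : ((Nat.card {r : Fin (bitLen M B0 I) → Bool // covBits M B0 (I, List.ofFn r) ∉
        {I : Inst (Fintype.card Ω) | I ∈ BoundedInst T w (fun k => (Fintype.equivFin Ω).symm.trans
          ((σ k).trans (Fintype.equivFin Ω))) ∧ I.game.value ≤ ((δ : ℚ) : ℝ)}} : ℕ) : ℝ) ≤
        η * 2 ^ bitLen M B0 I := by
      refine (Nat.cast_le.2 h2).trans (h1.trans ?_)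
      refine mul_le_mul_of_nonneg_right ?_ (by positivity)
      linarith
    have h7 : (((Nat.card {r : Fin (bitLen M B0 I) → Bool // covBits M B0 (I, List.ofFn r) ∉
        {I : Inst (Fintype.card Ω) | I ∈ BoundedInst T w (fun k => (Fintype.equivFin Ω).symm.trans
          ((σ k).trans (Fintype.equivFin Ω))) ∧ I.game.value ≤ ((δ : ℚ) : ℝ)}} : ℚ) : ℚ) : ℝ) ≤
        ((η * 2 ^ bitLen M B0 I : ℚ) : ℝ) := by
      push_cast
      exact h6
    exact_mod_cast h7

/-- NP-hardness of a bounded degree typed gap problem with completeness near `1` gives the conjecture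
(with randomised reductions). -/
theorem rand_of_bounded {P Q κ : Type} [Fintype κ] (T : TypeGraph P Q κ) (w : κ → ℕ) (δ : ℚ)
    (hδ1 : δ < 1) (h : BoundedHard 1 T w δ) : RandGapHard 1 := by
  refine amplifyR δ hδ1 (fun ε hε hεδ => ?_)
  obtain ⟨q, hq, σ, hh⟩ := h ε hε hεδ
  exact ⟨q, hq, hh.mono (fun I hI => hI.2) (fun I hI => hI.2)⟩

/-- The gap problem with deterministic reductions is harder. -/
theorem rand_of_gapHard (c : ℚ) (h : GapHard c allPerms) : RandGapHard c := by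
  intro ε δ hε hδ hεδ
  obtain ⟨q, hq, P, _, hh⟩ := h ε δ hε hδ hεδ
  exact ⟨q, hq, toRand (hh.mono (fun I hI => hI.2) (fun I hI => hI.2))⟩

end Pool.Agent.P325b
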